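import Pool.Agent.Lib.MP_0da313_nt.TC.F
import Pool.Agent.Lib.MP_0da313_nt.CM.P.cnt

set_option autoImplicit false

/-!
[TC cn2]: the final count for a good `n`.
-/

namespace Pool.Agent.TC.F

open Finset Filter Polynomial
open Pool.Agent.MP89da58 (bil pw nn supp part kapD tri)
open Pool.Agent.MT (PJf ZI Dl)
open Pool.Agent.BVall (om rhoW PK lev RepB Dens mem_PK)
open Pool.Agent.Lib.MP_0da313_nt (Admissible lineRestrict val singV W small)
open Pool.Agent.CH (thP)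
open Pool.Agent.CM (wd Fam z0)
open Pool.Agent.CM.F (Pre)
open Pool.Agent.TC.W (qf ten)
open Pool.Agent.TC.M (DE Par2 Wt2 Near)

/-- The combinatorial core: the points at which one of the two sums is small contribute little. -/
theorem tc_cn2_core (S : Finset ℕ) (a b Z : ℕ → ℝ) {A1 A2 Zm r1 r2 : ℝ}
    (ha : ∀ x ∈ S, 0 ≤ a x ∧ a x ≤ A1) (hb : ∀ x ∈ S, 0 ≤ b x ∧ b x ≤ A2)
    (hZ : ∀ x ∈ S, 0 ≤ Z x ∧ Z x ≤ Zm) (hr1 : 0 ≤ r1) (hr2 : 0 ≤ r2) :
    ∑ x ∈ S, a x * b x * Z x - r1 * ∑ x ∈ S, b x * Z x - r2 * ∑ x ∈ S, a x * Z x ≤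
      A1 * A2 * Zm * ((S.filter (fun x => r1 < a x ∧ r2 < b x)).card : ℝ) := by
  classical
  have h1 : ∑ x ∈ S, a x * b x * Z x - r1 * ∑ x ∈ S, b x * Z x - r2 * ∑ x ∈ S, a x * Z x =
      ∑ x ∈ S, (a x * b x - r1 * b x - r2 * a x) * Z x := by
    rw [Finset.mul_sum, Finset.mul_sum, ← Finset.sum_sub_distrib, ← Finset.sum_sub_distrib]
    apply Finset.sum_congr rfl
    intro x _
    ring
  rw [h1]
  have h2 : ∀ x ∈ S, (a x * b x - r1 * b x - r2 * a x) * Z x ≤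
      if r1 < a x ∧ r2 < b x then A1 * A2 * Zm else 0 := by
    intro x hx
    obtain ⟨a0, a1⟩ := ha x hx
    obtain ⟨b0, b1⟩ := hb x hx
    obtain ⟨z0, z1⟩ := hZ x hx
    split_ifs with hc
    · have e1 : (a x * b x - r1 * b x - r2 * a x) * Z x ≤ a x * b x * Z x := by
        apply mul_le_mul_of_nonneg_right _ z0
        nlinarith [mul_nonneg hr1 b0, mul_nonneg hr2 a0]
      refine e1.trans ?_
      exact mul_le_mul (mul_le_mul a1 b1 b0 (a0.trans a1)) z1 z0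
        (mul_nonneg (a0.trans a1) (b0.trans b1))
    · apply mul_nonpos_of_nonpos_of_nonneg _ z0
      rw [not_and_or, not_lt, not_lt] at hc
      rcases hc with hc | hc
      · nlinarith [mul_le_mul_of_nonneg_right hc b0, mul_nonneg hr2 a0]
      · nlinarith [mul_le_mul_of_nonneg_left hc a0, mul_nonneg hr1 b0]
  refine (Finset.sum_le_sum h2).trans ?_
  rw [← Finset.sum_filter, Finset.sum_const, nsmul_eq_mul, mul_comm]

/-- The number of the primes. -/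
theorem tc_cn2_num {κ : Type} [Fintype κ] (θ : κ → ℝ) (p : κ → Prop) [DecidablePred p] {l τ : ℝ}
    (hl : 0 < l) (hτ : 0 ≤ τ) (h0 : ∀ i, θ i ≤ 2 * l) (hp : ∀ i, ¬ p i → θ i ≤ 0)
    (h : Fintype.card κ * τ * l / 1000 < ∑ i, θ i) :
    Fintype.card κ * τ / 2000 ≤ ((univ.filter p).card : ℝ) ∧ 1 ≤ (univ.filter p).card := by
  classical
  have h1 : ∑ i, θ i ≤ ((univ.filter p).card : ℝ) * (2 * l) := by
    calc ∑ i, θ i ≤ ∑ i, (if p i then 2 * l else 0) := by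
          apply Finset.sum_le_sum
          intro i _
          split_ifs with hi
          · exact h0 i
          · exact hp i hi
      _ = _ := by rw [← Finset.sum_filter, Finset.sum_const, nsmul_eq_mul]
  have h2 : (Fintype.card κ * τ / 2000) * (2 * l) < ((univ.filter p).card : ℝ) * (2 * l) := by
    refine lt_of_eq_of_lt ?_ (h.trans_le h1)
    ring
  have h3 : Fintype.card κ * τ / 2000 < ((univ.filter p).card : ℝ) :=
    lt_of_mul_lt_mul_right h2 (by positivity)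
  refine ⟨h3.le, ?_⟩
  have h4 : (0 : ℝ) < ((univ.filter p).card : ℝ) := lt_of_le_of_lt (by positivity) h3
  exact_mod_cast h4

theorem tc_cn2_thP_nonneg (m : ℕ) : 0 ≤ thP m := by
  unfold thP
  split_ifs with hp
  · exact Real.log_nonneg (by exact_mod_cast hp.one_lt.le)
  · exact le_rfl

theorem tc_cn2_thP_prime {m : ℕ} (h : thP m ≠ 0) : m.Prime := by
  by_contra hc
  apply h
  unfold thP
  rw [if_neg hc]

/-- No prime of `P` divides a large prime value. -/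
theorem tc_cn2_link {L : ℤ} {P : Finset ℕ} {R : ℝ} (h : thP L.toNat ≠ 0)
    (hP : ∀ p ∈ P, p.Prime ∧ (p : ℝ) ≤ R) (hL : R < L) : ∀ p ∈ P, ¬ (p : ℤ) ∣ L := by
  intro p hp hd
  have hq := tc_cn2_thP_prime h
  have hq0 : 0 < L.toNat := hq.pos
  have hL0 : ((L.toNat : ℕ) : ℤ) = L := Int.toNat_of_nonneg (by omega)
  rw [← hL0] at hd
  have hd' : p ∣ L.toNat := by exact_mod_cast hd
  have h1 : p = L.toNat := (Nat.prime_dvd_prime_iff_eq (hP p hp).1 hq).1 hd'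
  have h2 := (hP p hp).2
  rw [h1] at h2
  have h3 : ((L.toNat : ℕ) : ℝ) = (L : ℝ) := by exact_mod_cast hL0
  rw [h3] at h2
  linarith

/-- The upper bound for `V`. -/
theorem tc_cn2_V {ι : Type} [Fintype ι] [DecidableEq ι] {D : ℕ} (F : Fam ι D) {n n' : ℕ}
    (hn : F.N0 ≤ n) : F.V n n' ≤ 1 := by
  classical
  have hdens := Pool.Agent.MT.dens_poly (F.G n) D (2 * D) (F.hdeg n hn) (by omega) (F.hloc n hn)
  unfold Fam.V
  apply Pool.Agent.Lib.MP_0da313_nt.W_le_one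
  · intro p hp
    exact (hdens.lt_one (mem_PK.1 hp).1).le
  · intro p _
    exact hdens.nonneg p

/-- Comparison of the error terms of a block. -/
theorem tc_cn2_NN {N n : ℕ} (A : ℕ) (hN : 2 ≤ N) (h1 : N < n) (h2 : n ≤ 2 * N) :
    (N : ℝ) / (Real.log N) ^ A ≤ 2 ^ A * (n / (Real.log n) ^ A) := by
  have hNr : (2 : ℝ) ≤ N := by exact_mod_cast hN
  have h1r : (N : ℝ) ≤ n := by exact_mod_cast h1.le
  have h2r : (n : ℝ) ≤ 2 * N := by exact_mod_cast h2
  have hlN : 0 < Real.log N := Real.log_pos (by linarith)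
  have hln : 0 < Real.log n := Real.log_pos (by linarith)
  have h3 : Real.log n ≤ 2 * Real.log N := by
    have e1 := Real.log_le_log (by linarith : (0 : ℝ) < n) h2r
    rw [Real.log_mul (by norm_num) (by positivity)] at e1
    have e2 := Real.log_le_log (by norm_num) hNr
    linarith
  have h4 : (Real.log n) ^ A ≤ 2 ^ A * (Real.log N) ^ A := by
    rw [← mul_pow]
    exact pow_le_pow_left₀ hln.le h3 A
  rw [mul_div_assoc', div_le_div_iff₀ (by positivity) (by positivity)]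
  calc (N : ℝ) * Real.log n ^ A ≤ n * (2 ^ A * (Real.log N) ^ A) :=
        mul_le_mul h1r h4 (by positivity) (by positivity)
    _ = _ := by ring

/-- The expansion of the sum over the pairs. -/
theorem tc_cn2_e12 {ι₁ ι₂ : Type} [Fintype ι₁] [Fintype ι₂] (X : Finset ℕ) (u : ι₁ → ℕ → ℝ)
    (v : ι₂ → ℕ → ℝ) (Z : ℕ → ℝ) (Z12 : ι₁ → ι₂ → ℕ → ℝ)
    (h : ∀ i j, ∀ x ∈ X, u i x * v j x * Z x = u i x * v j x * Z12 i j x) :
    ∑ x ∈ X, (∑ i, u i x) * (∑ j, v j x) * Z x =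
      ∑ i, ∑ j, ∑ x ∈ X, u i x * v j x * Z12 i j x := by
  calc ∑ x ∈ X, (∑ i, u i x) * (∑ j, v j x) * Z x =
        ∑ x ∈ X, ∑ i, ∑ j, u i x * v j x * Z12 i j x := by
        apply Finset.sum_congr rfl
        intro x hx
        rw [Finset.sum_mul_sum, Finset.sum_mul]
        apply Finset.sum_congr rfl
        intro i _
        rw [Finset.sum_mul]
        apply Finset.sum_congr rfl
        intro j _
        exact h i j x hx
    _ = ∑ i, ∑ x ∈ X, ∑ j, u i x * v j x * Z12 i j x := Finset.sum_comm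
    _ = _ := by
        apply Finset.sum_congr rfl
        intro i _
        exact Finset.sum_comm

/-- The expansion of the sum over the single forms. -/
theorem tc_cn2_e1 {ι₁ : Type} [Fintype ι₁] (X : Finset ℕ) (u : ι₁ → ℕ → ℝ)
    (Z : ℕ → ℝ) (Z1 : ι₁ → ℕ → ℝ) (h : ∀ i, ∀ x ∈ X, u i x * Z x = u i x * Z1 i x) :
    ∑ x ∈ X, (∑ i, u i x) * Z x = ∑ i, ∑ x ∈ X, u i x * Z1 i x := by
  rw [Finset.sum_comm]
  apply Finset.sum_congr rfl
  intro x hx
  rw [Finset.sum_mul]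
  apply Finset.sum_congr rfl
  intro i _
  exact h i x hx

theorem p_cn2 : S_cn2 := by
  classical
  intro hsys hnu hloc hT2 hU1 hwm hdn hpre
  obtain ⟨c', hc'0, hc'1, hsys⟩ := hsys
  refine ⟨c' / 2000, by positivity, ?_⟩
  intro ι₁ ι₂ _ _ _ _ _ _
  obtain ⟨M, hM1, hsys⟩ := hsys ι₁ ι₂
  refine ⟨M, hM1, ?_⟩
  intro D B0 h hD hB0 hh
  obtain ⟨B, hB1, hsys⟩ := hsys B0 hB0
  obtain ⟨K1, hK1⟩ : ∃ K : ℝ, K = (Fintype.card ι₁ : ℝ) := ⟨_, rfl⟩
  obtain ⟨K2, hK2⟩ : ∃ K : ℝ, K = (Fintype.card ι₂ : ℝ) := ⟨_, rfl⟩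
  have hK11 : 1 ≤ K1 := by
    rw [hK1]
    exact_mod_cast Fintype.card_pos
  have hK21 : 1 ≤ K2 := by
    rw [hK2]
    exact_mod_cast Fintype.card_pos
  have hB0r : (1 : ℝ) ≤ B0 := by exact_mod_cast hB0
  have hBr : (1 : ℝ) ≤ B := by exact_mod_cast hB1
  obtain ⟨t0, ht0⟩ : ∃ t : ℝ, t = c' / (K1 * K2 * B0) := ⟨_, rfl⟩
  have ht00 : 0 < t0 := by rw [ht0]; positivity
  obtain ⟨Zm, hZm⟩ : ∃ Z : ℝ, Z = (2 ^ (Fintype.card (ι₁ ⊕ ι₂) * (B0 + 1)) * (B : ℝ)) ^ 2 :=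
    ⟨_, rfl⟩
  have hZm0 : 0 < Zm := by rw [hZm]; positivity
  refine ⟨h * t0 ^ 2 / (200 * Zm), 6 * Fintype.card (ι₁ ⊕ ι₂), 8 * D + 8, by positivity, ?_⟩
  intro ι _ _ F hFh em hem k B1' hBlk hB1'
  obtain ⟨c1, hc1⟩ : ∃ c : ℝ, c = ∏ p ∈ small (2 * D), (1 / (p : ℝ)) := ⟨_, rfl⟩
  have hc1pos : 0 < c1 := by
    rw [hc1]
    apply Finset.prod_pos
    intro p hp
    have hpp : p.Prime := (Finset.mem_filter.mp hp).2
    have : (0 : ℝ) < p := by exact_mod_cast hpp.pos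
    positivity
  obtain ⟨E, hE⟩ : ∃ E : ℝ, E = K1 * K2 * (1 + 3 * (B : ℝ) ^ 2 * 2 ^ (8 * D + 8)) + K1 + K2 :=
    ⟨_, rfl⟩
  have hE0 : 0 ≤ E := by rw [hE]; positivity
  obtain ⟨l0, hnu⟩ := hnu D K1 K2 h c1 t0 E hK11 hK21 hh hc1pos ht00 hE0
  obtain ⟨-, C, hC1, hloc⟩ := hloc ι D F
  have hCr : (1 : ℝ) ≤ C := by exact_mod_cast hC1
  have hcast : Tendsto (fun n : ℕ => (n : ℝ)) atTop atTop := tendsto_natCast_atTop_atTop
  have evlog : ∀ᶠ n : ℕ in atTop, max l0 1 ≤ Real.log n :=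
    hcast.eventually (Real.tendsto_log_atTop.eventually_ge_atTop _)
  have ev1 : ∀ᶠ n : ℕ in atTop, (C : ℝ) * (n : ℝ) ^ (1 / 10000 : ℝ) < n := by
    filter_upwards [eventually_ge_atTop (C ^ 2 + 1)] with n hn
    have hn' : ((C : ℝ)) ^ 2 + 1 ≤ n := by exact_mod_cast hn
    have hn1 : (1 : ℝ) ≤ n := by nlinarith [sq_nonneg (C : ℝ)]
    have e1 : (n : ℝ) ^ (1 / 10000 : ℝ) ≤ Real.sqrt n := by
      rw [Real.sqrt_eq_rpow]
      exact Real.rpow_le_rpow_of_exponent_le hn1 (by norm_num)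
    have e2 : (C : ℝ) < Real.sqrt n := by
      apply Real.lt_sqrt_of_sq_lt
      linarith
    have e3 : Real.sqrt n * Real.sqrt n = n := Real.mul_self_sqrt (by linarith)
    have e4 : 0 < Real.sqrt n := by linarith
    calc (C : ℝ) * (n : ℝ) ^ (1 / 10000 : ℝ) ≤ C * Real.sqrt n :=
          mul_le_mul_of_nonneg_left e1 (by linarith)
      _ < Real.sqrt n * Real.sqrt n := mul_lt_mul_of_pos_right e2 e4
      _ = n := e3
  filter_upwards [eventually_forall_ge_atTop.2 (hsys D (8 * D + 8) ι F em hem hD),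
    eventually_forall_ge_atTop.2 hloc,
    hT2 ι (ι₁ ⊕ ι₂) D F em hem k B0 B B1' (8 * D + 8) hBlk hD hB0 hB1',
    eventually_forall_ge_atTop.2 (hU1 ι (ι₁ ⊕ ι₂) D F em hem B0 B (8 * D + 8) hD hB0),
    eventually_forall_ge_atTop.2 (hwm ι (ι₁ ⊕ ι₂) D F em B0 B hD hB0),
    eventually_forall_ge_atTop.2 evlog, eventually_forall_ge_atTop.2 ev1,
    eventually_ge_atTop (F.N0 + 2)] with N hsys hloc hT2 hU1 hwm evlog ev1 hNN
  intro n hnI hEr n' hzB hlev hl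
  obtain ⟨hn1, hn2⟩ := Finset.mem_Ioc.1 hnI
  have hn2' : n ≤ 2 * N := by
    have : N / k ≤ N := Nat.div_le_self _ _
    omega
  have hge : N ≤ n := hn1.le
  have hsys := hsys n hge n' hzB hlev
  have hloc := hloc n hge
  have hU1 := hU1 n hge
  have hwm := hwm n hge
  have evlog := evlog n hge
  have ev1 := ev1 n hge
  have hT2 := hT2 n hnI
  obtain ⟨P, τ₁, τ₂, g, g1, g2, g12, a₁, a₂, β₁, β₂, hPar, hS, ⟨hτ1a, hτ1b, hτ1c⟩,
    ⟨hτ2a, hτ2b, hτ2c⟩⟩ := hsys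
  obtain ⟨Fp, Fm, hFp, hFm, hpt, hmt⟩ := hpre (2 * D) (by omega) n'
  have hPre : Pre D n' Fp Fm := ⟨hFp, hFm, hpt, hmt⟩
  have hnN0 : F.N0 ≤ n := by omega
  have hnR : (1 : ℝ) ≤ n := by exact_mod_cast (by omega : 1 ≤ n)
  have hn0 : (0 : ℝ) < n := by linarith
  have hl0 : l0 ≤ Real.log n := (le_max_left _ _).trans evlog
  have hlog1 : 1 ≤ Real.log n := (le_max_right _ _).trans evlog
  have hlogpos : 0 < Real.log n := by linarith
  -- the parameters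
  have hzlev := CM.F.cnt_z_le_lev D n'
  have hz1 := CM.F.cnt_z_pos D n'
  have hlev1 : (1 : ℝ) ≤ lev (2 * D) n' := by exact_mod_cast hz1.trans hzlev
  have hzlevR : (z0 D n' : ℝ) ≤ lev (2 * D) n' := by exact_mod_cast hzlev
  have hz2 : 2 ≤ z0 D n' := by
    unfold z0
    calc 2 = 2 ^ 1 := rfl
      _ ≤ _ := Nat.pow_le_pow_right (by norm_num) Nat.one_le_two_pow
  have hzn : (z0 D n' : ℝ) ≤ n := by
    calc (z0 D n' : ℝ) ≤ lev (2 * D) n' := hzlevR
      _ = (lev (2 * D) n' : ℝ) ^ 1 := (pow_one _).symm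
      _ ≤ (lev (2 * D) n' : ℝ) ^ (3 * M) := pow_le_pow_right₀ hlev1 (by omega)
      _ ≤ (n : ℝ) ^ (1 / 10000 : ℝ) := hlev
      _ ≤ (n : ℝ) ^ (1 : ℝ) := Real.rpow_le_rpow_of_exponent_le hnR (by norm_num)
      _ = n := Real.rpow_one _
  obtain ⟨κ, hκ⟩ : ∃ κ : ℝ, κ = kapD (z0 D n') := ⟨_, rfl⟩
  have hκ0 : 0 < κ := by
    rw [hκ]
    exact Pool.Agent.MT.kapD_pos _
  have hmer : 1 ≤ 1000 * (κ * Real.log n) := by
    have e1 := Pool.Agent.MT.mertens (z0 D n') hz2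
    rw [← hκ] at e1
    have e2 : Real.log (z0 D n') ≤ Real.log n := by
      apply Real.log_le_log _ hzn
      exact_mod_cast (by omega : 0 < z0 D n')
    calc (1 : ℝ) ≤ 1000 * κ * Real.log (z0 D n') := e1
      _ ≤ 1000 * κ * Real.log n := mul_le_mul_of_nonneg_left e2 (by positivity)
      _ = _ := by ring
  have hVlo := CM.F.cnt_V F hD hnN0 hl
  rw [← hc1] at hVlo
  have hVlo' : c1 / (Real.log n) ^ (8 * D) ≤ F.V n n' := by
    refine le_trans (le_of_eq ?_) hVlo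
    ring
  have hV1 := tc_cn2_V F (n' := n') hnN0
  have hV0 : 0 ≤ F.V n n' := le_trans (by positivity) hVlo'
  have ht1 : t0 ≤ τ₁ := by
    refine le_trans ?_ hτ1a
    rw [ht0, ← hK1]
    apply div_le_div_of_nonneg_left hc'0.le (by positivity)
    nlinarith [mul_nonneg (by linarith : (0 : ℝ) ≤ K1) (by linarith : (0 : ℝ) ≤ B0)]
  have ht2 : t0 ≤ τ₂ := by
    refine le_trans ?_ hτ2a
    rw [ht0, ← hK2]
    apply div_le_div_of_nonneg_left hc'0.le (by positivity)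
    nlinarith [mul_nonneg (by linarith : (0 : ℝ) ≤ K2) (by linarith : (0 : ℝ) ≤ B0)]
  have hτ10 : 0 < τ₁ := lt_of_lt_of_le ht00 ht1
  have hτ20 : 0 < τ₂ := lt_of_lt_of_le ht00 ht2
  -- the points
  obtain ⟨X, hX⟩ : ∃ X : Finset ℕ, X = (Ioo 0 n).filter (fun x : ℕ => F.Rg n (z0 D n') x ∧
    Near F n x) := ⟨_, rfl⟩
  have hXm : ∀ x ∈ X, x ∈ Ioo 0 n ∧ F.Rg n (z0 D n') x ∧ Near F n x := by
    intro x hx
    rw [hX, Finset.mem_filter] at hx
    exact hx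
  obtain ⟨θ, hθ⟩ : ∃ θ : ι₁ ⊕ ι₂ → ℕ → ℝ, θ = fun l (x : ℕ) =>
    thP (F.L n (em l) (x : ℤ)).toNat :=
    ⟨_, rfl⟩
  have hθ0 : ∀ l x, 0 ≤ θ l x := fun l x => by
    rw [hθ]
    exact tc_cn2_thP_nonneg _
  obtain ⟨Z, hZ⟩ : ∃ Z : ℕ → ℝ, Z = fun x : ℕ => ZI (DE F em n P) g (x : ℤ) ^ 2 := ⟨_, rfl⟩
  have hwmX : ∀ x ∈ X, (∀ l, θ l x ≤ 2 * Real.log n) ∧ Z x ≤ Zm := by
    intro x hx
    obtain ⟨x1, x2, x3⟩ := hXm x hx
    obtain ⟨e1, e2⟩ := hwm n' P hPar g hS.bd x x2 x3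
    refine ⟨fun l => ?_, ?_⟩
    · rw [hθ]
      exact e1 _
    · rw [hZ, hZm]
      exact e2
  have hlarge : ∀ x ∈ X, ∀ l, (n : ℝ) ^ (1 / 10000 : ℝ) < F.L n l (x : ℤ) := by
    intro x hx l
    obtain ⟨x1, x2, x3⟩ := hXm x hx
    have e1 := (hloc.2.1 (x : ℤ) (by
      have e2 : |((x : ℤ) : ℝ) - F.xi * n| ≤ F.hw * n / 2 := x3
      have e3 : 0 ≤ F.hw * n := mul_nonneg F.hhw.le hn0.le
      linarith)).2.2 l
    have e4 : (C : ℝ) * (n : ℝ) ^ (1 / 10000 : ℝ) < C * F.L n l (x : ℤ) := ev1.trans_le e1.1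
    exact lt_of_mul_lt_mul_left e4 (by linarith)
  have hPp : ∀ p ∈ P, p.Prime ∧ (p : ℝ) ≤ (n : ℝ) ^ (1 / 10000 : ℝ) := fun p hp =>
    ⟨(hPar.hP p hp).1, (hPar.hP p hp).2.2⟩
  have hlink : ∀ x ∈ X, ∀ l, θ l x ≠ 0 → ∀ p ∈ P, ¬ (p : ℤ) ∣ F.L n (em l) (x : ℤ) := by
    intro x hx l h0
    rw [hθ] at h0
    exact tc_cn2_link h0 hPp (hlarge x hx _)
  -- the three sums
  have hT : 1 / 20 * (h * n * (F.V n n' / κ ^ 2)) * (∑ i, ∑ j, qf (g12 i j)) -
      E * (n / Real.log n ^ (8 * D + 8)) ≤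
      ∑ x ∈ X, (∑ i, θ (Sum.inl i) x) * (∑ j, θ (Sum.inr j) x) * Z x := by
    rw [tc_cn2_e12 X (fun i => θ (Sum.inl i)) (fun j => θ (Sum.inr j)) Z
      (fun i j (x : ℕ) => ZI (DE F em n P) (g12 i j) (x : ℤ) ^ 2) (by
        intro i j x hx
        by_cases h1 : θ (Sum.inl i) x = 0
        · simp only [h1, zero_mul]
        by_cases h2 : θ (Sum.inr j) x = 0
        · simp only [h2, mul_zero, zero_mul]
        rw [hZ]
        simp only
        rw [hS.l12 i j x (hlink x hx _ h1) (hlink x hx _ h2)])]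
    have e1 : ∀ i j, 1 / 20 * (h * n * (F.V n n' / κ ^ 2)) * qf (g12 i j) -
        (1 + 3 * (B : ℝ) ^ 2 * 2 ^ (8 * D + 8)) * (n / Real.log n ^ (8 * D + 8)) ≤
        ∑ x ∈ X, θ (Sum.inl i) x * θ (Sum.inr j) x *
          ZI (DE F em n P) (g12 i j) (x : ℤ) ^ 2 := by
      intro i j
      have e2 := hT2 n' P hPar Fp Fm hPre (em (Sum.inl i)) (em (Sum.inr j))
        (fun hij => by simpa using hem hij) (g12 i j) (hS.w12 i j)
      rw [hFh, ← hκ, ← hX] at e2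
      have e3 := hEr i j
      have e4 := tc_cn2_NN (8 * D + 8) (by omega : 2 ≤ N) hn1 hn2'
      have e5 : 3 * (B : ℝ) ^ 2 * ErS F N (wN B1' N) n (6 * Fintype.card (ι₁ ⊕ ι₂))
          (em (Sum.inl i)) (em (Sum.inr j)) ≤
          3 * (B : ℝ) ^ 2 * (2 ^ (8 * D + 8) * (n / (Real.log n) ^ (8 * D + 8))) :=
        mul_le_mul_of_nonneg_left (e3.trans e4) (by positivity)
      have e6 : ∑ x ∈ X, θ (Sum.inl i) x * θ (Sum.inr j) x *
          ZI (DE F em n P) (g12 i j) (x : ℤ) ^ 2 = ∑ x ∈ X,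
          thP (F.L n (em (Sum.inl i)) (x : ℤ)).toNat * thP (F.L n (em (Sum.inr j)) (x : ℤ)).toNat *
            ZI (DE F em n P) (g12 i j) (x : ℤ) ^ 2 := by
        rw [hθ]
      rw [e6]
      linarith
    have e7 := Finset.sum_le_sum (s := (univ : Finset ι₁)) (fun i _ =>
      Finset.sum_le_sum (s := (univ : Finset ι₂)) (fun j _ => e1 i j))
    refine le_trans ?_ e7
    simp only [Finset.sum_sub_distrib, ← Finset.mul_sum, Finset.sum_const, Finset.card_univ,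
      nsmul_eq_mul]
    rw [← hK1, ← hK2]
    have e8 : (0 : ℝ) ≤ n / Real.log n ^ (8 * D + 8) := by positivity
    have e9 : E * (n / Real.log n ^ (8 * D + 8)) = K1 * (K2 * ((1 + 3 * (B : ℝ) ^ 2 *
        2 ^ (8 * D + 8)) * (n / Real.log n ^ (8 * D + 8)))) +
        (K1 + K2) * (n / Real.log n ^ (8 * D + 8)) := by
      rw [hE]; ring
    have e10 : 0 ≤ (K1 + K2) * (n / Real.log n ^ (8 * D + 8)) := by positivity
    linarith
  have hT1 : ∑ x ∈ X, (∑ i, θ (Sum.inl i) x) * Z x ≤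
      5 * (h * n * (F.V n n' / κ)) * (∑ i, qf (g1 i)) +
      E * (n / Real.log n ^ (8 * D + 8)) := by
    rw [tc_cn2_e1 X (fun i => θ (Sum.inl i)) Z
      (fun i (x : ℕ) => ZI (DE F em n P) (g1 i) (x : ℤ) ^ 2) (by
        intro i x hx
        by_cases h1 : θ (Sum.inl i) x = 0
        · simp only [h1, zero_mul]
        rw [hZ]
        simp only
        rw [hS.l1 i x (hlink x hx _ h1)])]
    have e1 : ∀ i, ∑ x ∈ X, θ (Sum.inl i) x * ZI (DE F em n P) (g1 i) (x : ℤ) ^ 2 ≤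
        5 * (h * n * (F.V n n' / κ)) * qf (g1 i) + n / Real.log n ^ (8 * D + 8) := by
      intro i
      have e2 := hU1 n' P hPar Fp Fm hPre (em (Sum.inl i)) (g1 i) (hS.w1 i)
      rw [hFh, ← hκ, ← hX] at e2
      rw [hθ]
      exact e2
    refine (Finset.sum_le_sum (fun i _ => e1 i)).trans ?_
    simp only [Finset.sum_add_distrib, ← Finset.mul_sum, Finset.sum_const, Finset.card_univ,
      nsmul_eq_mul]
    rw [← hK1]
    have e8 : (0 : ℝ) ≤ n / Real.log n ^ (8 * D + 8) := by positivity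
    have e9 : K1 * (n / Real.log n ^ (8 * D + 8)) ≤ E * (n / Real.log n ^ (8 * D + 8)) := by
      apply mul_le_mul_of_nonneg_right _ e8
      rw [hE]
      have : 0 ≤ K1 * K2 * (1 + 3 * (B : ℝ) ^ 2 * 2 ^ (8 * D + 8)) := by positivity
      linarith
    linarith
  have hT2' : ∑ x ∈ X, (∑ j, θ (Sum.inr j) x) * Z x ≤
      5 * (h * n * (F.V n n' / κ)) * (∑ j, qf (g2 j)) +
      E * (n / Real.log n ^ (8 * D + 8)) := by
    rw [tc_cn2_e1 X (fun i => θ (Sum.inr i)) Z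
      (fun i (x : ℕ) => ZI (DE F em n P) (g2 i) (x : ℤ) ^ 2) (by
        intro i x hx
        by_cases h1 : θ (Sum.inr i) x = 0
        · simp only [h1, zero_mul]
        rw [hZ]
        simp only
        rw [hS.l2 i x (hlink x hx _ h1)])]
    have e1 : ∀ i, ∑ x ∈ X, θ (Sum.inr i) x * ZI (DE F em n P) (g2 i) (x : ℤ) ^ 2 ≤
        5 * (h * n * (F.V n n' / κ)) * qf (g2 i) + n / Real.log n ^ (8 * D + 8) := by
      intro i
      have e2 := hU1 n' P hPar Fp Fm hPre (em (Sum.inr i)) (g2 i) (hS.w2 i)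
      rw [hFh, ← hκ, ← hX] at e2
      rw [hθ]
      exact e2
    refine (Finset.sum_le_sum (fun i _ => e1 i)).trans ?_
    simp only [Finset.sum_add_distrib, ← Finset.mul_sum, Finset.sum_const, Finset.card_univ,
      nsmul_eq_mul]
    rw [← hK2]
    have e8 : (0 : ℝ) ≤ n / Real.log n ^ (8 * D + 8) := by positivity
    have e9 : K2 * (n / Real.log n ^ (8 * D + 8)) ≤ E * (n / Real.log n ^ (8 * D + 8)) := by
      apply mul_le_mul_of_nonneg_right _ e8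
      rw [hE]
      have : 0 ≤ K1 * K2 * (1 + 3 * (B : ℝ) ^ 2 * 2 ^ (8 * D + 8)) := by positivity
      linarith
    linarith
  -- the numerical inequality
  have hs12 := hS.s12
  have hs1 := hS.s1
  have hs2 := hS.s2
  have hb1 := hS.b1
  have hb2 := hS.b2
  rw [← hK1, ← hκ] at hb1
  rw [← hK2, ← hκ] at hb2
  have hfin := hnu (Real.log n) n (F.V n n') κ τ₁ τ₂ a₁ a₂ β₁ β₂ _ _ _ _ _ _ hl0 hn0.le hVlo' hV1
    hκ0 hmer ht1 ht2 hτ1b hτ2b hS.a1 hS.a2 hb1 hb2 hs12 hs1 hs2 hT hT1 hT2'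
  have hcore := tc_cn2_core X (fun x => ∑ i, θ (Sum.inl i) x) (fun x => ∑ j, θ (Sum.inr j) x) Z
    (A1 := 2 * K1 * Real.log n) (A2 := 2 * K2 * Real.log n) (Zm := Zm)
    (r1 := K1 * τ₁ * Real.log n / 1000) (r2 := K2 * τ₂ * Real.log n / 1000)
    (by
      intro x hx
      refine ⟨Finset.sum_nonneg fun i _ => hθ0 _ _, ?_⟩
      calc ∑ i, θ (Sum.inl i) x ≤ ∑ _i : ι₁, 2 * Real.log n :=
            Finset.sum_le_sum fun i _ => (hwmX x hx).1 _
        _ = 2 * K1 * Real.log n := by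
            rw [Finset.sum_const, Finset.card_univ, nsmul_eq_mul, ← hK1]; ring)
    (by
      intro x hx
      refine ⟨Finset.sum_nonneg fun i _ => hθ0 _ _, ?_⟩
      calc ∑ i, θ (Sum.inr i) x ≤ ∑ _i : ι₂, 2 * Real.log n :=
            Finset.sum_le_sum fun i _ => (hwmX x hx).1 _
        _ = 2 * K2 * Real.log n := by
            rw [Finset.sum_const, Finset.card_univ, nsmul_eq_mul, ← hK2]; ring)
    (by
      intro x hx
      refine ⟨?_, (hwmX x hx).2⟩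
      rw [hZ]
      exact sq_nonneg _)
    (by positivity) (by positivity)
  have hle := hfin.trans hcore
  -- comparison of the sets
  refine le_trans (b := ((X.filter (fun x => K1 * τ₁ * Real.log n / 1000 < ∑ i, θ (Sum.inl i) x ∧
    K2 * τ₂ * Real.log n / 1000 < ∑ j, θ (Sum.inr j) x)).card : ℝ)) ?_ ?_
  · set Cd : ℝ := ((X.filter (fun x => K1 * τ₁ * Real.log n / 1000 < ∑ i, θ (Sum.inl i) x ∧
      K2 * τ₂ * Real.log n / 1000 < ∑ j, θ (Sum.inr j) x)).card : ℝ) with hCd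
    have e1 : 1 / 50 * (h * n * F.V n n') * (K1 * K2 * (τ₁ * τ₂) * Real.log n ^ 2) =
        (K1 * K2 * Real.log n ^ 2) * (1 / 50 * (h * n * F.V n n') * (τ₁ * τ₂)) := by ring
    have e2 : 2 * K1 * Real.log n * (2 * K2 * Real.log n) * Zm * Cd =
        (K1 * K2 * Real.log n ^ 2) * (4 * Zm * Cd) := by ring
    rw [e1, e2] at hle
    have e3 : 1 / 50 * (h * n * F.V n n') * (τ₁ * τ₂) ≤ 4 * Zm * Cd :=
      le_of_mul_le_mul_left hle (by positivity)
    have e4 : t0 ^ 2 ≤ τ₁ * τ₂ := by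
      rw [pow_two]
      exact mul_le_mul ht1 ht2 ht00.le hτ10.le
    have e5 : 1 / 50 * (h * n * F.V n n') * t0 ^ 2 ≤ 4 * Zm * Cd := by
      refine le_trans ?_ e3
      exact mul_le_mul_of_nonneg_left e4 (by positivity)
    rw [div_mul_eq_mul_div, div_le_iff₀ (by positivity)]
    linarith
  · have hsub : (X.filter (fun x => K1 * τ₁ * Real.log n / 1000 < ∑ i, θ (Sum.inl i) x ∧
        K2 * τ₂ * Real.log n / 1000 < ∑ j, θ (Sum.inr j) x)).card ≤
        ((Ioo 0 n).filter (fun x : ℕ => F.Rg n (z0 D n') x ∧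
    (c' / 2000 * Real.log (Fintype.card ι₁) ≤
      ((univ.filter (fun i : ι₁ => (F.L n (em (Sum.inl i)) x).natAbs.Prime)).card : ℝ) ∧
    1 ≤ (univ.filter (fun i : ι₁ => (F.L n (em (Sum.inl i)) x).natAbs.Prime)).card) ∧
    (c' / 2000 * Real.log (Fintype.card ι₂) ≤
      ((univ.filter (fun j : ι₂ => (F.L n (em (Sum.inr j)) x).natAbs.Prime)).card : ℝ) ∧
    1 ≤ (univ.filter (fun j : ι₂ => (F.L n (em (Sum.inr j)) x).natAbs.Prime)).card))).card := by
      apply Finset.card_le_card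
      intro x hx
      rw [Finset.mem_filter] at hx
      obtain ⟨hxX, hx1, hx2⟩ := hx
      obtain ⟨hxI, hxR, -⟩ := hXm x hxX
      have hpr : ∀ l, ¬ (F.L n (em l) (x : ℤ)).natAbs.Prime → θ l x ≤ 0 := by
        intro l hl
        have : θ l x = 0 := by
          by_contra hc
          rw [hθ] at hc
          have hq := tc_cn2_thP_prime hc
          apply hl
          have e1 : (F.L n (em l) (x : ℤ)).natAbs = (F.L n (em l) (x : ℤ)).toNat := by
            have := hq.pos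
            omega
          rw [e1]
          exact hq
        rw [this]
      have n1 := tc_cn2_num (fun i : ι₁ => θ (Sum.inl i) x)
        (fun i : ι₁ => (F.L n (em (Sum.inl i)) (x : ℤ)).natAbs.Prime) hlogpos hτ10.le
        (fun i => (hwmX x hxX).1 _) (fun i => hpr _) (by rw [← hK1]; exact hx1)
      have n2 := tc_cn2_num (fun j : ι₂ => θ (Sum.inr j) x)
        (fun j : ι₂ => (F.L n (em (Sum.inr j)) (x : ℤ)).natAbs.Prime) hlogpos hτ20.le
        (fun j => (hwmX x hxX).1 _) (fun j => hpr _) (by rw [← hK2]; exact hx2)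
      rw [Finset.mem_filter]
      refine ⟨hxI, hxR, ⟨le_trans ?_ n1.1, n1.2⟩, ⟨le_trans ?_ n2.1, n2.2⟩⟩
      · linarith
      · linarith
    exact_mod_cast hsub

end Pool.Agent.TC.F
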