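import Pool.Agent.Lib.MP_0da313_nt.TC.M
import Pool.Agent.Lib.MP_89da58_nt.Bv

set_option autoImplicit false

/-!
[TC T2]: the lower bound for the pair sum, from the model sum and the expansion of the error.
-/

namespace Pool.Agent.TC.M

open Finset Filter Polynomial
open Pool.Agent.MP89da58 (bil pw nn supp part kapD tri)
open Pool.Agent.MT (PJf ZI Dl)
open Pool.Agent.BVall (om rhoW PK lev RepB Dens)
open Pool.Agent.Lib.MP_0da313_nt (W)
open Pool.Agent.CH (thP)
open Pool.Agent.CM (wd sA sT er Fam z0 mu CP BVc)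
open Pool.Agent.CM.F (Pre)

private theorem tc_T2_thP_nonneg (m : ℕ) : 0 ≤ thP m := by
  unfold thP
  split_ifs
  · exact Real.log_natCast_nonneg m
  · exact le_refl _

private theorem tc_T2_wd_nonneg (lam X : ℝ) (m : ℕ) : 0 ≤ wd lam X m := by
  unfold wd tri
  exact le_max_left _ _

private theorem tc_T2_wd_le (lam X : ℝ) (m : ℕ) : wd lam X m ≤ 1 := by
  unfold wd tri
  exact max_le zero_le_one (by linarith [abs_nonneg (lam * Real.log (m / X))])

private theorem tc_T2_sq_nonneg {ι : Type} [Fintype ι] [DecidableEq ι] {D : ℕ} (F : Fam ι D)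
    (N : ℕ) (l : Option ι) (m : ℕ) : 0 ≤ sq F N l m :=
  mul_nonneg (tc_T2_thP_nonneg m) (tc_T2_wd_nonneg _ _ m)

private theorem tc_T2_sq_le {ι : Type} [Fintype ι] [DecidableEq ι] {D : ℕ} (F : Fam ι D)
    (N : ℕ) (l : Option ι) (m : ℕ) : sq F N l m ≤ thP m := by
  unfold sq
  calc thP m * wd (la4 F l) (F.t l * N) m ≤ thP m * 1 :=
        mul_le_mul_of_nonneg_left (tc_T2_wd_le _ _ m) (tc_T2_thP_nonneg m)
    _ = thP m := mul_one _

theorem p_T2 : S_T2 := by
  classical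
  intro hlob hpw hmd hex
  intro ι κ _ _ _ _ _ D F e he k B0 B B1 A hk hD hB0 hB1
  filter_upwards [hlob ι D F k hk, hpw ι D F k B0 B1 hk hD hB0 hB1,
    hmd ι κ D F e he k B0 B B1 A hk hD hB0 hB1, hex ι κ D F e he k B0 B B1 hk hD hB0 hB1]
    with N h1 h2 h3 h4
  intro n hn n' P hP Fp Fm hpre i j hij g hg
  have h1' := h1 n hn
  obtain ⟨-, h2'⟩ := h2 n hn n' P hP
  have h2'' := h2' Fp Fm hpre i j
  obtain ⟨-, h3'⟩ := h3 n hn n' P hP Fp Fm hpre i j hij g hg
  have h4' := h4 n hn n' P hP Fp Fm hpre i j hij g hg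
  -- pointwise
  have key : ∀ x ∈ Ioo 0 n, sq F N j (F.L n j (x : ℤ)).toNat * (thP (F.L n i (x : ℤ)).toNat *
      (Fm (r2 F n (wN B1 N) (z0 D n') i j (x : ℤ)) * ZI (DE F e n P) g (x : ℤ) ^ 2)) ≤
      if F.Rg n (z0 D n') (x : ℤ) ∧ Near F n (x : ℤ) then
        thP (F.L n i (x : ℤ)).toNat * thP (F.L n j (x : ℤ)).toNat *
          ZI (DE F e n P) g (x : ℤ) ^ 2 else 0 := by
    intro x _
    have hR : 0 ≤ if F.Rg n (z0 D n') (x : ℤ) ∧ Near F n (x : ℤ) then
        thP (F.L n i (x : ℤ)).toNat * thP (F.L n j (x : ℤ)).toNat *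
          ZI (DE F e n P) g (x : ℤ) ^ 2 else 0 := by
      split_ifs
      · exact mul_nonneg (mul_nonneg (tc_T2_thP_nonneg _) (tc_T2_thP_nonneg _)) (sq_nonneg _)
      · exact le_refl _
    by_cases hs : sq F N j (F.L n j (x : ℤ)).toNat = 0
    · rw [hs, zero_mul]
      exact hR
    · have hsn := hs
      unfold sq at hsn
      have hth : thP (F.L n j (x : ℤ)).toNat ≠ 0 := left_ne_zero_of_mul hsn
      have hwd : wd (la4 F j) (F.t j * N) (F.L n j (x : ℤ)).toNat ≠ 0 := right_ne_zero_of_mul hsn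
      have hpos : 0 < F.L n j (x : ℤ) := by
        by_contra hc
        apply hth
        have h0 : (F.L n j (x : ℤ)).toNat = 0 := by omega
        rw [h0]
        unfold thP
        rw [if_neg (by norm_num)]
      have hnear : Near F n (x : ℤ) := (h1' (x : ℤ) j hpos hwd).1
      have h5 := (h2'' (x : ℤ) hs).2
      by_cases hRg : F.Rg n (z0 D n') (x : ℤ)
      · rw [if_pos ⟨hRg, hnear⟩]
        rw [if_pos hRg] at h5
        calc sq F N j (F.L n j (x : ℤ)).toNat * (thP (F.L n i (x : ℤ)).toNat *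
            (Fm (r2 F n (wN B1 N) (z0 D n') i j (x : ℤ)) * ZI (DE F e n P) g (x : ℤ) ^ 2))
            = sq F N j (F.L n j (x : ℤ)).toNat * ((thP (F.L n i (x : ℤ)).toNat *
              Fm (r2 F n (wN B1 N) (z0 D n') i j (x : ℤ))) *
                ZI (DE F e n P) g (x : ℤ) ^ 2) := by ring
          _ ≤ sq F N j (F.L n j (x : ℤ)).toNat * (thP (F.L n i (x : ℤ)).toNat *
                ZI (DE F e n P) g (x : ℤ) ^ 2) :=
              mul_le_mul_of_nonneg_left (mul_le_mul_of_nonneg_right h5 (sq_nonneg _))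
                (tc_T2_sq_nonneg F N j _)
          _ ≤ thP (F.L n j (x : ℤ)).toNat * (thP (F.L n i (x : ℤ)).toNat *
                ZI (DE F e n P) g (x : ℤ) ^ 2) :=
              mul_le_mul_of_nonneg_right (tc_T2_sq_le F N j _)
                (mul_nonneg (tc_T2_thP_nonneg _) (sq_nonneg _))
          _ = _ := by ring
      · rw [if_neg (fun h => hRg h.1)]
        rw [if_neg hRg] at h5
        have h6 : sq F N j (F.L n j (x : ℤ)).toNat * ((thP (F.L n i (x : ℤ)).toNat *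
              Fm (r2 F n (wN B1 N) (z0 D n') i j (x : ℤ))) *
                ZI (DE F e n P) g (x : ℤ) ^ 2) ≤ 0 :=
          mul_nonpos_of_nonneg_of_nonpos (tc_T2_sq_nonneg F N j _)
            (mul_nonpos_of_nonpos_of_nonneg h5 (sq_nonneg _))
        calc sq F N j (F.L n j (x : ℤ)).toNat * (thP (F.L n i (x : ℤ)).toNat *
            (Fm (r2 F n (wN B1 N) (z0 D n') i j (x : ℤ)) * ZI (DE F e n P) g (x : ℤ) ^ 2))
            = sq F N j (F.L n j (x : ℤ)).toNat * ((thP (F.L n i (x : ℤ)).toNat *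
              Fm (r2 F n (wN B1 N) (z0 D n') i j (x : ℤ))) *
                ZI (DE F e n P) g (x : ℤ) ^ 2) := by ring
          _ ≤ 0 := h6
  have hsum := Finset.sum_le_sum key
  rw [← Finset.sum_filter] at hsum
  -- the sum with thP is the sum with Lw plus the sum with the difference
  have hsplit : ∑ x ∈ Ioo 0 n, sq F N j (F.L n j (x : ℤ)).toNat * (thP (F.L n i (x : ℤ)).toNat *
      (Fm (r2 F n (wN B1 N) (z0 D n') i j (x : ℤ)) * ZI (DE F e n P) g (x : ℤ) ^ 2)) =
      ∑ x ∈ Ioo 0 n, sq F N j (F.L n j (x : ℤ)).toNat * (Lw (wN B1 N) (F.L n i (x : ℤ)).toNat *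
        (Fm (r2 F n (wN B1 N) (z0 D n') i j (x : ℤ)) * ZI (DE F e n P) g (x : ℤ) ^ 2)) +
      ∑ x ∈ Ioo 0 n, sq F N j (F.L n j (x : ℤ)).toNat *
        ((thP (F.L n i (x : ℤ)).toNat - Lw (wN B1 N) (F.L n i (x : ℤ)).toNat) *
        (Fm (r2 F n (wN B1 N) (z0 D n') i j (x : ℤ)) * ZI (DE F e n P) g (x : ℤ) ^ 2)) := by
    rw [← Finset.sum_add_distrib]
    refine Finset.sum_congr rfl fun x _ => ?_
    ring
  rw [hsplit] at hsum
  have h7 := (abs_le.1 h4').1
  refine le_trans ?_ hsum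
  linarith

end Pool.Agent.TC.M
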