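import Pool.Agent.Lib.MP_0da313_nt.TC.M
import Pool.Agent.Lib.MP_0da313_nt.CM.P.S0

set_option autoImplicit false

/-!
Project TC: the upper bound for the sum with one prime.
-/

namespace Pool.Agent.TC.M

open Finset Filter Polynomial
open Pool.Agent.MP89da58 (bil pw nn supp part kapD tri tri_nonneg)
open Pool.Agent.MT (PJf ZI Dl)
open Pool.Agent.BVall (om rhoW PK lev RepB Dens mem_PK)
open Pool.Agent.Lib.MP_0da313_nt (W)
open Pool.Agent.CH (thP)
open Pool.Agent.CM (wd sA sT er Fam z0 mu CP BVc)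
open Pool.Agent.CM.F (Pre cm_S0_qf cm_S0_kap_pos)
open Pool.Agent.TC.W (qf)

private theorem tc_U1_thP (k : ℕ) : 0 ≤ thP k := by
  unfold thP
  split_ifs
  · exact Real.log_natCast_nonneg k
  · exact le_rfl

private theorem tc_U1_thP0 : thP 0 = 0 := by
  simp [thP]

private theorem tc_U1_wd (lam X : ℝ) (k : ℕ) : 0 ≤ wd lam X k := tri_nonneg _

/-- `z0` is large. -/
private theorem tc_U1_small {ι : Type} [Fintype ι] [DecidableEq ι] {D : ℕ} (F : Fam ι D)
    (B0 T : ℕ) : ∀ᶠ n : ℕ in atTop, ∀ (n' : ℕ) (P : Finset ℕ), Par2 F B0 n n' P →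
    T ≤ z0 D n' ∧ (Real.log n) ^ 2 ≤ (z0 D n' : ℝ) := by
  have h0 : ∀ᶠ n : ℕ in atTop, (Real.log n) ^ (2 * B0) < n := by
    have h1 := (Real.isLittleO_pow_log_id_atTop (n := 2 * B0)).bound
      (show (0 : ℝ) < 1 / 2 by norm_num)
    have h2 := tendsto_natCast_atTop_atTop (R := ℝ) |>.eventually h1
    filter_upwards [h2, eventually_ge_atTop 1] with n hn h1n
    have h3 : (1 : ℝ) ≤ n := by exact_mod_cast h1n
    simp only [id, Real.norm_eq_abs] at hn
    have h4 := (le_abs_self _).trans hn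
    rw [abs_of_pos (by linarith : (0 : ℝ) < n)] at h4
    linarith
  filter_upwards [eventually_ge_atTop (T ^ B0 + 4), h0] with n hn h0 n' P hp
  refine ⟨?_, ?_⟩
  · by_contra hcon
    push Not at hcon
    have h2 := Nat.pow_le_pow_left hcon.le B0
    have h3 := hp.hzB
    omega
  · by_contra hcon
    push Not at hcon
    have h2 : ((z0 D n' : ℕ) : ℝ) ^ B0 ≤ ((Real.log n) ^ 2) ^ B0 :=
      pow_le_pow_left₀ (Nat.cast_nonneg _) hcon.le B0
    have h3 : (n : ℝ) ≤ (z0 D n' : ℝ) ^ B0 := by exact_mod_cast hp.hzB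
    rw [← pow_mul] at h2
    linarith

/-- Pointwise bounds for the upper sieve. -/
private theorem tc_U1_pt {ι : Type} [Fintype ι] [DecidableEq ι] {D : ℕ} {F : Fam ι D} {n n' : ℕ}
    {Fp Fm : (ℕ → ℝ) → ℝ} (hpre : Pre D n' Fp Fm) (l : Option ι) (x : ℤ) :
    0 ≤ Fp (r2 F n (z0 D n') (z0 D n') l l x) ∧
      (F.Rg n (z0 D n') x → 1 ≤ Fp (r2 F n (z0 D n') (z0 D n') l l x)) := by
  classical
  have h01 : ∀ p ∈ PK (2 * D) n', 0 ≤ r2 F n (z0 D n') (z0 D n') l l x p ∧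
      r2 F n (z0 D n') (z0 D n') l l x p ≤ 1 := by
    intro p _
    unfold r2
    split_ifs <;> norm_num
  have h1 := (hpre.pt _ h01).2
  refine ⟨le_trans ?_ h1, fun hr => le_trans ?_ h1⟩
  · unfold W
    exact Finset.prod_nonneg fun p hp => by linarith [(h01 p hp).2]
  · unfold W
    rw [Finset.prod_eq_one]
    intro p hp
    have h2 : r2 F n (z0 D n') (z0 D n') l l x p = 0 := by
      unfold r2
      rw [if_neg]
      rintro ⟨h2, h3, -⟩
      exact hr p (mem_PK.1 hp).1 h2 h3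
    rw [h2]
    norm_num

/-- Consequences of the location of the windows. -/
private theorem tc_U1_loc (hloc : R_loc) {ι : Type} [Fintype ι] [DecidableEq ι] {D : ℕ}
    (F : Fam ι D) : (∀ l, 0 < F.t l ∧ 1000 ≤ la5 F l) ∧ ∃ C : ℕ, 1 ≤ C ∧ ∀ᶠ n : ℕ in atTop,
    (∀ l, (n : ℝ) ≤ C * F.X n l ∧ F.X n l ≤ C * n) ∧
    (∀ l (x : ℤ), thP (F.L n l x).toNat * wd (la5 F l) (F.X n l) (F.L n l x).toNat ≠ 0 →
      0 < x ∧ x < n ∧ (F.L n l x).toNat ≤ ⌊3 * F.X n l⌋₊) ∧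
    (∀ l (x : ℤ), Near F n x → thP (F.L n l x).toNat ≤
      4 * (thP (F.L n l x).toNat * wd (la5 F l) (F.X n l) (F.L n l x).toNat)) ∧
    (∀ l, F.X n l / la5 F l ≤ 1001 / 1000 * (F.hw * n * |(F.u l : ℝ)|)) := by
  obtain ⟨h1, C, hC, h2⟩ := hloc ι D F
  refine ⟨fun l => ⟨(h1 l).1, (h1 l).2.1⟩, C, hC, ?_⟩
  have h3 : ∀ᶠ n : ℕ in atTop, ∀ l, |(F.c l : ℝ)| * 1000 ≤ F.t l * n := by
    rw [eventually_all]
    intro l
    have h4 : Tendsto (fun n : ℕ => F.t l * (n : ℝ)) atTop atTop :=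
      Tendsto.const_mul_atTop (h1 l).1 tendsto_natCast_atTop_atTop
    exact h4.eventually_ge_atTop _
  filter_upwards [h2, h3] with n hn hc
  obtain ⟨e1, e2, e3, e4⟩ := hn
  refine ⟨e1, ?_, ?_, ?_⟩
  · intro l x hx
    have k1 : thP (F.L n l x).toNat ≠ 0 := left_ne_zero_of_mul hx
    have k2 : wd (la5 F l) (F.X n l) (F.L n l x).toNat ≠ 0 := right_ne_zero_of_mul hx
    have k3 : (F.L n l x).toNat ≠ 0 := by
      intro h
      apply k1
      rw [h, tc_U1_thP0]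
    have k4 : 0 < F.L n l x := by omega
    obtain ⟨k5, k6⟩ := e4 x l k4 k2
    obtain ⟨k7, k8, -⟩ := e2 x k5
    refine ⟨k7, k8, Nat.le_floor ?_⟩
    have k9 : (((F.L n l x).toNat : ℕ) : ℝ) = (F.L n l x : ℝ) := by
      have : (((F.L n l x).toNat : ℕ) : ℤ) = F.L n l x := Int.toNat_of_nonneg k4.le
      exact_mod_cast congrArg (fun t : ℤ => (t : ℝ)) this
    rw [k9]
    exact k6
  · intro l x hx
    have k1 := e3 x l hx
    nlinarith [tc_U1_thP (F.L n l x).toNat]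
  · intro l
    have ht := (h1 l).1
    have hu : 0 < |(F.u l : ℝ)| := abs_pos.2 (by exact_mod_cast F.hu l)
    have hh := F.hhw
    have k1 : F.X n l / la5 F l = F.hw * |(F.u l : ℝ)| * (F.X n l / F.t l) := by
      unfold la5
      field_simp
    have k2 : F.X n l / F.t l ≤ 1001 / 1000 * n := by
      rw [div_le_iff₀ ht]
      unfold Fam.X
      have k3 := hc l
      have k4 := le_abs_self (F.c l : ℝ)
      nlinarith
    rw [k1]
    calc F.hw * |(F.u l : ℝ)| * (F.X n l / F.t l)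
        ≤ F.hw * |(F.u l : ℝ)| * (1001 / 1000 * n) :=
          mul_le_mul_of_nonneg_left k2 (by positivity)
      _ = _ := by ring

/-- The masses of the sequences. -/
private theorem tc_U1_mass (hloc : R_loc) (hmsw : R_msw) {ι : Type} [Fintype ι] [DecidableEq ι]
    {D : ℕ} (F : Fam ι D) : ∀ᶠ n : ℕ in atTop, ∀ l,
    0 ≤ sT (fun k => thP k * wd (la5 F l) (F.X n l) k) ⌊3 * F.X n l⌋₊ ∧
    sT (fun k => thP k * wd (la5 F l) (F.X n l) k) ⌊3 * F.X n l⌋₊ ≤
      1003 / 1000 * (F.hw * n * |(F.u l : ℝ)|) ∧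
    sT (fun k => thP k * wd (la5 F l) (F.X n l) k) ⌊3 * F.X n l⌋₊ ≤ n * Real.log n := by
  rw [eventually_all]
  intro l
  obtain ⟨h1, C, hC, h2⟩ := tc_U1_loc hloc F
  have hla := (h1 l).2
  have hla0 : 0 < la5 F l := by linarith
  have hlog : ∀ᶠ n : ℕ in atTop, 1003 / 1000 * (F.hw * |(F.u l : ℝ)|) ≤ Real.log n :=
    (Real.tendsto_log_atTop.comp tendsto_natCast_atTop_atTop).eventually_ge_atTop _
  filter_upwards [h2, hmsw (la5 F l) C (by linarith) hC, hlog] with n hn hm hlog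
  obtain ⟨e1, -, -, e4⟩ := hn
  obtain ⟨m1, m2⟩ := hm (F.X n l) (e1 l).1 (e1 l).2
  have hn0 : (0 : ℝ) ≤ n := Nat.cast_nonneg _
  have hX : 0 ≤ F.X n l := by
    have hC0 : (0 : ℝ) < C := by exact_mod_cast hC
    by_contra hcon
    push Not at hcon
    nlinarith [(e1 l).1]
  have hXl : 0 ≤ F.X n l / la5 F l := div_nonneg hX hla0.le
  have hk : 1 / la5 F l ^ 2 ≤ 1 / 1000000 := by
    refine one_div_le_one_div_of_le (by norm_num) ?_
    nlinarith
  have hk0 : 0 ≤ 1 / la5 F l ^ 2 := by positivity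
  have hh : 0 ≤ F.hw * n * |(F.u l : ℝ)| := by
    have := F.hhw
    positivity
  have hb : sT (fun k => thP k * wd (la5 F l) (F.X n l) k) ⌊3 * F.X n l⌋₊ ≤
      1003 / 1000 * (F.hw * n * |(F.u l : ℝ)|) := by
    refine m2.trans ?_
    calc 1001 / 1000 * (1 + 1 / la5 F l ^ 2) * (F.X n l / la5 F l)
        ≤ 1001 / 1000 * (1 + 1 / 1000000) * (F.X n l / la5 F l) :=
          mul_le_mul_of_nonneg_right (by linarith) hXl
      _ ≤ 1001 / 1000 * (1 + 1 / 1000000) * (1001 / 1000 * (F.hw * n * |(F.u l : ℝ)|)) :=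
          mul_le_mul_of_nonneg_left (e4 l) (by norm_num)
      _ ≤ _ := by nlinarith
  refine ⟨by linarith, hb, hb.trans ?_⟩
  calc 1003 / 1000 * (F.hw * n * |(F.u l : ℝ)|)
      = n * (1003 / 1000 * (F.hw * |(F.u l : ℝ)|)) := by ring
    _ ≤ n * Real.log n := mul_le_mul_of_nonneg_left hlog hn0

theorem p_U1 : S_U1 := by
  classical
  intro hloc hbvw hmsw hdn2 hap2 hcnv ι κ _ _ _ _ _ D F e he B0 B A hD hB0
  obtain ⟨h1, C, hC, h2⟩ := tc_U1_loc hloc F
  obtain ⟨b, A', hap⟩ := hap2 ι κ D F e he B0 B (A + 1) hD hB0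
  have hbv : ∀ᶠ n : ℕ in atTop, ∀ l, ∀ X : ℝ, n ≤ C * X → X ≤ C * n → ∀ c : ℕ → ℕ,
      (∀ q, (c q).Coprime ((F.u l).natAbs * q)) →
      ∑ q ∈ (Icc 1 ⌊(n : ℝ) ^ (1 / 1000 : ℝ)⌋₊).filter Squarefree,
        (b : ℝ) ^ q.primeFactors.card *
        er (fun k => thP k * wd (la5 F l) X k) ⌊3 * X⌋₊ ((F.u l).natAbs * q) (c q) ≤
          n / (Real.log n) ^ A' := by
    rw [eventually_all]
    intro l
    refine hbvw (la5 F l) (F.u l).natAbs C b A' (by linarith [(h1 l).2]) ?_ hC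
    exact Int.natAbs_pos.2 (F.hu l)
  have hlog : ∀ᶠ n : ℕ in atTop, 4 ≤ Real.log n :=
    (Real.tendsto_log_atTop.comp tendsto_natCast_atTop_atTop).eventually_ge_atTop _
  filter_upwards [h2, hap, hbv, hlog, tc_U1_mass hloc hmsw F, hdn2 ι D F hD,
    tc_U1_small F B0 (Fintype.card κ)] with n hn hap hbv hlog hma hdn hsm n' P hp Fp Fm hpre l g hg
  obtain ⟨e1, e2, e3, -⟩ := hn
  obtain ⟨s1, s2⟩ := hsm n' P hp
  obtain ⟨m1, m2, m3⟩ := hma l
  obtain ⟨-, -, d3, -, d5, d6⟩ := hdn n' (z0 D n') s2 le_rfl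
  set z := z0 D n' with hz
  set a : ℕ → ℝ := fun k => thP k * wd (la5 F l) (F.X n l) k with ha
  have ha0 : ∀ k, 0 ≤ a k := fun k => mul_nonneg (tc_U1_thP k) (tc_U1_wd _ _ _)
  have hq : 0 ≤ qf g := by
    refine cm_S0_qf g fun p hp' => ?_
    have := (hp.hP p hp').2.1
    omega
  have hkap := cm_S0_kap_pos z
  have hu : 0 < |(F.u l : ℝ)| := abs_pos.2 (by exact_mod_cast F.hu l)
  -- the expansion
  have key := hap n' P hp l l z s2 le_rfl Fp hpre.rp a ⌊3 * F.X n l⌋₊ m1 m3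
    (fun c hc => hbv l (F.X n l) (e1 l).1 (e1 l).2 c hc) g hg
  have hc := hcnv (F.u l) (F.v n l) n ⌊3 * F.X n l⌋₊ a
    (fun x => Fp (r2 F n z z l l x) * ZI (DE F e n P) g x ^ 2) (F.hu l)
    (by simp [ha, tc_U1_thP0]) (e2 l)
  simp only [mul_assoc] at key hc
  rw [hc] at key
  have key2 := (abs_le.1 key).2
  -- pointwise
  have hpt : ∑ x ∈ (Ioo 0 n).filter (fun x : ℕ => F.Rg n z x ∧ Near F n x),
      thP (F.L n l x).toNat * ZI (DE F e n P) g x ^ 2 ≤
      4 * ∑ x ∈ Ioo 0 n, a (F.u l * (x : ℤ) + F.v n l).toNat *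
        (Fp (r2 F n z z l l x) * ZI (DE F e n P) g x ^ 2) := by
    rw [Finset.mul_sum]
    refine (Finset.sum_le_sum (g := fun x : ℕ => 4 * (a (F.u l * (x : ℤ) + F.v n l).toNat *
        (Fp (r2 F n z z l l x) * ZI (DE F e n P) g x ^ 2))) ?_).trans
      (Finset.sum_le_sum_of_subset_of_nonneg (Finset.filter_subset _ _) ?_)
    · intro x hx
      obtain ⟨-, hr, hnear⟩ := Finset.mem_filter.1 hx
      have k1 := (tc_U1_pt (F := F) (n := n) hpre l (x : ℤ)).2 hr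
      have k2 : thP (F.L n l x).toNat ≤ 4 * a (F.u l * (x : ℤ) + F.v n l).toNat := e3 l x hnear
      have k3 : 0 ≤ ZI (DE F e n P) g x ^ 2 := sq_nonneg _
      have k4 := ha0 (F.u l * (x : ℤ) + F.v n l).toNat
      calc thP (F.L n l x).toNat * ZI (DE F e n P) g x ^ 2
          ≤ 4 * a (F.u l * (x : ℤ) + F.v n l).toNat * ZI (DE F e n P) g x ^ 2 :=
            mul_le_mul_of_nonneg_right k2 k3
        _ = 4 * (a (F.u l * (x : ℤ) + F.v n l).toNat * (1 * ZI (DE F e n P) g x ^ 2)) := by ring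
        _ ≤ _ := by
          refine mul_le_mul_of_nonneg_left ?_ (by norm_num)
          exact mul_le_mul_of_nonneg_left (mul_le_mul_of_nonneg_right k1 k3) k4
    · intro x _ _
      have k1 := (tc_U1_pt (F := F) (n := n) hpre l (x : ℤ)).1
      have k4 := ha0 (F.u l * (x : ℤ) + F.v n l).toNat
      have k3 : 0 ≤ ZI (DE F e n P) g x ^ 2 := sq_nonneg _
      exact mul_nonneg (by norm_num) (mul_nonneg k4 (mul_nonneg k1 k3))
  -- the main term
  have hphi : (0 : ℝ) ≤ (Nat.totient (F.u l).natAbs : ℝ) := Nat.cast_nonneg _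
  have hV : 0 ≤ F.V n n' / kapD z := div_nonneg d6 hkap.le
  have hW : 0 ≤ W (d2 F n z z l l) (PK (2 * D) n') / (Nat.totient (F.u l).natAbs : ℝ) := by
    have k1 := d5 l
    by_contra hcon
    push Not at hcon
    nlinarith
  have hFp : Fp (d2 F n z z l l) ≤ (1 + 1 / 1000) * W (d2 F n z z l l) (PK (2 * D) n') :=
    (hpre.mt _ (d3 l l)).1
  have hh : 0 ≤ F.hw * n := mul_nonneg F.hhw.le (Nat.cast_nonneg _)
  have hmain : sT a ⌊3 * F.X n l⌋₊ / (Nat.totient (F.u l).natAbs : ℝ) *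
      (Fp (d2 F n z z l l) * qf g) ≤ 101 / 100 * (F.hw * n * (F.V n n' / kapD z)) * qf g := by
    rw [← mul_assoc]
    refine mul_le_mul_of_nonneg_right ?_ hq
    calc sT a ⌊3 * F.X n l⌋₊ / (Nat.totient (F.u l).natAbs : ℝ) * Fp (d2 F n z z l l)
        ≤ sT a ⌊3 * F.X n l⌋₊ / (Nat.totient (F.u l).natAbs : ℝ) *
          ((1 + 1 / 1000) * W (d2 F n z z l l) (PK (2 * D) n')) :=
          mul_le_mul_of_nonneg_left hFp (div_nonneg m1 hphi)
      _ = (1 + 1 / 1000) * sT a ⌊3 * F.X n l⌋₊ *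
          (W (d2 F n z z l l) (PK (2 * D) n') / (Nat.totient (F.u l).natAbs : ℝ)) := by ring
      _ ≤ (1 + 1 / 1000) * (1003 / 1000 * (F.hw * n * |(F.u l : ℝ)|)) *
          (W (d2 F n z z l l) (PK (2 * D) n') / (Nat.totient (F.u l).natAbs : ℝ)) := by
          refine mul_le_mul_of_nonneg_right ?_ hW
          exact mul_le_mul_of_nonneg_left m2 (by norm_num)
      _ = (1 + 1 / 1000) * (1003 / 1000) * (F.hw * n * (|(F.u l : ℝ)| *
          (W (d2 F n z z l l) (PK (2 * D) n') / (Nat.totient (F.u l).natAbs : ℝ)))) := by ring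
      _ = (1 + 1 / 1000) * (1003 / 1000) * (F.hw * n * (F.V n n' / kapD z)) := by rw [d5 l]
      _ ≤ 101 / 100 * (F.hw * n * (F.V n n' / kapD z)) :=
          mul_le_mul_of_nonneg_right (by norm_num) (mul_nonneg hh hV)
  have herr : 4 * (n / (Real.log n) ^ (A + 1)) ≤ n / (Real.log n) ^ A := by
    have hl0 : 0 < Real.log n := by linarith
    have k1 : (0 : ℝ) ≤ n / (Real.log n) ^ A := by positivity
    have k2 : 4 * (n / (Real.log n) ^ (A + 1)) = n / (Real.log n) ^ A * (4 / Real.log n) := by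
      field_simp
      try ring
    rw [k2]
    refine mul_le_of_le_one_right k1 ?_
    rw [div_le_one hl0]
    exact hlog
  have hfin : 0 ≤ F.hw * n * (F.V n n' / kapD z) * qf g := mul_nonneg (mul_nonneg hh hV) hq
  linarith

end Pool.Agent.TC.M
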