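import Pool.Agent.Lib.MP_0da313_nt.TC.M
import Pool.Agent.Lib.MP_0da313_nt.CM.P.app

set_option autoImplicit false
set_option linter.unusedSectionVars false

/-!
Project TC, piece ap2: application of the general expansion to a pair of forms.
-/

namespace Pool.Agent.TC.M

open Finset Filter Polynomial
open Pool.Agent.MP89da58 (bil pw nn supp part kapD tri)
open Pool.Agent.MT (PJf LocD ZI Dl Dl_loc Dl_cop)
open Pool.Agent.BVall (om rhoW PK lev RepB Dens mem_PK)
open Pool.Agent.Lib.MP_0da313_nt (W)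
open Pool.Agent.CH (thP)
open Pool.Agent.CH.S (RepC)
open Pool.Agent.CM (wd sA sT er Fam z0 mu CP BVc)
open Pool.Agent.CM.F (Pre)
open Pool.Agent.TC.W (qf)

open Classical in
theorem p_ap2 : S_ap2 := by
  intro hgen hpr hdn2 ι κ _ _ _ _ _ D F e he B0 B A hD hB0
  obtain ⟨C1, hC1, hpr1⟩ := hpr (2 * D)
  obtain ⟨C2, hC2, hpr2⟩ := hpr (3 * Fintype.card κ)
  refine ⟨6 * Fintype.card κ * D, A + 1, ?_⟩
  filter_upwards [hdn2 ι D F hD, eventually_ge_atTop F.N0, eventually_ge_atTop 3,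
    CM.F.tail_ev B0 A (2 * D) (3 * Fintype.card κ) B C1 C2 hB0 hC1 hC2,
    (Real.tendsto_log_atTop.comp tendsto_natCast_atTop_atTop).eventually_ge_atTop
      (6 * (B : ℝ) ^ 2)] with n hdn hN0 hn3 htail hfirst
  intro n' P hpar i j w hw1 hw2 Ff hRep a N hsT0 hsT1 hbv g hg
  simp only [Function.comp] at hfirst
  obtain ⟨d1, d2', d3, -, -, -⟩ := hdn n' w hw1 hw2
  set z := z0 D n' with hz
  have hn3' : (3 : ℝ) ≤ n := by exact_mod_cast hn3
  have hn0 : (0 : ℝ) < n := by linarith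
  have hn1 : (1 : ℝ) ≤ n := by linarith
  have hL1 : 1 ≤ Real.log n := by
    rw [Real.le_log_iff_exp_le hn0]
    have := Real.exp_one_lt_d9
    linarith
  have hz2 : 2 ≤ z := by
    rw [hz]
    unfold z0
    calc 2 = 2 ^ 1 := by norm_num
      _ ≤ 2 ^ (2 ^ (2 * D + n')) := Nat.pow_le_pow_right (by norm_num) Nat.one_le_two_pow
  have hzR : (0 : ℝ) < z := by exact_mod_cast (by omega : 0 < z)
  have hpow1 : (n : ℝ) ^ (1 / 10000 : ℝ) ≤ n := by
    calc (n : ℝ) ^ (1 / 10000 : ℝ) ≤ (n : ℝ) ^ (1 : ℝ) :=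
          Real.rpow_le_rpow_of_exponent_le hn1 (by norm_num)
      _ = n := Real.rpow_one _
  have hzn : z ≤ n := by
    have h1 : (z : ℝ) ≤ lev (2 * D) n' := by exact_mod_cast CM.F.z0_le_lev D n'
    have h2 : (1 : ℝ) ≤ z := by exact_mod_cast (by omega : 1 ≤ z)
    have h3 : (lev (2 * D) n' : ℝ) ≤ (lev (2 * D) n' : ℝ) ^ 3 := by
      have h4 : (1 : ℝ) ≤ lev (2 * D) n' := h2.trans h1
      nlinarith [mul_self_nonneg ((lev (2 * D) n' : ℝ)), mul_self_nonneg ((lev (2 * D) n' : ℝ) - 1)]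
    have h5 : (z : ℝ) ≤ n := h1.trans (h3.trans (hpar.hlev.trans hpow1))
    exact_mod_cast h5
  set P1 := PK (2 * D) n' with hP1
  have hPKm : ∀ p, p ∈ P1 ↔ p.Prime ∧ p ≤ z := fun p => mem_PK
  have hP1p : ∀ p ∈ P1, p.Prime := fun p hp => ((hPKm p).1 hp).1
  have hP1z : ∀ p ∈ P1, p ≤ z := fun p hp => ((hPKm p).1 hp).2
  have hP1n : ∀ p ∈ P1, p ≤ n := fun p hp => (hP1z p hp).trans hzn
  have hPp : ∀ p ∈ P, p.Prime := fun p hp => (hpar.hP p hp).1
  have hPn : ∀ p ∈ P, p ≤ n := by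
    intro p hp
    have h1 : (p : ℝ) ≤ n := (hpar.hP p hp).2.2.trans hpow1
    exact_mod_cast h1
  have hPu : ∀ (l : Option ι) (p : ℕ), p.Prime → z < p → ¬ p ∣ (F.u l).natAbs :=
    fun l p hp hzp => d1 l p hp (lt_of_le_of_lt hw2 hzp)
  -- the local conditions
  have hdvdL : ∀ (p : ℕ) (m : Option ι) (x x' : ℤ), (p : ℤ) ∣ x - x' →
      ((p : ℤ) ∣ F.L n m x ↔ (p : ℤ) ∣ F.L n m x') := by
    intro p m x x' h
    unfold Fam.L
    have e : (F.u m * x + F.v n m) - (F.u m * x' + F.v n m) = F.u m * (x - x') := by ring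
    have h1 : (p : ℤ) ∣ (F.u m * x + F.v n m) - (F.u m * x' + F.v n m) := by
      rw [e]; exact h.mul_left _
    exact (dvd_sub_comm.1 h1 |> fun h2 => by
      constructor
      · intro h3
        have := dvd_add h2 h3
        rwa [sub_add_cancel] at this
      · intro h3
        have := dvd_add h1 h3
        rwa [sub_add_cancel] at this)
  have hdet2 : ∀ (p : ℕ) (m m' : Option ι) (x : ℤ), (p : ℤ) ∣ F.L n m x → (p : ℤ) ∣ F.L n m' x →
      (p : ℤ) ∣ F.u m * F.v n m' - F.u m' * F.v n m := by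
    intro p m m' x h1 h2
    unfold Fam.L at h1 h2
    have e : F.u m * F.v n m' - F.u m' * F.v n m =
        F.u m * (F.u m' * x + F.v n m') - F.u m' * (F.u m * x + F.v n m) := by ring
    rw [e]
    exact dvd_sub (h2.mul_left _) (h1.mul_left _)
  have hGH : CM.G.GH P P1 (DE F e n P) (Q2 F n w z i j) (fun k => e k ≠ i ∧ e k ≠ j) (F.u j)
      (F.v n j) D z := by
    refine ⟨F.hu j, F.huv n hN0 j, hz2, fun p hp => ⟨(hpar.hP p hp).1, (hpar.hP p hp).2.1⟩,
      fun p hp => hPu j p (hpar.hP p hp).1 (hpar.hP p hp).2.1, hP1p, ?_, ?_, ?_, ?_, ?_, ?_, hD,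
      fun p hp => d2' i j p hp⟩
    · exact Dl_loc hPp (fun p hp k => hPu (e k) p (hpar.hP p hp).1 (hpar.hP p hp).2.1)
        (fun k => F.huv n hN0 (e k)) _
    · intro q k k' x hkk
      exact Dl_cop (fun p hp k k' hkk => hpar.hdet p hp (e k) (e k')
        (fun h => hkk (he h))) q k k' x hkk
    · intro q k x hk hd h2
      exact hpar.hdet q.1 q.2 (e k) j hk.2 (hdet2 q.1 (e k) j x hd h2)
    · intro p x x' h
      unfold Q2
      rw [hdvdL p j x x' h, hdvdL p i x x' h, Pool.Agent.BVall.dvd_eval_congr (F.G n) h]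
    · intro p x h
      exact h.2.2.1
    · intro q k x hk hd hq
      have hjz : ¬ (q : ℕ) ≤ z := not_le.2 (hpar.hP q.1 q.2).2.1
      exact hjz hq.1
  -- the sieve function
  have hRep' : RepC P1 (fun T => ∏ p ∈ T, p ≤ lev (2 * D) n' ^ 3) Ff := by
    obtain ⟨c, hc1, hc2, hc3⟩ := hRep
    exact ⟨c, hc1, fun T => (hc2 T).trans (by norm_num), hc3⟩
  -- the densities
  have hd2 : ∀ p, d2 F n w z i j p = rhoW (F.u j).natAbs (Q2 F n w z i j) p := fun p => rfl
  have h1 : ∀ p ∈ P1, 0 ≤ d2 F n w z i j p ∧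
      rhoW (F.u j).natAbs (Q2 F n w z i j) p ≤ d2 F n w z i j p :=
    fun p hp => ⟨(d3 i j).nonneg p, le_of_eq (hd2 p).symm⟩
  have hp1 : ∀ p ∈ P1, (1 : ℝ) ≤ (p : ℝ) - 1 := by
    intro p hp
    have : (2 : ℝ) ≤ p := by exact_mod_cast (hP1p p hp).two_le
    linarith
  -- the worst classes
  have hW : 0 < (F.u j).natAbs := Int.natAbs_pos.2 (F.hu j)
  obtain ⟨c, hc1, hc2⟩ := CM.F.exists_worstG a N (F.u j).natAbs hW
  set Y : ℕ := ⌊(n : ℝ) ^ (1 / 5000 : ℝ)⌋₊ with hYdef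
  have hYle : (Y : ℝ) ≤ (n : ℝ) ^ (1 / 5000 : ℝ) := Nat.floor_le (Real.rpow_nonneg hn0.le _)
  have hYY : ((Y * Y : ℕ) : ℝ) ≤ (n : ℝ) ^ (1 / 5000 : ℝ) * (n : ℝ) ^ (1 / 5000 : ℝ) := by
    push_cast
    exact mul_le_mul hYle hYle (Nat.cast_nonneg _) (Real.rpow_nonneg hn0.le _)
  have hY : ((Y * Y : ℕ) : ℝ) ≤ 2 ^ (2 * Real.log n) := by
    refine hYY.trans ?_
    rw [← Real.rpow_add hn0]
    calc (n : ℝ) ^ (1 / 5000 + 1 / 5000 : ℝ) ≤ (n : ℝ) ^ (1 : ℝ) :=
          Real.rpow_le_rpow_of_exponent_le hn1 (by norm_num)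
      _ = Real.exp (Real.log n * 1) := by rw [Real.rpow_def_of_pos hn0]
      _ ≤ Real.exp (Real.log 2 * (2 * Real.log n)) := by
          apply Real.exp_le_exp.2
          have := Real.log_two_gt_d9
          nlinarith
      _ = 2 ^ (2 * Real.log n) := by rw [Real.rpow_def_of_pos (by norm_num : (0 : ℝ) < 2)]
  have key := hgen κ P P1 (DE F e n P) (Q2 F n w z i j) _ (F.u j) (F.v n j) D z hGH
    (lev (2 * D) n' ^ 3) Ff hRep' (d2 F n w z i j) ∅ h1 (fun p _ _ => (hd2 p).symm)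
    (fun p hp => absurd hp (Finset.notMem_empty p))
    (fun p hp hzp => absurd (hP1z p hp) (not_le.2 hzp)) a N
    (fun q => er a N ((F.u j).natAbs * q) (c q)) hsT0 hc2 (fun q => abs_nonneg _) g B
    (2 * Real.log n) Y hg.bd (fun α hα => Nat.le_floor (hg.sup α hα))
    (fun α hα q k hk => hg.ne α hα q k hk) hY
    (by linarith)
  refine (le_trans (le_of_eq ?_) key).trans ?_
  · rfl
  -- the errors
  have hfin1 : (B : ℝ) ^ 2 * (3 * ∑ q ∈ (Icc 1 (Y * Y * lev (2 * D) n' ^ 3)).filter Squarefree,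
      ((6 * Fintype.card κ * D : ℕ) : ℝ) ^ q.primeFactors.card *
        er a N ((F.u j).natAbs * q) (c q)) ≤ 1 / 2 * (n / (Real.log n) ^ A) := by
    have h5 : Y * Y * lev (2 * D) n' ^ 3 ≤ ⌊(n : ℝ) ^ (1 / 1000 : ℝ)⌋₊ := by
      apply Nat.le_floor
      have h6 : ((Y * Y * lev (2 * D) n' ^ 3 : ℕ) : ℝ) =
          ((Y * Y : ℕ) : ℝ) * (lev (2 * D) n' : ℝ) ^ 3 := by push_cast; ring
      rw [h6]
      calc ((Y * Y : ℕ) : ℝ) * (lev (2 * D) n' : ℝ) ^ 3 ≤
            (n : ℝ) ^ (1 / 5000 : ℝ) * (n : ℝ) ^ (1 / 5000 : ℝ) * (n : ℝ) ^ (1 / 10000 : ℝ) :=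
            mul_le_mul hYY hpar.hlev (by positivity) (by positivity)
        _ = (n : ℝ) ^ (1 / 5000 + 1 / 5000 + 1 / 10000 : ℝ) := by
            rw [Real.rpow_add hn0, Real.rpow_add hn0]
        _ ≤ (n : ℝ) ^ (1 / 1000 : ℝ) :=
            Real.rpow_le_rpow_of_exponent_le hn1 (by norm_num)
    have h6 : ∑ q ∈ (Icc 1 (Y * Y * lev (2 * D) n' ^ 3)).filter Squarefree,
        ((6 * Fintype.card κ * D : ℕ) : ℝ) ^ q.primeFactors.card *
          er a N ((F.u j).natAbs * q) (c q) ≤ n / (Real.log n) ^ (A + 1) := by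
      refine le_trans ?_ (hbv c hc1)
      apply Finset.sum_le_sum_of_subset_of_nonneg
      · apply Finset.filter_subset_filter
        exact Finset.Icc_subset_Icc le_rfl h5
      · intro q _ _
        exact mul_nonneg (by positivity) (abs_nonneg _)
    have hL0 : 0 < Real.log n := by linarith
    calc (B : ℝ) ^ 2 * (3 * ∑ q ∈ (Icc 1 (Y * Y * lev (2 * D) n' ^ 3)).filter Squarefree,
        ((6 * Fintype.card κ * D : ℕ) : ℝ) ^ q.primeFactors.card *
          er a N ((F.u j).natAbs * q) (c q)) ≤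
          (B : ℝ) ^ 2 * (3 * (n / (Real.log n) ^ (A + 1))) := by
          apply mul_le_mul_of_nonneg_left _ (sq_nonneg _)
          exact mul_le_mul_of_nonneg_left h6 (by norm_num)
      _ = (6 * (B : ℝ) ^ 2) * (1 / 2 * (n / (Real.log n) ^ (A + 1))) := by ring
      _ ≤ Real.log n * (1 / 2 * (n / (Real.log n) ^ (A + 1))) := by
          apply mul_le_mul_of_nonneg_right hfirst (by positivity)
      _ = _ := by
          rw [pow_succ]
          field_simp
  have hfin2 : (B : ℝ) ^ 2 * (sT a N / (Nat.totient (F.u j).natAbs : ℝ) *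
      (3 * (2 / z) * ∏ p ∈ P1, (1 + d2 F n w z i j p)) *
        ((((∅ : Finset ℕ).card : ℕ) + 2 * Real.log n) *
      ∏ j : PJf P, (1 + (3 * Fintype.card κ : ℝ) * (1 / (((j : ℕ) : ℝ) - 1))))) ≤
      1 / 2 * (n / (Real.log n) ^ A) := by
    refine le_trans ?_ (htail z hpar.hzB)
    have hφ : (1 : ℝ) ≤ Nat.totient (F.u j).natAbs := by
      exact_mod_cast Nat.totient_pos.2 hW
    have e1 : sT a N / (Nat.totient (F.u j).natAbs : ℝ) ≤ n * Real.log n :=
      (div_le_self hsT0 hφ).trans hsT1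
    have e10 : 0 ≤ sT a N / (Nat.totient (F.u j).natAbs : ℝ) := div_nonneg hsT0 (by linarith)
    have e2 : ∏ p ∈ P1, (1 + d2 F n w z i j p) ≤ C1 * (Real.log n) ^ (2 * D) := by
      have e3 : ∏ p ∈ P1, (1 + d2 F n w z i j p) ≤
          ∏ p ∈ P1, (1 + ((2 * D : ℕ) : ℝ) / ((p : ℝ) - 1)) := by
        apply Finset.prod_le_prod
        · intro p hp
          linarith [(h1 p hp).1]
        · intro p hp
          have h5 := hp1 p hp
          have h6 := (d3 i j).le p (hP1p p hp)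
          have h7 : ((2 * D : ℕ) : ℝ) / (p : ℝ) ≤ ((2 * D : ℕ) : ℝ) / ((p : ℝ) - 1) :=
            div_le_div_of_nonneg_left (by positivity) (by linarith) (by linarith)
          linarith
      refine e3.trans (le_trans ?_ (hpr1 n hn3))
      apply CM.F.prod_le_of_subset
      · intro p hp
        rw [Finset.mem_filter, Finset.mem_Icc]
        exact ⟨⟨(hP1p p hp).one_le, hP1n p hp⟩, hP1p p hp⟩
      · intro p hp
        have h5 : (2 : ℝ) ≤ p := by exact_mod_cast (Finset.mem_filter.1 hp).2.two_le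
        have h6 : 0 ≤ ((2 * D : ℕ) : ℝ) / ((p : ℝ) - 1) := div_nonneg (by positivity) (by linarith)
        linarith
    have e20 : 0 ≤ ∏ p ∈ P1, (1 + d2 F n w z i j p) := Finset.prod_nonneg fun p hp => by
      linarith [(h1 p hp).1]
    have e4 : ∏ j : PJf P, (1 + (3 * Fintype.card κ : ℝ) * (1 / (((j : ℕ) : ℝ) - 1))) ≤
        C2 * (Real.log n) ^ (3 * Fintype.card κ) := by
      have e5 : ∏ j : PJf P, (1 + (3 * Fintype.card κ : ℝ) * (1 / (((j : ℕ) : ℝ) - 1))) =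
          ∏ p ∈ P, (1 + ((3 * Fintype.card κ : ℕ) : ℝ) / ((p : ℝ) - 1)) := by
        rw [← Finset.prod_coe_sort P (fun p => 1 + ((3 * Fintype.card κ : ℕ) : ℝ) / ((p : ℝ) - 1))]
        apply Finset.prod_congr rfl
        intro j _
        push_cast
        ring
      rw [e5]
      refine le_trans ?_ (hpr2 n hn3)
      apply CM.F.prod_le_of_subset
      · intro p hp
        rw [Finset.mem_filter, Finset.mem_Icc]
        exact ⟨⟨(hPp p hp).one_le, hPn p hp⟩, hPp p hp⟩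
      · intro p hp
        have h5 : (2 : ℝ) ≤ p := by exact_mod_cast (Finset.mem_filter.1 hp).2.two_le
        have h6 : 0 ≤ ((3 * Fintype.card κ : ℕ) : ℝ) / ((p : ℝ) - 1) :=
          div_nonneg (by positivity) (by linarith)
        linarith
    have e40 : 0 ≤ ∏ j : PJf P, (1 + (3 * Fintype.card κ : ℝ) * (1 / (((j : ℕ) : ℝ) - 1))) := by
      apply Finset.prod_nonneg
      intro j _
      have h5 : (2 : ℝ) ≤ ((j : ℕ) : ℝ) := by exact_mod_cast (hPp j.1 j.2).two_le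
      have h6 : 0 ≤ 1 / (((j : ℕ) : ℝ) - 1) := div_nonneg zero_le_one (by linarith)
      positivity
    have e6 : ((((∅ : Finset ℕ).card : ℕ) : ℝ) + 2 * Real.log n) ≤
        (B0 + 1 : ℝ) + 2 * Real.log n := by
      rw [Finset.card_empty]
      push_cast
      have : (0 : ℝ) ≤ (B0 : ℝ) := Nat.cast_nonneg _
      linarith
    have hL0 : 0 ≤ Real.log n := by linarith
    apply mul_le_mul_of_nonneg_left _ (sq_nonneg _)
    apply mul_le_mul
    · apply mul_le_mul e1 _ (mul_nonneg (by positivity) e20) (by positivity)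
      exact mul_le_mul_of_nonneg_left e2 (by positivity)
    · exact mul_le_mul e6 e4 e40 (by positivity)
    · exact mul_nonneg (add_nonneg (Nat.cast_nonneg _) (by linarith)) e40
    · positivity
  have hfin : (B : ℝ) ^ 2 * (3 * ∑ q ∈ (Icc 1 (Y * Y * lev (2 * D) n' ^ 3)).filter Squarefree,
      ((6 * Fintype.card κ * D : ℕ) : ℝ) ^ q.primeFactors.card *
        er a N ((F.u j).natAbs * q) (c q) + sT a N / (Nat.totient (F.u j).natAbs : ℝ) *
      (3 * (2 / z) * ∏ p ∈ P1, (1 + d2 F n w z i j p)) *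
        ((((∅ : Finset ℕ).card : ℕ) + 2 * Real.log n) *
      ∏ j : PJf P, (1 + (3 * Fintype.card κ : ℝ) * (1 / (((j : ℕ) : ℝ) - 1))))) ≤
      n / (Real.log n) ^ A := by
    rw [mul_add]
    linarith
  exact hfin

end Pool.Agent.TC.M
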