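import Pool.Agent.Lib.MP_0da313_nt.TC.F

set_option autoImplicit false

namespace Pool.Agent.TC.F

open Finset Filter

theorem p_bk : S_bk := by
  classical
  intro S k hk h A
  obtain ⟨M0, hM0⟩ := eventually_atTop.1 (h (A + 1))
  have hlog : ∀ᶠ x : ℝ in atTop, 8 * (Real.log x) ^ A ≤ Real.sqrt x := by
    have h1 := isLittleO_log_rpow_rpow_atTop (s := 1 / 2) (A : ℝ) (by norm_num)
    have h2 := h1.bound (show (0 : ℝ) < 1 / 8 by norm_num)
    filter_upwards [h2, eventually_ge_atTop (1 : ℝ)] with x hx hx1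
    have hl : 0 ≤ Real.log x := Real.log_nonneg hx1
    rw [Real.rpow_natCast, Real.norm_of_nonneg (pow_nonneg hl A),
      Real.norm_of_nonneg (Real.rpow_nonneg (by linarith) _), ← Real.sqrt_eq_rpow] at hx
    linarith
  have e1 : ∀ᶠ N : ℕ in atTop, 8 * (Real.log N) ^ A ≤ Real.sqrt N :=
    tendsto_natCast_atTop_atTop.eventually hlog
  have e2 : ∀ᶠ N : ℕ in atTop, 32 * (k : ℝ) * 2 ^ (A + 1) ≤ Real.log N :=
    (Real.tendsto_log_atTop.comp tendsto_natCast_atTop_atTop).eventually
      (eventually_ge_atTop _)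
  have e3 : ∀ᶠ N : ℕ in atTop, ((max M0 (50 * k) : ℕ) : ℝ) ≤ Real.sqrt N :=
    (Real.tendsto_sqrt_atTop.comp tendsto_natCast_atTop_atTop).eventually
      (eventually_ge_atTop _)
  filter_upwards [e1, e2, e3, eventually_ge_atTop 2] with N h1 h2 h3 hN2
  have hN : (2 : ℝ) ≤ N := by exact_mod_cast hN2
  have hs1 : 1 ≤ Real.sqrt N := by
    rw [Real.one_le_sqrt]; linarith
  have hsq : Real.sqrt N * Real.sqrt N = N := Real.mul_self_sqrt (by linarith)
  have hk1 : (1 : ℝ) ≤ k := by exact_mod_cast hk
  have hL : 0 < Real.log N := Real.log_pos (by linarith)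
  set T : ℕ := ⌈Real.sqrt N⌉₊ with hT
  have hT1 : Real.sqrt N ≤ T := Nat.le_ceil _
  have hT2 : (T : ℝ) < Real.sqrt N + 1 := Nat.ceil_lt_add_one (Real.sqrt_nonneg _)
  have hTM : max M0 (50 * k) ≤ T := by
    have : ((max M0 (50 * k) : ℕ) : ℝ) ≤ T := h3.trans hT1
    exact_mod_cast this
  have hTM0 : M0 ≤ T := (le_max_left _ _).trans hTM
  have hTk : 50 * k ≤ T := (le_max_right _ _).trans hTM
  set ε : ℝ := 2 ^ (A + 1) / (Real.log N) ^ (A + 1) with hε
  have hε0 : 0 < ε := by positivity
  -- the blocks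
  have hblk : ∀ M : ℕ, T ≤ M → (((Ioc M (M + M / k)).filter (fun n => n ∈ S)).card : ℝ) ≤ ε * M := by
    intro M hM
    refine (hM0 M (hTM0.trans hM)).trans ?_
    have hM1 : Real.sqrt N ≤ M := hT1.trans (by exact_mod_cast hM)
    have hM2 : (1 / 2) * Real.log N ≤ Real.log M := by
      have := Real.log_le_log (by linarith) hM1
      rw [Real.log_sqrt (by linarith)] at this
      linarith
    have hM3 : ((1 / 2) * Real.log N) ^ (A + 1) ≤ (Real.log M) ^ (A + 1) :=
      pow_le_pow_left₀ (by positivity) hM2 _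
    have hM4 : 0 < ((1 / 2) * Real.log N) ^ (A + 1) := by positivity
    calc (M : ℝ) / (Real.log M) ^ (A + 1) ≤ M / ((1 / 2) * Real.log N) ^ (A + 1) :=
          div_le_div_of_nonneg_left (by positivity) hM4 hM3
      _ = ε * M := by
          rw [hε, mul_pow, div_pow, one_pow]
          field_simp
  -- the induction
  have key : ∀ M : ℕ, M ≤ N → (((Icc 1 M).filter (fun n => n ∈ S)).card : ℝ)
      ≤ 2 * T + 16 * k * ε * M := by
    intro M
    induction M using Nat.strong_induction_on with
    | _ M ih =>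
      intro hMN
      have hcard : ((Icc 1 M).filter (fun n => n ∈ S)).card ≤ M :=
        (card_filter_le _ _).trans (by simp)
      by_cases hM : M ≤ 2 * T
      · have h4 : (((Icc 1 M).filter (fun n => n ∈ S)).card : ℝ) ≤ M := by exact_mod_cast hcard
        have h5 : (M : ℝ) ≤ 2 * T := by exact_mod_cast hM
        have h6 : 0 ≤ 16 * k * ε * M := by positivity
        linarith
      · push Not at hM
        obtain ⟨q, r, hqr, hr⟩ : ∃ q r : ℕ, 4 * (q * k) + r = M ∧ r < 4 * k := by
          refine ⟨M / (4 * k), M % (4 * k), ?_, Nat.mod_lt _ (by omega)⟩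
          have := Nat.div_add_mod M (4 * k)
          calc 4 * (M / (4 * k) * k) + M % (4 * k) = 4 * k * (M / (4 * k)) + M % (4 * k) := by ring
            _ = M := this
        have hq1 : 4 * (q * k) ≤ M := by omega
        have hq2 : M < 4 * (q * k) + 4 * k := by omega
        have hqk : q ≤ q * k := Nat.le_mul_of_pos_right q (by omega)
        have hqpos : 1 ≤ q := by
          by_contra h0
          have h00 : q = 0 := by omega
          rw [h00, zero_mul] at hq2
          omega
        have hM'T : T ≤ M - q := by omega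
        have hdiv : q ≤ (M - q) / k := by
          rw [Nat.le_div_iff_mul_le (by omega)]
          omega
        have hsub : (Icc 1 M).filter (fun n => n ∈ S) ⊆ (Icc 1 (M - q)).filter (fun n => n ∈ S) ∪
            (Ioc (M - q) ((M - q) + (M - q) / k)).filter (fun n => n ∈ S) := by
          intro n hn
          rw [mem_filter, mem_Icc] at hn
          rw [mem_union, mem_filter, mem_filter, mem_Icc, mem_Ioc]
          by_cases hnq : n ≤ M - q
          · exact Or.inl ⟨⟨hn.1.1, hnq⟩, hn.2⟩
          · exact Or.inr ⟨⟨by omega, by omega⟩, hn.2⟩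
        have hc1 : (((Icc 1 M).filter (fun n => n ∈ S)).card : ℝ)
            ≤ (((Icc 1 (M - q)).filter (fun n => n ∈ S)).card : ℝ) +
              (((Ioc (M - q) ((M - q) + (M - q) / k)).filter (fun n => n ∈ S)).card : ℝ) := by
          exact_mod_cast (card_le_card hsub).trans (card_union_le _ _)
        have hc2 := ih (M - q) (by omega) (by omega)
        have hc3 := hblk (M - q) hM'T
        have hcast : ((M - q : ℕ) : ℝ) = M - q := Nat.cast_sub (by omega)
        rw [hcast] at hc2 hc3
        have hMk : (M : ℝ) ≤ 8 * (q * k) := by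
          have : M ≤ 8 * (q * k) := by omega
          exact_mod_cast this
        have hq0 : (0 : ℝ) ≤ q := by positivity
        have h8 : ε * M ≤ ε * (8 * (q * k)) := mul_le_mul_of_nonneg_left hMk hε0.le
        have h9 : 0 ≤ ε * q := mul_nonneg hε0.le hq0
        nlinarith
  -- the end
  have h7 := key N le_rfl
  refine h7.trans ?_
  have hLA : 0 < (Real.log N) ^ A := by positivity
  have g1 : 16 * k * ε * N ≤ (1 / 2) * (N / (Real.log N) ^ A) := by
    have e : 16 * k * ε * N = (N / (Real.log N) ^ A) * ((16 * k * 2 ^ (A + 1)) / Real.log N) := by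
      rw [hε, pow_succ (Real.log N)]
      field_simp
    rw [e, mul_comm (1 / 2 : ℝ)]
    refine mul_le_mul_of_nonneg_left ?_ (by positivity)
    rw [div_le_iff₀ hL]
    linarith
  have g2 : 2 * (T : ℝ) ≤ (1 / 2) * (N / (Real.log N) ^ A) := by
    have e : 2 * (T : ℝ) ≤ 4 * Real.sqrt N := by linarith
    refine e.trans ?_
    rw [← mul_div_assoc, le_div_iff₀ hLA]
    have := mul_le_mul_of_nonneg_right h1 (Real.sqrt_nonneg N)
    rw [hsq] at this
    linarith
  linarith

end Pool.Agent.TC.F
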