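import Pool.Agent.Lib.MP_0da313_nt.TC.W

set_option autoImplicit false
set_option linter.unusedSectionVars false

/-!
Project TC, section W, [TC bt]: the quadratic form of a tensor product.
-/

namespace Pool.Agent.TC.W

open Finset Filter
open Pool.Agent.MP89da58 (bil kap pw nn supp part compat join prod_kap_compat prod_kap_not_compat
  supp_join mem_supp)
open Pool.Agent.MT (PJf err_sum_leI)

section local_kernel

variable {ι₁ ι₂ : Type} [DecidableEq ι₁] [DecidableEq ι₂]

/-- the local assignment with the given components -/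
private def mk1 (a : Option ι₁) (b : Option ι₂) : Option (ι₁ ⊕ ι₂) :=
  (a.map Sum.inl).orElse fun _ => b.map Sum.inr

private theorem tc_bt_getL (a : Option ι₁) (b : Option ι₂) (h : a = none ∨ b = none) :
    (mk1 a b).bind Sum.getLeft? = a ∧ (mk1 a b).bind Sum.getRight? = b := by
  rcases a with _ | a <;> rcases b with _ | b
  · exact ⟨rfl, rfl⟩
  · exact ⟨rfl, rfl⟩
  · exact ⟨rfl, rfl⟩
  · simp at h

private theorem tc_bt_eta (c : Option (ι₁ ⊕ ι₂)) :
    (c.bind Sum.getLeft? = none ∨ c.bind Sum.getRight? = none) ∧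
      mk1 (c.bind Sum.getLeft?) (c.bind Sum.getRight?) = c := by
  rcases c with _ | (c | c)
  · exact ⟨Or.inl rfl, rfl⟩
  · exact ⟨Or.inr rfl, rfl⟩
  · exact ⟨Or.inl rfl, rfl⟩

open Classical in
private theorem tc_bt_loc (x : ℝ) (a₁ b₁ : Option ι₁) (a₂ b₂ : Option ι₂) :
    (if (a₁ = none ∨ a₂ = none) ∧ (b₁ = none ∨ b₂ = none) then kap x (mk1 a₁ a₂) (mk1 b₁ b₂)
      else 0) =
    if (a₁ ≠ none ∨ b₁ ≠ none) ∧ (a₂ ≠ none ∨ b₂ ≠ none) then 0 else kap x a₁ b₁ * kap x a₂ b₂ := by
  rcases a₁ with _ | a₁ <;> rcases b₁ with _ | b₁ <;> rcases a₂ with _ | a₂ <;>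
    rcases b₂ with _ | b₂ <;> simp [mk1, kap]

end local_kernel

section global

variable {ι₁ ι₂ J : Type} [Fintype ι₁] [DecidableEq ι₁] [Fintype ι₂] [DecidableEq ι₂]
  [Fintype J] [DecidableEq J]

/-- the assignment with the given components -/
private def mkA (α : J → Option ι₁) (β : J → Option ι₂) : J → Option (ι₁ ⊕ ι₂) :=
  fun j => mk1 (α j) (β j)

private theorem tc_bt_fLR (α : J → Option ι₁) (β : J → Option ι₂)
    (h : ∀ j, α j = none ∨ β j = none) : fL (mkA α β) = α ∧ fR (mkA α β) = β :=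
  ⟨funext fun j => (tc_bt_getL (α j) (β j) (h j)).1,
    funext fun j => (tc_bt_getL (α j) (β j) (h j)).2⟩

open Classical in
/-- a sum over the assignments is a sum over the pairs of components -/
private theorem tc_bt_sum (F : (J → Option (ι₁ ⊕ ι₂)) → ℝ) :
    ∑ α, F α = ∑ α₁ : J → Option ι₁, ∑ α₂ : J → Option ι₂,
      if ∀ j, α₁ j = none ∨ α₂ j = none then F (mkA α₁ α₂) else 0 := by
  rw [← Fintype.sum_prod_type', ← Finset.sum_filter]
  refine Finset.sum_nbij' (fun α => (fL α, fR α)) (fun p => mkA p.1 p.2) ?_ ?_ ?_ ?_ ?_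
  · intro α _
    rw [Finset.mem_filter]
    exact ⟨Finset.mem_univ _, fun j => (tc_bt_eta (α j)).1⟩
  · intro p _
    exact Finset.mem_univ _
  · intro α _
    exact funext fun j => (tc_bt_eta (α j)).2
  · intro p hp
    rw [Finset.mem_filter] at hp
    obtain ⟨h1, h2⟩ := tc_bt_fLR p.1 p.2 hp.2
    exact Prod.ext h1 h2
  · intro α _
    congr 1
    exact funext fun j => ((tc_bt_eta (α j)).2).symm

open Classical in
/-- the product of the local kernels -/
private theorem tc_bt_prod (x : J → ℝ) (α₁ β₁ : J → Option ι₁) (α₂ β₂ : J → Option ι₂) :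
    (if (∀ j, α₁ j = none ∨ α₂ j = none) ∧ (∀ j, β₁ j = none ∨ β₂ j = none) then
      ∏ j, kap (x j) (mkA α₁ α₂ j) (mkA β₁ β₂ j) else 0) =
    if ∃ j, (α₁ j ≠ none ∨ β₁ j ≠ none) ∧ (α₂ j ≠ none ∨ β₂ j ≠ none) then 0 else
      (∏ j, kap (x j) (α₁ j) (β₁ j)) * ∏ j, kap (x j) (α₂ j) (β₂ j) := by
  have h1 : (if (∀ j, α₁ j = none ∨ α₂ j = none) ∧ (∀ j, β₁ j = none ∨ β₂ j = none) then
      ∏ j, kap (x j) (mkA α₁ α₂ j) (mkA β₁ β₂ j) else 0) =
      ∏ j, if (α₁ j = none ∨ α₂ j = none) ∧ (β₁ j = none ∨ β₂ j = none) then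
        kap (x j) (mk1 (α₁ j) (α₂ j)) (mk1 (β₁ j) (β₂ j)) else 0 := by
    split_ifs with h
    · refine Finset.prod_congr rfl fun j _ => ?_
      rw [if_pos ⟨h.1 j, h.2 j⟩]
      rfl
    · rw [← forall_and, not_forall] at h
      obtain ⟨j, hj⟩ := h
      symm
      refine Finset.prod_eq_zero (Finset.mem_univ j) ?_
      rw [if_neg hj]
  rw [h1, Finset.prod_congr rfl fun j _ => tc_bt_loc (x j) (α₁ j) (β₁ j) (α₂ j) (β₂ j)]
  split_ifs with h
  · obtain ⟨j, hj⟩ := h
    refine Finset.prod_eq_zero (Finset.mem_univ j) ?_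
    rw [if_pos hj]
  · rw [not_exists] at h
    rw [← Finset.prod_mul_distrib]
    refine Finset.prod_congr rfl fun j _ => ?_
    rw [if_neg (h j)]

open Classical in
/-- the difference of the forms -/
private theorem tc_bt_diff (x : J → ℝ) (hx : ∀ j, 0 ≤ x j) (f : (J → Option ι₁) → ℝ)
    (g : (J → Option ι₂) → ℝ) :
    |bil x (ten f g) (ten f g) - bil x f f * bil x g g| ≤
      ∑ α₂ : J → Option ι₂, ∑ β₂ : J → Option ι₂, if g α₂ ≠ 0 ∧ g β₂ ≠ 0 ∧ compat α₂ β₂ then
        |g α₂| * |g β₂| * (pw x (supp (join α₂ β₂)) *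
        ∑ α₁ : J → Option ι₁, ∑ β₁ : J → Option ι₁, if f α₁ ≠ 0 ∧ f β₁ ≠ 0 ∧ compat α₁ β₁ then
          |f α₁| * |f β₁| * (if (supp (join α₁ β₁) ∩ supp (join α₂ β₂)).Nonempty then
            pw x (supp (join α₁ β₁)) else 0) else 0) else 0 := by
  have e1 : bil x (ten f g) (ten f g) = ∑ α₂ : J → Option ι₂, ∑ β₂ : J → Option ι₂,
      ∑ α₁ : J → Option ι₁, ∑ β₁ : J → Option ι₁, f α₁ * f β₁ * (g α₂ * g β₂) *
        (if ∃ j, (α₁ j ≠ none ∨ β₁ j ≠ none) ∧ (α₂ j ≠ none ∨ β₂ j ≠ none) then 0 else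
      (∏ j, kap (x j) (α₁ j) (β₁ j)) * ∏ j, kap (x j) (α₂ j) (β₂ j)) := by
    have h1 : bil x (ten f g) (ten f g) = ∑ α₁ : J → Option ι₁, ∑ α₂ : J → Option ι₂,
        ∑ β₁ : J → Option ι₁, ∑ β₂ : J → Option ι₂, f α₁ * f β₁ * (g α₂ * g β₂) *
        (if ∃ j, (α₁ j ≠ none ∨ β₁ j ≠ none) ∧ (α₂ j ≠ none ∨ β₂ j ≠ none) then 0 else
        (∏ j, kap (x j) (α₁ j) (β₁ j)) * ∏ j, kap (x j) (α₂ j) (β₂ j)) := by
      unfold bil
      rw [tc_bt_sum]
      refine Finset.sum_congr rfl fun α₁ _ => Finset.sum_congr rfl fun α₂ _ => ?_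
      by_cases hα : ∀ j, α₁ j = none ∨ α₂ j = none
      · rw [if_pos hα, tc_bt_sum]
        refine Finset.sum_congr rfl fun β₁ _ => Finset.sum_congr rfl fun β₂ _ => ?_
        rw [← tc_bt_prod]
        by_cases hβ : ∀ j, β₁ j = none ∨ β₂ j = none
        · rw [if_pos hβ, if_pos ⟨hα, hβ⟩]
          obtain ⟨h2, h3⟩ := tc_bt_fLR α₁ α₂ hα
          obtain ⟨h4, h5⟩ := tc_bt_fLR β₁ β₂ hβ
          unfold ten
          rw [h2, h3, h4, h5]
          ring
        · rw [if_neg hβ, if_neg (fun h => hβ h.2), mul_zero]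
      · rw [if_neg hα]
        symm
        refine Finset.sum_eq_zero fun β₁ _ => Finset.sum_eq_zero fun β₂ _ => ?_
        rw [← tc_bt_prod, if_neg (fun h => hα h.1), mul_zero]
    rw [h1, Finset.sum_comm]
    refine Finset.sum_congr rfl fun α₂ _ => ?_
    rw [Finset.sum_congr rfl fun α₁ _ => Finset.sum_comm, Finset.sum_comm]
  have e2 : bil x f f * bil x g g = ∑ α₂ : J → Option ι₂, ∑ β₂ : J → Option ι₂,
      ∑ α₁ : J → Option ι₁, ∑ β₁ : J → Option ι₁, f α₁ * f β₁ * (g α₂ * g β₂) *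
      ((∏ j, kap (x j) (α₁ j) (β₁ j)) * ∏ j, kap (x j) (α₂ j) (β₂ j)) := by
    unfold bil
    rw [mul_comm, Finset.sum_mul]
    refine Finset.sum_congr rfl fun α₂ _ => ?_
    rw [Finset.sum_mul]
    refine Finset.sum_congr rfl fun β₂ _ => ?_
    rw [Finset.mul_sum]
    refine Finset.sum_congr rfl fun α₁ _ => ?_
    rw [Finset.mul_sum]
    refine Finset.sum_congr rfl fun β₁ _ => ?_
    ring
  rw [e1, e2, ← Finset.sum_sub_distrib]
  refine (Finset.abs_sum_le_sum_abs _ _).trans (Finset.sum_le_sum fun α₂ _ => ?_)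
  rw [← Finset.sum_sub_distrib]
  refine (Finset.abs_sum_le_sum_abs _ _).trans (Finset.sum_le_sum fun β₂ _ => ?_)
  rw [← Finset.sum_sub_distrib]
  have hpw : ∀ a, 0 ≤ pw x a := fun a => Finset.prod_nonneg fun j _ => hx j
  by_cases hg : g α₂ ≠ 0 ∧ g β₂ ≠ 0 ∧ compat α₂ β₂
  · rw [if_pos hg, Finset.mul_sum, Finset.mul_sum]
    refine (Finset.abs_sum_le_sum_abs _ _).trans (Finset.sum_le_sum fun α₁ _ => ?_)
    rw [← Finset.sum_sub_distrib, Finset.mul_sum, Finset.mul_sum]
    refine (Finset.abs_sum_le_sum_abs _ _).trans (Finset.sum_le_sum fun β₁ _ => ?_)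
    by_cases hf : f α₁ ≠ 0 ∧ f β₁ ≠ 0 ∧ compat α₁ β₁
    · rw [if_pos hf, prod_kap_compat _ _ _ hf.2.2, prod_kap_compat _ _ _ hg.2.2]
      by_cases hD : ∃ j, (α₁ j ≠ none ∨ β₁ j ≠ none) ∧ (α₂ j ≠ none ∨ β₂ j ≠ none)
      · have hne : (supp (join α₁ β₁) ∩ supp (join α₂ β₂)).Nonempty := by
          obtain ⟨j, h1, h2⟩ := hD
          refine ⟨j, ?_⟩
          rw [supp_join, supp_join, Finset.mem_inter, Finset.mem_union, Finset.mem_union, mem_supp,
            mem_supp, mem_supp, mem_supp]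
          exact ⟨h1, h2⟩
        rw [if_pos hD, if_pos hne, mul_zero, zero_sub, abs_neg, abs_mul, abs_mul, abs_mul, abs_mul,
          abs_mul, abs_of_nonneg (hpw _), abs_of_nonneg (hpw _)]
        apply le_of_eq
        ring
      · rw [if_neg hD, sub_self, abs_zero]
        split_ifs
        · have := hpw (supp (join α₁ β₁))
          have := hpw (supp (join α₂ β₂))
          positivity
        · rw [mul_zero, mul_zero, mul_zero]
    · rw [if_neg hf, mul_zero, mul_zero]
      apply le_of_eq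
      rw [abs_eq_zero, sub_eq_zero]
      by_cases h1 : f α₁ = 0
      · simp [h1]
      · by_cases h2 : f β₁ = 0
        · simp [h2]
        · have h3 : ¬ compat α₁ β₁ := fun h => hf ⟨h1, h2, h⟩
          rw [prod_kap_not_compat _ _ _ h3, zero_mul, ite_self]
  · rw [if_neg hg]
    apply le_of_eq
    rw [abs_eq_zero]
    refine Finset.sum_eq_zero fun α₁ _ => ?_
    rw [sub_eq_zero]
    refine Finset.sum_congr rfl fun β₁ _ => ?_
    by_cases h1 : g α₂ = 0
    · simp [h1]
    · by_cases h2 : g β₂ = 0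
      · simp [h2]
      · have h3 : ¬ compat α₂ β₂ := fun h => hg ⟨h1, h2, h⟩
        rw [prod_kap_not_compat _ _ _ h3, mul_zero, ite_self]

/-- the sum over the sets which contain `j` -/
private theorem tc_bt_sets (y : J → ℝ) (hy : ∀ j, 0 ≤ y j) (j : J) :
    ∑ a : Finset J, (if j ∈ a then pw y a else 0) ≤ y j * ∏ i, (1 + y i) := by
  classical
  have h1 : ∑ a : Finset J, (if j ∈ a then pw y a else 0) =
      y j * ∑ a ∈ ((Finset.univ : Finset J).erase j).powerset, pw y a := by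
    rw [← Finset.sum_filter, Finset.mul_sum]
    refine Finset.sum_nbij' (fun a => a.erase j) (fun a => insert j a) ?_ ?_ ?_ ?_ ?_
    · intro a _
      rw [Finset.mem_powerset]
      exact Finset.erase_subset_erase j (Finset.subset_univ a)
    · intro a _
      rw [Finset.mem_filter]
      exact ⟨Finset.mem_univ _, Finset.mem_insert_self j a⟩
    · intro a ha
      rw [Finset.mem_filter] at ha
      exact Finset.insert_erase ha.2
    · intro a ha
      rw [Finset.mem_powerset] at ha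
      exact Finset.erase_insert fun h => (Finset.mem_erase.1 (ha h)).1 rfl
    · intro a ha
      rw [Finset.mem_filter] at ha
      unfold pw
      exact (Finset.mul_prod_erase a y ha.2).symm
  rw [h1]
  refine mul_le_mul_of_nonneg_left ?_ (hy j)
  have h2 : ∏ i, (1 + y i) = ∑ a : Finset J, pw y a := by
    rw [Finset.prod_one_add, Finset.powerset_univ]
    rfl
  rw [h2]
  exact Finset.sum_le_sum_of_subset_of_nonneg (Finset.subset_univ _) fun a _ _ =>
    Finset.prod_nonneg fun i _ => hy i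

/-- the sum over the pairs of sets which meet -/
private theorem tc_bt_pairs (y w : J → ℝ) (hy : ∀ j, 0 ≤ y j) (hw : ∀ j, 0 ≤ w j) :
    ∑ c : Finset J, ∑ a : Finset J, (if (a ∩ c).Nonempty then pw y a * pw w c else 0) ≤
      (∑ j, y j * w j) * ((∏ i, (1 + y i)) * ∏ i, (1 + w i)) := by
  classical
  have hpy : ∀ a, 0 ≤ pw y a := fun a => Finset.prod_nonneg fun j _ => hy j
  have hpw : ∀ a, 0 ≤ pw w a := fun a => Finset.prod_nonneg fun j _ => hw j
  calc ∑ c : Finset J, ∑ a : Finset J, (if (a ∩ c).Nonempty then pw y a * pw w c else 0)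
      ≤ ∑ c : Finset J, ∑ a : Finset J, ∑ j : J,
        (if j ∈ a then pw y a else 0) * (if j ∈ c then pw w c else 0) := by
        refine Finset.sum_le_sum fun c _ => Finset.sum_le_sum fun a _ => ?_
        have h0 : ∀ j ∈ (Finset.univ : Finset J),
            0 ≤ (if j ∈ a then pw y a else 0) * (if j ∈ c then pw w c else 0) := by
          intro j _
          refine mul_nonneg ?_ ?_
          · split_ifs
            · exact hpy a
            · exact le_rfl
          · split_ifs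
            · exact hpw c
            · exact le_rfl
        split_ifs with h
        · obtain ⟨j, hj⟩ := h
          rw [Finset.mem_inter] at hj
          refine le_trans (le_of_eq ?_) (Finset.single_le_sum h0 (Finset.mem_univ j))
          rw [if_pos hj.1, if_pos hj.2]
        · exact Finset.sum_nonneg h0
    _ = ∑ j : J, (∑ a : Finset J, (if j ∈ a then pw y a else 0)) *
        ∑ c : Finset J, (if j ∈ c then pw w c else 0) := by
        rw [Finset.sum_congr rfl fun c _ => Finset.sum_comm, Finset.sum_comm]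
        refine Finset.sum_congr rfl fun j _ => ?_
        rw [Finset.sum_mul_sum, Finset.sum_comm]
    _ ≤ ∑ j : J, (y j * ∏ i, (1 + y i)) * (w j * ∏ i, (1 + w i)) := by
        refine Finset.sum_le_sum fun j _ => ?_
        refine mul_le_mul (tc_bt_sets y hy j) (tc_bt_sets w hw j) ?_ ?_
        · refine Finset.sum_nonneg fun c _ => ?_
          split_ifs
          · exact hpw c
          · exact le_rfl
        · exact mul_nonneg (hy j) (Finset.prod_nonneg fun i _ => by have := hy i; linarith)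
    _ = (∑ j, y j * w j) * ((∏ i, (1 + y i)) * ∏ i, (1 + w i)) := by
        rw [Finset.sum_mul]
        refine Finset.sum_congr rfl fun j _ => ?_
        ring

/-- telescoping -/
private theorem tc_bt_tel (z : ℕ) (hz : 2 ≤ z) (P : Finset ℕ) (hP : ∀ p ∈ P, z < p) :
    ∑ p ∈ P, (1 / ((p : ℝ) - 1)) ^ 2 ≤ (2 : ℝ) / (z : ℝ) := by
  have h1 : ∀ M : ℕ, z ≤ M → ∑ p ∈ Finset.Ioc z M, ((1 : ℝ) / ((p : ℝ) - 1)) ^ 2 ≤
      (1 : ℝ) / ((z : ℝ) - 1) - 1 / ((M : ℝ) - 1) := by
    intro M hM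
    induction M, hM using Nat.le_induction with
    | base => simp
    | succ M hM ih =>
      rw [← Finset.insert_Ioc_right_eq_Ioc_add_one hM, Finset.sum_insert (by simp)]
      have h2 : (2 : ℝ) ≤ M := by exact_mod_cast hz.trans hM
      have h3 : (((M + 1 : ℕ) : ℝ) - 1) = M := by push_cast; ring
      rw [h3]
      have h4 : (1 / (M : ℝ)) ^ 2 ≤ 1 / ((M : ℝ) - 1) - 1 / M := by
        have h5 : (0 : ℝ) < M - 1 := by linarith
        have h6 : (0 : ℝ) < M := by linarith
        rw [div_sub_div _ _ h5.ne' h6.ne', div_pow, one_pow, div_le_div_iff₀ (by positivity)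
          (by positivity)]
        nlinarith
      linarith
  have hz' : (2 : ℝ) ≤ z := by exact_mod_cast hz
  have h2 : P ⊆ Finset.Ioc z (P.sup id + z) := by
    intro p hp
    rw [Finset.mem_Ioc]
    refine ⟨hP p hp, ?_⟩
    have h3 : p ≤ P.sup id := Finset.le_sup (f := id) hp
    omega
  have h3 := h1 (P.sup id + z) (by omega)
  have h4 : (z : ℝ) ≤ ((P.sup id + z : ℕ) : ℝ) := by exact_mod_cast (by omega : z ≤ P.sup id + z)
  have h5 : 0 ≤ 1 / ((((P.sup id + z : ℕ)) : ℝ) - 1) := by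
    apply div_nonneg zero_le_one
    linarith
  have h6 : 1 / ((z : ℝ) - 1) ≤ 2 / z := by
    rw [div_le_div_iff₀ (by linarith) (by linarith)]
    linarith
  have h7 : ∑ p ∈ P, (1 / ((p : ℝ) - 1)) ^ 2 ≤
      ∑ p ∈ Finset.Ioc z (P.sup id + z), (1 / ((p : ℝ) - 1)) ^ 2 :=
    Finset.sum_le_sum_of_subset_of_nonneg h2 fun p _ _ => sq_nonneg _
  linarith

end global

theorem p_bt : S_bt := by
  classical
  intro ι₁ ι₂ _ _ _ _ P z hz hPz f g B1 B2 hf hg
  set x : PJf P → ℝ := fun j => 1 / (((j : ℕ) : ℝ) - 1) with hx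
  have hx0 : ∀ j, 0 ≤ x j := fun j => by
    have h1 : (2 : ℝ) < ((j : ℕ) : ℝ) := by exact_mod_cast (lt_of_le_of_lt hz (hPz _ j.2))
    simp only [hx]
    apply div_nonneg zero_le_one
    linarith
  have hpw : ∀ a, 0 ≤ pw x a := fun a => Finset.prod_nonneg fun j _ => hx0 j
  change |bil x (ten f g) (ten f g) - bil x f f * bil x g g| ≤ _
  refine (tc_bt_diff x hx0 f g).trans ?_
  set y : PJf P → ℝ := fun j => (3 * Fintype.card ι₁ : ℝ) * x j with hy
  set w : PJf P → ℝ := fun j => (3 * Fintype.card ι₂ : ℝ) * x j with hw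
  have hy0 : ∀ j, 0 ≤ y j := fun j => mul_nonneg (by positivity) (hx0 j)
  have hw0 : ∀ j, 0 ≤ w j := fun j => mul_nonneg (by positivity) (hx0 j)
  have hnn : ∀ a : Finset (PJf P), nn (fun _ => 1) a ≤ 1 * 1 := by
    intro a
    unfold nn
    simp
  have hys : ∀ a : Finset (PJf P), ((3 * Fintype.card ι₁ : ℕ) : ℝ) ^ a.card * pw x a = pw y a := by
    intro a
    unfold pw
    rw [hy, Finset.prod_mul_distrib, Finset.prod_const]
    push_cast
    rfl
  have hws : ∀ a : Finset (PJf P), ((3 * Fintype.card ι₂ : ℕ) : ℝ) ^ a.card * pw x a = pw w a := by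
    intro a
    unfold pw
    rw [hw, Finset.prod_mul_distrib, Finset.prod_const]
    push_cast
    rfl
  -- the sum over the first pair
  have h1 : ∀ c : Finset (PJf P), (∑ α₁ : PJf P → Option ι₁, ∑ β₁ : PJf P → Option ι₁,
      if f α₁ ≠ 0 ∧ f β₁ ≠ 0 ∧ compat α₁ β₁ then |f α₁| * |f β₁| *
        (if (supp (join α₁ β₁) ∩ c).Nonempty then pw x (supp (join α₁ β₁)) else 0) else 0) ≤
      B1 ^ 2 * ∑ a : Finset (PJf P), if (a ∩ c).Nonempty then pw y a else 0 := by
    intro c
    have h2 := err_sum_leI (fun _ : PJf P => 1) (fun _ => le_rfl) f B1 1 hf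
      (fun α _ => by simpa using hnn (supp α))
      (fun a => if (a ∩ c).Nonempty then pw x a else 0) (fun a => by
        split_ifs
        · exact hpw a
        · exact le_rfl)
    refine h2.trans (le_of_eq ?_)
    congr 1
    rw [Finset.filter_true_of_mem (fun a _ => hnn a)]
    refine Finset.sum_congr rfl fun a _ => ?_
    rw [mul_ite, mul_zero, hys]
  have hE : ∀ c : Finset (PJf P),
      0 ≤ ∑ a : Finset (PJf P), (if (a ∩ c).Nonempty then pw y a else 0) := by
    intro c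
    refine Finset.sum_nonneg fun a _ => ?_
    split_ifs
    · exact Finset.prod_nonneg fun j _ => hy0 j
    · exact le_rfl
  have h3 := err_sum_leI (fun _ : PJf P => 1) (fun _ => le_rfl) g B2 1 hg
      (fun α _ => by simpa using hnn (supp α))
      (fun c => pw x c * (B1 ^ 2 * ∑ a : Finset (PJf P), if (a ∩ c).Nonempty then pw y a else 0))
      (fun c => mul_nonneg (hpw c) (mul_nonneg (sq_nonneg _) (hE c)))
  refine le_trans ?_ (h3.trans ?_)
  · refine Finset.sum_le_sum fun α₂ _ => Finset.sum_le_sum fun β₂ _ => ?_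
    split_ifs with h
    · refine mul_le_mul_of_nonneg_left ?_ (by positivity)
      exact mul_le_mul_of_nonneg_left (h1 _) (hpw _)
    · exact le_rfl
  · rw [Finset.filter_true_of_mem (fun a _ => hnn a)]
    have h4 : ∑ c : Finset (PJf P), ((3 * Fintype.card ι₂ : ℕ) : ℝ) ^ c.card *
        (pw x c * (B1 ^ 2 * ∑ a : Finset (PJf P), if (a ∩ c).Nonempty then pw y a else 0)) =
        B1 ^ 2 * ∑ c : Finset (PJf P), ∑ a : Finset (PJf P),
          (if (a ∩ c).Nonempty then pw y a * pw w c else 0) := by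
      rw [Finset.mul_sum]
      refine Finset.sum_congr rfl fun c _ => ?_
      rw [← mul_assoc, hws, mul_left_comm, Finset.mul_sum]
      congr 1
      refine Finset.sum_congr rfl fun a _ => ?_
      split_ifs
      · ring
      · ring
    rw [h4]
    have h5 := tc_bt_pairs y w hy0 hw0
    have h6 : ∑ j, y j * w j ≤ 9 * Fintype.card ι₁ * Fintype.card ι₂ * (2 / z : ℝ) := by
      have h7 : ∑ j, y j * w j = 9 * Fintype.card ι₁ * Fintype.card ι₂ *
          ∑ p ∈ P, (1 / ((p : ℝ) - 1)) ^ 2 := by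
        rw [Finset.mul_sum, ← Finset.sum_coe_sort P]
        refine Finset.sum_congr rfl fun j _ => ?_
        simp only [hy, hw, hx]
        ring
      rw [h7]
      exact mul_le_mul_of_nonneg_left (tc_bt_tel z hz P hPz) (by positivity)
    have h8 : 0 ≤ (∏ i, (1 + y i)) * ∏ i, (1 + w i) :=
      mul_nonneg (Finset.prod_nonneg fun i _ => by have := hy0 i; linarith)
        (Finset.prod_nonneg fun i _ => by have := hw0 i; linarith)
    calc B2 ^ 2 * (B1 ^ 2 * ∑ c : Finset (PJf P), ∑ a : Finset (PJf P),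
          (if (a ∩ c).Nonempty then pw y a * pw w c else 0))
        ≤ B2 ^ 2 * (B1 ^ 2 * ((∑ j, y j * w j) * ((∏ i, (1 + y i)) * ∏ i, (1 + w i)))) := by
          refine mul_le_mul_of_nonneg_left ?_ (sq_nonneg _)
          exact mul_le_mul_of_nonneg_left h5 (sq_nonneg _)
      _ ≤ B2 ^ 2 * (B1 ^ 2 * ((9 * Fintype.card ι₁ * Fintype.card ι₂ * (2 / z : ℝ)) *
          ((∏ i, (1 + y i)) * ∏ i, (1 + w i)))) := by
          refine mul_le_mul_of_nonneg_left ?_ (sq_nonneg _)
          refine mul_le_mul_of_nonneg_left ?_ (sq_nonneg _)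
          exact mul_le_mul_of_nonneg_right h6 h8
      _ = _ := by
          rw [mul_pow]
          ring

end Pool.Agent.TC.W
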