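import Pool.Agent.Lib.MP_0da313_nt.TC.M

set_option autoImplicit false

/-!
Project TC, section M: the Bombieri-Vinogradov theorem for the windows.
-/

namespace Pool.Agent.TC.M

open Finset Filter
open Pool.Agent.CH (thP)
open Pool.Agent.CM (wd sA sT er CP BVc)

private lemma tc_bvw_root (C : ℕ) (hC : 1 ≤ C) :
    ∀ᶠ n : ℕ in atTop, (C : ℝ) * (n : ℝ) ^ (1 / 2 : ℝ) ≤ n := by
  have hcast : Tendsto (fun n : ℕ => (n : ℝ)) atTop atTop := tendsto_natCast_atTop_atTop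
  have h1 := (tendsto_rpow_atTop (show (0 : ℝ) < 1 / 2 by norm_num)).comp hcast
  filter_upwards [h1.eventually (eventually_ge_atTop (C : ℝ)), eventually_gt_atTop 0] with n h2 h3
  have hn : (0 : ℝ) < n := by exact_mod_cast h3
  have h4 : (C : ℝ) ≤ (n : ℝ) ^ (1 / 2 : ℝ) := h2
  calc (C : ℝ) * (n : ℝ) ^ (1 / 2 : ℝ) ≤ (n : ℝ) ^ (1 / 2 : ℝ) * (n : ℝ) ^ (1 / 2 : ℝ) :=
        mul_le_mul_of_nonneg_right h4 (by positivity)
    _ = n := by
        rw [← Real.rpow_add hn]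
        norm_num

theorem p_bvw : S_bvw := by
  intro hB lam U C b A hlam hU hC
  have hC1 : (1 : ℝ) ≤ C := by exact_mod_cast hC
  have hCpos : (0 : ℝ) < C := by linarith
  have hcast : Tendsto (fun n : ℕ => (n : ℝ)) atTop atTop := tendsto_natCast_atTop_atTop
  have h1 := (hB lam hlam).1 (A + 1) U b (1 / 4) hU (by norm_num)
  rw [eventually_atTop] at h1
  obtain ⟨X0, hX0⟩ := h1
  filter_upwards [hcast.eventually (eventually_ge_atTop (C * X0)), tc_bvw_root C hC,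
    hcast.eventually (Real.tendsto_log_atTop.eventually_ge_atTop ((C : ℝ) * 2 ^ (A + 1))),
    eventually_ge_atTop 3] with n hn0 hroot hlogn hn3 X hX1 hX2 c hc
  have hn1 : (1 : ℝ) < n := by exact_mod_cast (show 1 < n by omega)
  have hn : (0 : ℝ) < n := by linarith
  have hlog : 0 < Real.log n := Real.log_pos hn1
  have hXX0 : X0 ≤ X := by
    have h2 : (C : ℝ) * X0 ≤ C * X := hn0.trans hX1
    exact le_of_mul_le_mul_left h2 hCpos
  have hXr : (n : ℝ) ^ (1 / 2 : ℝ) ≤ X := by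
    have h2 : (C : ℝ) * (n : ℝ) ^ (1 / 2 : ℝ) ≤ C * X := hroot.trans hX1
    exact le_of_mul_le_mul_left h2 hCpos
  have hrpos : 0 < (n : ℝ) ^ (1 / 2 : ℝ) := by positivity
  have hXpos : 0 < X := lt_of_lt_of_le hrpos hXr
  have h2 := hX0 X hXX0 thP rfl c hc
  have hlev : (n : ℝ) ^ (1 / 1000 : ℝ) ≤ X ^ (1 / 2 - 1 / 4 : ℝ) := by
    calc (n : ℝ) ^ (1 / 1000 : ℝ) ≤ (n : ℝ) ^ ((1 / 2 : ℝ) * (1 / 2 - 1 / 4 : ℝ)) :=
          Real.rpow_le_rpow_of_exponent_le hn1.le (by norm_num)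
      _ = ((n : ℝ) ^ (1 / 2 : ℝ)) ^ (1 / 2 - 1 / 4 : ℝ) := Real.rpow_mul hn.le _ _
      _ ≤ _ := Real.rpow_le_rpow hrpos.le hXr (by norm_num)
  have hfl : ⌊(n : ℝ) ^ (1 / 1000 : ℝ)⌋₊ ≤ ⌊X ^ (1 / 2 - 1 / 4 : ℝ)⌋₊ :=
    Nat.floor_le_floor hlev
  refine le_trans (Finset.sum_le_sum_of_subset_of_nonneg ?_ ?_) (h2.trans ?_)
  · intro q hq
    rw [Finset.mem_filter, Finset.mem_Icc] at hq ⊢
    exact ⟨⟨hq.1.1, hq.1.2.trans hfl⟩, hq.2⟩
  · intro q _ _
    apply mul_nonneg (by positivity)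
    exact abs_nonneg _
  · have hlX : Real.log n / 2 ≤ Real.log X := by
      have h6 := Real.log_le_log hrpos hXr
      rw [Real.log_rpow hn] at h6
      linarith
    have h7 : (Real.log n / 2) ^ (A + 1) ≤ Real.log X ^ (A + 1) :=
      pow_le_pow_left₀ (by positivity) hlX _
    calc X / Real.log X ^ (A + 1) ≤ C * n / (Real.log n / 2) ^ (A + 1) := by
          apply div_le_div₀ (by positivity) hX2 (by positivity) h7
      _ = (C * 2 ^ (A + 1)) * n / (Real.log n) ^ (A + 1) := by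
          rw [div_pow]
          field_simp
      _ ≤ Real.log n * n / (Real.log n) ^ (A + 1) := by
          apply div_le_div_of_nonneg_right _ (by positivity)
          exact mul_le_mul_of_nonneg_right hlogn hn.le
      _ = n / (Real.log n) ^ A := by
          rw [pow_succ]
          field_simp

end Pool.Agent.TC.M
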