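import Pool.Agent.Lib.MP_0da313_nt.TC.F

set_option autoImplicit false

/-!
[TC cf]: linear polynomials in two variables.
-/

namespace Pool.Agent.TC.F

open Pool.Agent.Lib.MP_0da313_nt (val)

/-- A polynomial of degree at most one is the sum of its three terms. -/
private theorem tc_cf_key (f : MvPolynomial (Fin 2) ℤ) (hf : f.totalDegree ≤ 1) :
    f = MvPolynomial.C (f.coeff 0) +
      MvPolynomial.C (f.coeff (Finsupp.single 0 1)) * MvPolynomial.X 0 +
      MvPolynomial.C (f.coeff (Finsupp.single 1 1)) * MvPolynomial.X 1 := by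
  ext s
  rw [MvPolynomial.coeff_add, MvPolynomial.coeff_add, MvPolynomial.coeff_C,
    MvPolynomial.coeff_C_mul, MvPolynomial.coeff_C_mul, MvPolynomial.coeff_X,
    MvPolynomial.coeff_X]
  have h01 : (Finsupp.single (0 : Fin 2) 1 : Fin 2 →₀ ℕ) ≠ 0 := by simp
  have h11 : (Finsupp.single (1 : Fin 2) 1 : Fin 2 →₀ ℕ) ≠ 0 := by simp
  have hne : (Finsupp.single (0 : Fin 2) 1 : Fin 2 →₀ ℕ) ≠ Finsupp.single 1 1 := by
    intro h
    have := DFunLike.congr_fun h 0
    simp at this
  by_cases h0 : 0 = s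
  · subst h0
    simp [h01, h11]
  by_cases h1 : Finsupp.single 0 1 = s
  · subst h1
    simp [h0, hne.symm]
  by_cases h2 : Finsupp.single 1 1 = s
  · subst h2
    simp [h0, hne]
  rw [if_neg h0, if_neg h1, if_neg h2, mul_zero, mul_zero, add_zero, add_zero]
  by_contra hs
  have hs' : s ∈ f.support := MvPolynomial.mem_support_iff.2 hs
  have h3 := (MvPolynomial.le_totalDegree hs').trans hf
  rw [Finsupp.sum_fintype _ _ (fun _ => rfl), Fin.sum_univ_two] at h3
  have h4 : (s 0 = 0 ∧ s 1 = 0) ∨ (s 0 = 1 ∧ s 1 = 0) ∨ (s 0 = 0 ∧ s 1 = 1) := by omega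
  rcases h4 with ⟨g0, g1⟩ | ⟨g0, g1⟩ | ⟨g0, g1⟩
  · apply h0
    ext i
    fin_cases i
    · simp [g0]
    · simp [g1]
  · apply h1
    ext i
    fin_cases i
    · simp [g0]
    · simp [g1]
  · apply h2
    ext i
    fin_cases i
    · simp [g0]
    · simp [g1]

theorem p_cf : S_cf := by
  intro f hf x y
  have key := tc_cf_key f hf
  unfold val cx cy
  conv_lhs => rw [key]
  simp
  ring

end Pool.Agent.TC.F
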