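import Pool.Agent.Lib.MP_0da313_nt.TC.M
import Pool.Agent.Lib.MP_0da313_nt.CM.P.S0
import Pool.Agent.Lib.MP_0da313_nt.CM.P.one2
import Pool.Agent.Lib.MP_0da313_nt.BV.T1c

set_option autoImplicit false

/-!
Project TC, section M: the expansion of the difference between the pair sum and the model sum.
-/

namespace Pool.Agent.TC.M

open Finset Polynomial
open Filter hiding join
open Pool.Agent.MP89da58 (bil pw nn supp part kapD tri join compat mem_supp)
open Pool.Agent.MT (PJf ZI Dl Dl_cop LocD dvI sp sp_subset quad_expandI err_sum_leI)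
open Pool.Agent.BVall (om rhoW PK lev RepB Dens mem_PK dvd_eval_congr)
open Pool.Agent.Lib.MP_0da313_nt (W)
open Pool.Agent.CH (thP)
open Pool.Agent.CM (wd sA sT er Fam z0 mu CP BVc)
open Pool.Agent.CM.F (Pre)
open Pool.Agent.CM.G (Qd Qd_mem Qd_not_mem prod_Qd prodn_sp' Qd_per mem_sp)
open Pool.Agent.TC.W (qf)

/-- Splitting a sum over the points with a periodic condition into classes. -/
lemma tc_ex_cls (n q : ℕ) (hq : 0 < q) (Pd : ℤ → Prop) [DecidablePred Pd]
    (hper : ∀ x y : ℤ, (q : ℤ) ∣ x - y → (Pd x ↔ Pd y)) (h : ℕ → ℝ) :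
    ∑ x ∈ (Ioo 0 n).filter (fun x : ℕ => Pd (x : ℤ)), h x =
      ∑ c ∈ (range q).filter (fun c : ℕ => Pd (c : ℤ)),
        ∑ x ∈ (Ioo 0 n).filter (fun x => x ≡ c [MOD q]), h x := by
  have hmod : ∀ x : ℕ, (q : ℤ) ∣ (x : ℤ) - ((x % q : ℕ) : ℤ) := by
    intro x
    refine ⟨((x / q : ℕ) : ℤ), ?_⟩
    have h1 : q * (x / q) + x % q = x := Nat.div_add_mod x q
    have h2 : (q : ℤ) * ((x / q : ℕ) : ℤ) + ((x % q : ℕ) : ℤ) = x := by exact_mod_cast h1
    linarith
  rw [← Finset.sum_fiberwise_of_maps_to (g := fun x => x % q)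
    (t := (range q).filter (fun c : ℕ => Pd (c : ℤ)))]
  · apply Finset.sum_congr rfl
    intro c hc
    rw [Finset.mem_filter, Finset.mem_range] at hc
    apply Finset.sum_congr _ (fun _ _ => rfl)
    ext x
    simp only [Finset.mem_filter]
    unfold Nat.ModEq
    rw [Nat.mod_eq_of_lt hc.1]
    constructor
    · rintro ⟨⟨h1, _⟩, h3⟩
      exact ⟨h1, h3⟩
    · rintro ⟨h1, h3⟩
      refine ⟨⟨h1, ?_⟩, h3⟩
      rw [hper x c (h3 ▸ hmod x)]
      exact hc.2
  · intro x hx
    rw [Finset.mem_filter] at hx ⊢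
    refine ⟨Finset.mem_range.2 (Nat.mod_lt _ hq), ?_⟩
    rw [← hper _ _ (hmod x)]
    exact hx.2

section

variable {ι κ : Type} [Fintype ι] [DecidableEq ι] [Fintype κ] [DecidableEq κ] {D : ℕ}

lemma tc_ex_eval (F : Fam ι D) {n : ℕ} (hn : F.N0 ≤ n) (l : Option ι) (y : ℤ) :
    (F.G n).eval y = F.L n l y * (F.Gc n l).eval y := by
  rw [F.hG n hn l]
  simp [Fam.L, Fam.v]

lemma tc_ex_Lper (F : Fam ι D) (n : ℕ) (l : Option ι) {p : ℕ} {x y : ℤ}
    (h : (p : ℤ) ∣ x - y) : (p : ℤ) ∣ F.L n l x ↔ (p : ℤ) ∣ F.L n l y := by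
  have e : F.L n l x = F.L n l y + F.u l * (x - y) := by
    unfold Fam.L
    ring
  rw [e]
  exact (Int.dvd_add_left (h.mul_left _))

lemma tc_ex_Qper (F : Fam ι D) (n w z : ℕ) (i j : Option ι) (p : ℕ) (x y : ℤ)
    (h : (p : ℤ) ∣ x - y) : Q2 F n w z i j p x ↔ Q2 F n w z i j p y := by
  unfold Q2
  rw [dvd_eval_congr (F.G n) h, tc_ex_Lper F n j h, tc_ex_Lper F n i h]

omit [Fintype κ] [DecidableEq κ] in
lemma tc_ex_loc (F : Fam ι D) (e : κ → Option ι) (n : ℕ) (P : Finset ℕ) :
    LocD P (DE F e n P) (fun _ => False) := by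
  refine ⟨?_, fun _ _ h => absurd h not_false⟩
  intro j l x y h
  exact tc_ex_Lper F n (e l) h

open Classical in
/-- The sum for one set of small primes and one support. -/
lemma tc_ex_one (F : Fam ι D) {n N w z : ℕ} {P : Finset ℕ} (e : κ → Option ι) (i j : Option ι)
    (γ : PJf P → Option κ) (T : Finset ℕ) (hTp : ∀ p ∈ T, p.Prime) (hdisj : Disjoint T (sp γ))
    (hP : ∀ p ∈ P, p.Prime) (hn : F.N0 ≤ n)
    (hdet : ∀ p ∈ P, ∀ l l', l ≠ l' → ¬ (p : ℤ) ∣ F.u l * F.v n l' - F.u l' * F.v n l)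
    (hγ : ∀ p k, γ p = some k → e k ≠ i ∧ e k ≠ j)
    (hbig : ∀ x : ℕ, sq F N j (F.L n j x).toNat ≠ 0 → (w : ℤ) < F.L n i x) :
    |∑ x ∈ Ioo 0 n, (if dvI (DE F e n P) (x : ℤ) γ then
        sq F N j (F.L n j x).toNat * (thP (F.L n i x).toNat - Lw w (F.L n i x).toNat) *
          ∏ p ∈ T, r2 F n w z i j x p else 0)| ≤
      ∑ c ∈ Cq F n ((∏ p ∈ T, p) * nn (fun j : PJf P => (j : ℕ)) (supp γ)) i j,
        |Er F N w n i j ((∏ p ∈ T, p) * nn (fun j : PJf P => (j : ℕ)) (supp γ)) c| := by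
  set q := (∏ p ∈ T, p) * nn (fun j : PJf P => (j : ℕ)) (supp γ) with hq
  have hqprod : q = ∏ p ∈ T ∪ sp γ, p := (prodn_sp' hdisj).symm
  have hprime : ∀ p ∈ T ∪ sp γ, p.Prime := by
    intro p hp
    rcases Finset.mem_union.1 hp with h | h
    · exact hTp p h
    · exact hP p (sp_subset γ h)
  have hq0 : 0 < q := by
    rw [hqprod]
    exact Finset.prod_pos fun p hp => (hprime p hp).pos
  have hdvd : ∀ p ∈ T ∪ sp γ, p ∣ q := by
    intro p hp
    rw [hqprod]
    exact Finset.dvd_prod_of_mem _ hp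
  set Pd : ℤ → Prop := fun y => ∀ p ∈ T ∪ sp γ, Qd (DE F e n P) (Q2 F n w z i j) γ p y with hPd
  have hper : ∀ x y : ℤ, (q : ℤ) ∣ x - y → (Pd x ↔ Pd y) := by
    intro x y h
    have h1 : ∀ p ∈ T ∪ sp γ, (Qd (DE F e n P) (Q2 F n w z i j) γ p x ↔
        Qd (DE F e n P) (Q2 F n w z i j) γ p y) := by
      intro p hp
      exact Qd_per (tc_ex_loc F e n P) (tc_ex_Qper F n w z i j) p x y
        ((Int.natCast_dvd_natCast.2 (hdvd p hp)).trans h)
    exact forall₂_congr h1
  have e1 : ∑ x ∈ Ioo 0 n, (if dvI (DE F e n P) (x : ℤ) γ then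
        sq F N j (F.L n j x).toNat * (thP (F.L n i x).toNat - Lw w (F.L n i x).toNat) *
          ∏ p ∈ T, r2 F n w z i j x p else 0) =
      ∑ x ∈ (Ioo 0 n).filter (fun x : ℕ => Pd (x : ℤ)),
        sq F N j (F.L n j x).toNat * (thP (F.L n i x).toNat - Lw w (F.L n i x).toNat) := by
    rw [Finset.sum_filter]
    apply Finset.sum_congr rfl
    intro x _
    have h1 := prod_Qd (D := DE F e n P) (Q := Q2 F n w z i j) hdisj (x : ℤ)
    rw [Finset.prod_ite_zero, Finset.prod_const_one] at h1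
    have h2 : ∏ p ∈ T, r2 F n w z i j x p =
        ∏ p ∈ T, (if Q2 F n w z i j p (x : ℤ) then (1 : ℝ) else 0) := rfl
    rw [h2]
    by_cases hd : dvI (DE F e n P) (x : ℤ) γ
    · rw [if_pos hd, mul_one] at h1
      rw [if_pos hd, ← h1]
      by_cases hx : Pd x
      · rw [if_pos hx, if_pos hx, mul_one]
      · rw [if_neg hx, if_neg hx, mul_zero]
    · rw [if_neg hd, mul_zero] at h1
      rw [if_neg hd]
      by_cases hx : Pd x
      · rw [if_pos hx] at h1
        exact absurd h1 one_ne_zero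
      · rw [if_neg hx]
  rw [e1, tc_ex_cls n q hq0 Pd hper]
  refine (Finset.abs_sum_le_sum_abs _ _).trans ?_
  -- the facts at a good class
  have hspL : ∀ (p : ℕ) (hp : p ∈ sp γ) (c : ℕ), Pd (c : ℤ) →
      ∃ k, γ ⟨p, sp_subset γ hp⟩ = some k ∧ (p : ℤ) ∣ F.L n (e k) c := by
    intro p hp c hc
    obtain ⟨h1, k, h2⟩ := mem_sp.1 hp
    refine ⟨k, h2, ?_⟩
    have h3 := hc p (Finset.mem_union_right _ hp)
    exact (Qd_mem (D := DE F e n P) (Q := Q2 F n w z i j) ⟨p, h1⟩ h2 c).1 h3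
  have hG : ∀ c : ℕ, Pd (c : ℤ) → (q : ℤ) ∣ (F.G n).eval (c : ℤ) := by
    intro c hc
    rw [Int.natCast_dvd, hqprod]
    apply Finset.prod_primes_dvd
    · intro p hp
      exact (hprime p hp).prime
    · intro p hp
      rw [← Int.natCast_dvd]
      by_cases hps : p ∈ sp γ
      · obtain ⟨k, -, h2⟩ := hspL p hps c hc
        rw [tc_ex_eval F hn (e k)]
        exact h2.mul_right _
      · exact ((Qd_not_mem hps _).1 (hc p hp)).2.1
  have hzero : ∀ c : ℕ, Pd (c : ℤ) → c < q → c ∉ Cq F n q i j →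
      Er F N w n i j q c = 0 := by
    intro c hc hcq hnot
    have hnc : ¬ IsCoprime (q : ℤ) (F.L n i c * F.L n j c) := by
      intro h
      apply hnot
      unfold Cq
      rw [Finset.mem_filter, Finset.mem_range]
      exact ⟨hcq, hG c hc, h⟩
    rw [Int.isCoprime_iff_gcd_eq_one] at hnc
    have hnc2 : ¬ Nat.Coprime q (F.L n i c * F.L n j c).natAbs := hnc
    obtain ⟨p, hp, hpq, hpL⟩ := Nat.Prime.not_coprime_iff_dvd.1 hnc2
    rw [← Int.natCast_dvd] at hpL
    rw [hqprod, Prime.dvd_finsetProd_iff hp.prime] at hpq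
    obtain ⟨p', hp', hpp'⟩ := hpq
    rw [Nat.prime_dvd_prime_iff_eq hp (hprime p' hp')] at hpp'
    subst hpp'
    have hps : p ∉ sp γ := by
      intro hps
      obtain ⟨k, h1, h2⟩ := hspL p hps c hc
      obtain ⟨h3, h4⟩ := hγ _ k h1
      have hpP := sp_subset γ hps
      have key : ∀ l, e k ≠ l → ¬ (p : ℤ) ∣ F.L n l c := by
        intro l hl h
        apply hdet p hpP (e k) l hl
        have e' : F.u (e k) * F.v n l - F.u l * F.v n (e k) =
            F.u (e k) * F.L n l c - F.u l * F.L n (e k) c := by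
          unfold Fam.L
          ring
        rw [e']
        exact dvd_sub (h.mul_left _) (h2.mul_left _)
      rcases (Nat.prime_iff_prime_int.1 hp).dvd_mul.1 hpL with h5 | h5
      · exact key i h3 h5
      · exact key j h4 h5
    obtain ⟨-, -, h3, h4⟩ := (Qd_not_mem hps _).1 (hc p hp')
    have h5 : (p : ℤ) ∣ F.L n i c :=
      ((Nat.prime_iff_prime_int.1 hp).dvd_mul.1 hpL).resolve_right h3
    have h6 : p ≤ w := by
      by_contra hcon
      push Not at hcon
      exact h4 hcon h5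
    unfold Er
    apply Finset.sum_eq_zero
    intro x hx
    rw [Finset.mem_filter] at hx
    by_cases hs : sq F N j (F.L n j x).toNat = 0
    · rw [hs, zero_mul]
    · have h7 := hbig x hs
      have h8 : (p : ℤ) ∣ (x : ℤ) - (c : ℤ) := by
        have h9 : (q : ℤ) ∣ (x : ℤ) - (c : ℤ) := by
          have := (Nat.modEq_iff_dvd.1 hx.2.symm)
          exact this
        exact (Int.natCast_dvd_natCast.2 (hdvd p hp')).trans h9
      have h10 : (p : ℤ) ∣ F.L n i x := (tc_ex_Lper F n i h8).2 h5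
      have hw0 : (0 : ℤ) ≤ w := Int.natCast_nonneg w
      have h11 : (((F.L n i x).toNat : ℕ) : ℤ) = F.L n i x := Int.toNat_of_nonneg (by omega)
      have h12 : p ∣ (F.L n i x).toNat := by
        rw [← Int.natCast_dvd_natCast, h11]
        exact h10
      have h13 : w < (F.L n i x).toNat := by omega
      have h14 : thP (F.L n i x).toNat = 0 := by
        unfold thP
        rw [if_neg]
        intro hpr
        have := (Nat.prime_dvd_prime_iff_eq hp hpr).1 h12
        omega
      have h15 : Lw w (F.L n i x).toNat = 0 := by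
        unfold Lw
        rw [if_neg]
        intro h
        exact h p hp h6 h12
      rw [h14, h15, sub_zero, mul_zero]
  have hsub : ∀ c ∈ (range q).filter (fun c : ℕ => Pd (c : ℤ)),
      |∑ x ∈ (Ioo 0 n).filter (fun x => x ≡ c [MOD q]), sq F N j (F.L n j x).toNat *
        (thP (F.L n i x).toNat - Lw w (F.L n i x).toNat)| =
      if c ∈ Cq F n q i j then |Er F N w n i j q c| else 0 := by
    intro c hc
    rw [Finset.mem_filter, Finset.mem_range] at hc
    change |Er F N w n i j q c| = _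
    split_ifs with h
    · rfl
    · rw [hzero c hc.2 hc.1 h, abs_zero]
  rw [Finset.sum_congr rfl hsub, ← Finset.sum_filter]
  apply Finset.sum_le_sum_of_subset_of_nonneg
  · intro c hc
    exact (Finset.mem_filter.1 hc).2
  · intro c _ _
    exact abs_nonneg _

end

theorem p_ex : S_ex := by
  classical
  intro hloc hlob hes1 ι κ _ _ _ _ _ D F e he k B0 B B1 hblk hD hB0 hB1
  obtain ⟨-, C, hC, hloc⟩ := hloc ι D F
  have hwn : ∀ᶠ n : ℕ in atTop, (C : ℝ) * (Real.log n) ^ B1 < n := by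
    have h1 : ∀ᶠ x : ℝ in atTop, ‖Real.log x ^ B1‖ ≤ (1 / (2 * (C : ℝ))) * ‖x‖ :=
      (Real.isLittleO_pow_log_id_atTop (n := B1)).bound (by
        have : (0 : ℝ) < C := by exact_mod_cast (by omega : 0 < C)
        positivity)
    filter_upwards [tendsto_natCast_atTop_atTop.eventually h1, eventually_ge_atTop 1]
      with n hn h1n
    have hC0 : (0 : ℝ) < C := by exact_mod_cast (by omega : 0 < C)
    have hn0 : (0 : ℝ) < n := by exact_mod_cast (by omega : 0 < n)
    have hl0 : 0 ≤ Real.log (n : ℝ) := Real.log_natCast_nonneg n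
    rw [Real.norm_of_nonneg (by positivity), Real.norm_of_nonneg hn0.le] at hn
    have h2 := mul_le_mul_of_nonneg_left hn hC0.le
    have h3 : (C : ℝ) * (1 / (2 * (C : ℝ)) * n) = n / 2 := by field_simp
    rw [h3] at h2
    linarith
  filter_upwards [eventually_forall_ge_atTop.2 hloc, hlob ι D F k hblk, hwn,
    eventually_ge_atTop F.N0, eventually_ge_atTop 3] with N gloc glob gwn gN0 gN3
  intro n hn n' P hpar Fp Fm hpre i j hij g hg
  have hn' := Finset.mem_Ioc.1 hn
  have hNn : N ≤ n := hn'.1.le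
  have hn2N : n ≤ 2 * N := by
    have : N / k ≤ N := Nat.div_le_self _ _
    omega
  have hN0 : (0 : ℝ) < N := by exact_mod_cast (by omega : 0 < N)
  have hn0 : (0 : ℝ) < n := by exact_mod_cast (by omega : 0 < n)
  have hN1 : (1 : ℝ) ≤ N := by exact_mod_cast (by omega : 1 ≤ N)
  have hnN0 : F.N0 ≤ n := le_trans gN0 hNn
  set w := wN B1 N with hw
  have hPp : ∀ p ∈ P, p.Prime := fun p hp => (hpar.hP p hp).1
  -- the values of the forms are large
  have hbig : ∀ x : ℕ, sq F N j (F.L n j x).toNat ≠ 0 → (w : ℤ) < F.L n i x := by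
    intro x hx
    have h1 : thP (F.L n j x).toNat ≠ 0 := left_ne_zero_of_mul hx
    have h2 : wd (la4 F j) (F.t j * N) (F.L n j x).toNat ≠ 0 := right_ne_zero_of_mul hx
    have h3 : (F.L n j x).toNat ≠ 0 := by
      intro h
      apply h1
      rw [h]
      simp [thP]
    have hpos : 0 < F.L n j x := by omega
    obtain ⟨hnear, -⟩ := glob n hn x j hpos h2
    obtain ⟨-, gl2, -, -⟩ := gloc n hNn
    have h4 : |((x : ℤ) : ℝ) - F.xi * n| ≤ 2 * (F.hw * n) := by
      unfold Near at hnear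
      refine hnear.trans ?_
      have : 0 ≤ F.hw * n := mul_nonneg F.hhw.le hn0.le
      linarith
    obtain ⟨-, -, h5⟩ := gl2 x h4
    have h6 := (h5 i).1
    have hC0 : (0 : ℝ) < C := by exact_mod_cast (by omega : 0 < C)
    have h7 : (w : ℝ) ≤ (Real.log N) ^ B1 := by
      apply Nat.floor_le
      have := Real.log_natCast_nonneg N
      positivity
    have h8 : (C : ℝ) * w < C * (F.L n i x : ℝ) := by
      calc (C : ℝ) * w ≤ C * (Real.log N) ^ B1 := mul_le_mul_of_nonneg_left h7 hC0.le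
        _ < N := gwn
        _ ≤ n := by exact_mod_cast hNn
        _ ≤ _ := h6
    have h9 : (w : ℝ) < (F.L n i x : ℝ) := lt_of_mul_lt_mul_left h8 hC0.le
    exact_mod_cast h9
  -- the error function
  set E : ℕ → ℝ := fun q => ∑ c ∈ Cq F n q i j, |Er F N w n i j q c| with hE
  have hE0 : ∀ q, 0 ≤ E q := fun q => Finset.sum_nonneg fun c _ => abs_nonneg _
  set Y0 := lev (2 * D) n' ^ 3 with hY0
  set P1 := PK (2 * D) n' with hP1
  set e1 : Finset (PJf P) → ℝ := fun A =>
    ∑ T ∈ P1.powerset.filter (fun T => ∏ p ∈ T, p ≤ Y0 ∧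
        Disjoint T (A.map (Function.Embedding.subtype _))),
      3 * (((1 : ℕ) : ℝ) ^ (T.card + A.card) *
        E ((∏ p ∈ T, p) * nn (fun j : PJf P => (j : ℕ)) A)) with he1
  have he10 : ∀ A, 0 ≤ e1 A := fun A => Finset.sum_nonneg fun T _ =>
    mul_nonneg (by norm_num) (mul_nonneg (by positivity) (hE0 _))
  have hP1P : ∀ p ∈ P1, p ∉ P := by
    intro p hp hpP
    have h1 : p ≤ z0 D n' := (mem_PK.1 hp).2
    have h2 := (hpar.hP p hpP).2.1
    omega
  obtain ⟨cc, hc1, hc2, hc3⟩ := hpre.rm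
  have key := quad_expandI (DE F e n P)
    (Dl_cop (P := P) (u := fun k => F.u (e k)) (v := fun k => F.v n (e k)) (fun p hp l l' hll =>
      hpar.hdet p hp (e l) (e l') (fun h => hll (he h))))
    (fun _ => (0 : ℝ)) g (Ioo 0 n) (fun x : ℕ => (x : ℤ))
    (fun x : ℕ => sq F N j (F.L n j x).toNat *
      (thP (F.L n i x).toNat - Lw w (F.L n i x).toNat) * Fm (r2 F n w (z0 D n') i j x))
    0 (fun γ => e1 (supp γ)) (by
      intro α β hα hβ _
      set γ := join α β with hγ
      rw [zero_mul, sub_zero]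
      have hγA : ∀ p l, γ p = some l → e l ≠ i ∧ e l ≠ j := by
        intro p l hl
        rcases hα' : α p with _ | m
        · have h1 : β p = some l := by
            simp only [hγ, join, hα', Option.orElse_none] at hl
            exact hl
          exact hg.ne β hβ p l h1
        · have h1 : m = l := by
            simp only [hγ, join, hα', Option.orElse_some] at hl
            exact Option.some.inj hl
          exact h1 ▸ hg.ne α hα p m hα'
      have e2 : ∑ x ∈ Ioo 0 n, (if dvI (DE F e n P) (x : ℤ) γ then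
            sq F N j (F.L n j x).toNat *
              (thP (F.L n i x).toNat - Lw w (F.L n i x).toNat) *
                Fm (r2 F n w (z0 D n') i j x) else 0) =
          ∑ T ∈ P1.powerset, cc T * ∑ x ∈ Ioo 0 n, (if dvI (DE F e n P) (x : ℤ) γ then
            sq F N j (F.L n j x).toNat *
              (thP (F.L n i x).toNat - Lw w (F.L n i x).toNat) *
                ∏ p ∈ T, r2 F n w (z0 D n') i j x p else 0) := by
        simp only [Finset.mul_sum]
        rw [Finset.sum_comm]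
        apply Finset.sum_congr rfl
        intro x _
        rw [hc1]
        split_ifs
        · rw [Finset.mul_sum]
          apply Finset.sum_congr rfl
          intro T _
          ring
        · simp
      rw [e2]
      refine (Finset.abs_sum_le_sum_abs _ _).trans ?_
      simp only [he1]
      rw [Finset.sum_filter]
      refine Finset.sum_le_sum fun T hT => ?_
      have hTP := Finset.mem_powerset.1 hT
      have hTp : ∀ p ∈ T, p.Prime := fun p hp => (mem_PK.1 (hTP hp)).1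
      have hdisj : Disjoint T (sp γ) := by
        rw [Finset.disjoint_left]
        intro p hp hp'
        exact hP1P p (hTP hp) (sp_subset γ hp')
      have hR0 : 0 ≤ 3 * (((1 : ℕ) : ℝ) ^ (T.card + (supp γ).card) *
          E ((∏ p ∈ T, p) * nn (fun j : PJf P => (j : ℕ)) (supp γ))) :=
        mul_nonneg (by norm_num) (mul_nonneg (by positivity) (hE0 _))
      rw [abs_mul]
      by_cases hcT : cc T = 0
      · rw [hcT, abs_zero, zero_mul]
        split_ifs
        · exact hR0
        · exact le_rfl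
      · rw [if_pos ⟨hc3 T hT hcT, hdisj⟩]
        have h1 := tc_ex_one F (n := n) (N := N) (w := w) (z := z0 D n') e i j γ T hTp hdisj hPp
          hnN0 hpar.hdet hγA hbig
        have h2 := hc2 T
        have h3 : 0 ≤ E ((∏ p ∈ T, p) * nn (fun j : PJf P => (j : ℕ)) (supp γ)) := hE0 _
        rw [Nat.cast_one, one_pow, one_mul]
        refine (mul_le_mul h2 h1 (abs_nonneg _) (by norm_num)).trans ?_
        change 1 * E ((∏ p ∈ T, p) * nn (fun j : PJf P => (j : ℕ)) (supp γ)) ≤ _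
        linarith)
  rw [zero_mul, sub_zero] at key
  have esum : ∑ x ∈ Ioo 0 n, sq F N j (F.L n j x).toNat *
      ((thP (F.L n i x).toNat - Lw w (F.L n i x).toNat) *
        (Fm (r2 F n w (z0 D n') i j x) * ZI (DE F e n P) g x ^ 2)) =
      ∑ x ∈ Ioo 0 n, sq F N j (F.L n j x).toNat *
        (thP (F.L n i x).toNat - Lw w (F.L n i x).toNat) * Fm (r2 F n w (z0 D n') i j x) *
          ZI (DE F e n P) g x ^ 2 := by
    apply Finset.sum_congr rfl
    intro x _
    ring
  rw [esum]
  refine key.trans ?_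
  set Y := ⌊(n : ℝ) ^ (1 / 5000 : ℝ)⌋₊ with hY
  have h2 := err_sum_leI (fun j : PJf P => (j : ℕ)) (fun j => (hPp j.1 j.2).one_le) g B Y hg.bd
    (fun α hα => Nat.le_floor (hg.sup α hα)) e1 he10
  refine h2.trans ?_
  have hκ : 1 ≤ Fintype.card κ := Fintype.card_pos
  have h3 := hes1 P P1 hPp (fun p hp => (mem_PK.1 hp).1) (3 * Fintype.card κ) 1 Y Y0 (by omega)
    le_rfl E hE0
  rw [show 2 * (3 * Fintype.card κ) * 1 = 6 * Fintype.card κ by ring] at h3
  have hYN : Y * Y * Y0 ≤ ⌊(N : ℝ) ^ (1 / 1000 : ℝ)⌋₊ := by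
    apply Nat.le_floor
    push_cast
    have hY1 : (Y : ℝ) ≤ (n : ℝ) ^ (1 / 5000 : ℝ) := Nat.floor_le (by positivity)
    have hY2 : (Y0 : ℝ) ≤ (n : ℝ) ^ (1 / 10000 : ℝ) := by
      rw [hY0]
      push_cast
      exact hpar.hlev
    calc (Y : ℝ) * Y * Y0 ≤ (n : ℝ) ^ (1 / 5000 : ℝ) * (n : ℝ) ^ (1 / 5000 : ℝ) *
          (n : ℝ) ^ (1 / 10000 : ℝ) := by
          apply mul_le_mul _ hY2 (Nat.cast_nonneg _) (by positivity)
          exact mul_le_mul hY1 hY1 (Nat.cast_nonneg _) (by positivity)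
      _ = (n : ℝ) ^ (1 / 2000 : ℝ) := by
          rw [← Real.rpow_add hn0, ← Real.rpow_add hn0]
          norm_num
      _ ≤ ((N : ℝ) ^ (2 : ℝ)) ^ (1 / 2000 : ℝ) := by
          apply Real.rpow_le_rpow hn0.le _ (by norm_num)
          rw [Real.rpow_two]
          have h4 : (n : ℝ) ≤ 2 * N := by exact_mod_cast hn2N
          have h5 : (3 : ℝ) ≤ N := by exact_mod_cast gN3
          nlinarith
      _ = (N : ℝ) ^ (1 / 1000 : ℝ) := by
          rw [← Real.rpow_mul hN0.le]
          norm_num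
  have h4 : ∑ q ∈ (Icc 1 (Y * Y * Y0)).filter Squarefree,
      ((6 * Fintype.card κ : ℕ) : ℝ) ^ q.primeFactors.card * E q ≤
      ErS F N w n (6 * Fintype.card κ) i j := by
    unfold ErS
    apply Finset.sum_le_sum_of_subset_of_nonneg
    · intro q hq
      rw [Finset.mem_filter, Finset.mem_Icc] at hq ⊢
      exact ⟨⟨hq.1.1, hq.1.2.trans hYN⟩, hq.2⟩
    · intro q _ _
      exact mul_nonneg (by positivity) (hE0 q)
  calc (B : ℝ) ^ 2 * ∑ a ∈ (univ : Finset (Finset (PJf P))).filter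
          (fun a => nn (fun j : PJf P => (j : ℕ)) a ≤ Y * Y),
          ((3 * Fintype.card κ : ℕ) : ℝ) ^ a.card * e1 a
      ≤ (B : ℝ) ^ 2 * (3 * ∑ q ∈ (Icc 1 (Y * Y * Y0)).filter Squarefree,
          ((6 * Fintype.card κ : ℕ) : ℝ) ^ q.primeFactors.card * E q) :=
        mul_le_mul_of_nonneg_left h3 (sq_nonneg _)
    _ ≤ (B : ℝ) ^ 2 * (3 * ErS F N w n (6 * Fintype.card κ) i j) := by
        apply mul_le_mul_of_nonneg_left _ (sq_nonneg _)
        linarith
    _ = 3 * (B : ℝ) ^ 2 * ErS F N w n (6 * Fintype.card κ) i j := by ring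

end Pool.Agent.TC.M
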