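import Pool.Agent.Lib.MP_0da313_nt.TC.F
import Pool.Agent.Lib.MP_0da313_nt.CM.P.fin
import Pool.Agent.Lib.MP_0da313_nt.CM.Fin2
import Pool.Agent.Lib.MP_0da313_nt.MT.Core

set_option autoImplicit false

/-!
[TC fin2]: the final theorem for two clusters.
-/

namespace Pool.Agent.TC.F

open Finset Filter Polynomial
open ArithmeticFunction (cardFactors)
open Pool.Agent.BVall (om rhoW PK lev RepB Dens mem_PK)
open Pool.Agent.Lib.MP_0da313_nt (Admissible lineRestrict val singV W small nroots abs_val_le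
  eval_lineRestrict)
open Pool.Agent.MT (choose_levS ev_err card_unit_le good_of_rough singV_le level_facts dens_poly
  W_ge card_filter_sub)
open Pool.Agent.CM (Fam z0)
open Pool.Agent.CM.F (cm_fin_V cm_fin_sing)

open Classical in
/-- The end of the proof for a fixed `n`. -/
private theorem tc_fin2_n {m d : ℕ} {c0 c : ℝ} (hc : 0 < c) (hD : 1 ≤ m * d)
    {ι : Type} [Fintype ι] [DecidableEq ι] (F : Fam ι (m * d))
    (f : Fin m → MvPolynomial (Fin 2) ℤ) (hdeg : ∀ k, (f k).totalDegree ≤ d)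
    (I J : Finset (Fin m)) (em : {k // k ∈ I} ⊕ {k // k ∈ J} → Option ι)
    {Cf : Fin m → ℕ}
    (hCf : ∀ k, ∀ n : ℕ, 1 ≤ n → ∀ x y : ℤ, |x| ≤ n → |y| ≤ n →
      |val (f k) x y| ≤ Cf k * (n : ℤ) ^ d)
    {n n' B0 : ℕ} (hB01 : 1 ≤ B0) (hCz : (∑ k, Cf k) + 2 ≤ z0 (m * d) n')
    (hzB : n ≤ z0 (m * d) n' ^ B0) (hN0 : F.N0 ≤ n)
    (hFG : F.G n = ∏ k, lineRestrict (f k) n)
    (hirr : ∀ k, Irreducible (lineRestrict (f k) n))
    (hloc : ∀ p : ℕ, p.Prime → ¬ ∀ x : ℤ, (p : ℤ) ∣ ∏ k, (lineRestrict (f k) n).eval x)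
    (hL1 : ∀ (i : {k // k ∈ I}) (x : ℤ),
      (F.L n (em (Sum.inl i)) x).natAbs = (val (f i) x ((n : ℤ) - x)).natAbs)
    (hL2 : ∀ (j : {k // k ∈ J}) (x : ℤ),
      (F.L n (em (Sum.inr j)) x).natAbs = (val (f j) x ((n : ℤ) - x)).natAbs)
    (hn5 : (100000 : ℝ) ≤ n) (hl3 : (2 : ℝ) ^ (2 * (m * d) + n') ≤ Real.log n)
    (h2 : 2 * ((m * d : ℕ) : ℝ) * (n : ℝ) ^ (0 : ℝ) ≤
      n * (c / 2 * (∏ p ∈ small (2 * (m * d)), (1 / (p : ℝ))) *
        (1 / (Real.log n) ^ (8 * (m * d)))))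
    (hmain : c * (n * F.V n n') ≤ (((Ioo 0 n).filter (fun x : ℕ => F.Rg n (z0 (m * d) n') x ∧
      (c0 * Real.log (Fintype.card {k // k ∈ I}) ≤
        ((univ.filter (fun i : {k // k ∈ I} =>
          (F.L n (em (Sum.inl i)) x).natAbs.Prime)).card : ℝ) ∧
      1 ≤ (univ.filter (fun i : {k // k ∈ I} =>
        (F.L n (em (Sum.inl i)) x).natAbs.Prime)).card) ∧
      (c0 * Real.log (Fintype.card {k // k ∈ J}) ≤
        ((univ.filter (fun j : {k // k ∈ J} =>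
          (F.L n (em (Sum.inr j)) x).natAbs.Prime)).card : ℝ) ∧
      1 ≤ (univ.filter (fun j : {k // k ∈ J} =>
        (F.L n (em (Sum.inr j)) x).natAbs.Prime)).card))).card : ℝ)) :
    c / 2 * (n * singV f n) ≤
    (Set.ncard {x : ℕ | 0 < x ∧ x < n ∧
      (c0 * Real.log I.card ≤
          ((I.filter (fun k => (val (f k) x ((n : ℤ) - x)).natAbs.Prime)).card : ℝ) ∧
        1 ≤ (I.filter (fun k => (val (f k) x ((n : ℤ) - x)).natAbs.Prime)).card) ∧
      (c0 * Real.log J.card ≤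
          ((J.filter (fun k => (val (f k) x ((n : ℤ) - x)).natAbs.Prime)).card : ℝ) ∧
        1 ≤ (J.filter (fun k => (val (f k) x ((n : ℤ) - x)).natAbs.Prime)).card) ∧
      ∀ k, 1 < |val (f k) x ((n : ℤ) - x)| ∧
      (∀ p : ℕ, p.Prime → (p : ℤ) ∣ val (f k) x ((n : ℤ) - x) → n < p ^ B0) ∧
      cardFactors (val (f k) x ((n : ℤ) - x)).natAbs ≤ B0 * d} : ℝ) := by
  have hn0 : (0 : ℝ) < n := by linarith only [hn5]
  have hVge := cm_fin_V F hD hN0 hl3
  set c1 : ℝ := ∏ p ∈ small (2 * (m * d)), (1 / (p : ℝ)) with hc1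
  have hsing := cm_fin_sing F f hFG hloc hn5 hl3
  set U := (Ioo 0 n).filter (fun x : ℕ => ∃ k, (lineRestrict (f k) n).eval (x : ℤ) ^ 2 - 1 = 0)
    with hU
  have hUc : U.card ≤ 2 * (m * d) := by
    rw [hU]
    convert card_unit_le f hdeg hirr (Ioo 0 n)
  have ecI : ∀ x : ℕ, (univ.filter (fun i : {k // k ∈ I} =>
      (F.L n (em (Sum.inl i)) x).natAbs.Prime)).card =
      (I.filter (fun k => (val (f k) x ((n : ℤ) - x)).natAbs.Prime)).card := by
    intro x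
    rw [← card_filter_sub I (fun k => (val (f k) x ((n : ℤ) - x)).natAbs.Prime)]
    congr 1
    apply Finset.filter_congr
    intro i _
    rw [hL1]
  have ecJ : ∀ x : ℕ, (univ.filter (fun i : {k // k ∈ J} =>
      (F.L n (em (Sum.inr i)) x).natAbs.Prime)).card =
      (J.filter (fun k => (val (f k) x ((n : ℤ) - x)).natAbs.Prime)).card := by
    intro x
    rw [← card_filter_sub J (fun k => (val (f k) x ((n : ℤ) - x)).natAbs.Prime)]
    congr 1
    apply Finset.filter_congr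
    intro i _
    rw [hL2]
  set Gd := (Ioo 0 n).filter (fun x : ℕ => F.Rg n (z0 (m * d) n') x ∧
      (c0 * Real.log (Fintype.card {k // k ∈ I}) ≤
        ((univ.filter (fun i : {k // k ∈ I} =>
          (F.L n (em (Sum.inl i)) x).natAbs.Prime)).card : ℝ) ∧
      1 ≤ (univ.filter (fun i : {k // k ∈ I} =>
        (F.L n (em (Sum.inl i)) x).natAbs.Prime)).card) ∧
      (c0 * Real.log (Fintype.card {k // k ∈ J}) ≤
        ((univ.filter (fun j : {k // k ∈ J} =>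
          (F.L n (em (Sum.inr j)) x).natAbs.Prime)).card : ℝ) ∧
      1 ≤ (univ.filter (fun j : {k // k ∈ J} =>
        (F.L n (em (Sum.inr j)) x).natAbs.Prime)).card)) with hGd
  set good := (Ioo 0 n).filter (fun x : ℕ =>
      (c0 * Real.log I.card ≤
          ((I.filter (fun k => (val (f k) x ((n : ℤ) - x)).natAbs.Prime)).card : ℝ) ∧
        1 ≤ (I.filter (fun k => (val (f k) x ((n : ℤ) - x)).natAbs.Prime)).card) ∧
      (c0 * Real.log J.card ≤
          ((J.filter (fun k => (val (f k) x ((n : ℤ) - x)).natAbs.Prime)).card : ℝ) ∧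
        1 ≤ (J.filter (fun k => (val (f k) x ((n : ℤ) - x)).natAbs.Prime)).card) ∧
      ∀ k, 1 < |val (f k) x ((n : ℤ) - x)| ∧
      (∀ p : ℕ, p.Prime → (p : ℤ) ∣ val (f k) x ((n : ℤ) - x) → n < p ^ B0) ∧
      cardFactors (val (f k) x ((n : ℤ) - x)).natAbs ≤ B0 * d) with hgood
  have hGsub : Gd ⊆ good ∪ U := by
    intro x hx
    rw [hGd, Finset.mem_filter] at hx
    obtain ⟨hxI, hxr, ⟨hx1, hx2⟩, hx3, hx4⟩ := hx
    have hxI' := Finset.mem_Ioo.1 hxI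
    by_cases hHx : ∃ k, (lineRestrict (f k) n).eval (x : ℤ) ^ 2 - 1 = 0
    · exact Finset.mem_union_right _ (Finset.mem_filter.2 ⟨hxI, hHx⟩)
    apply Finset.mem_union_left
    rw [hgood, Finset.mem_filter]
    have hrough : ∀ k, ∀ p : ℕ, p.Prime → (p : ℤ) ∣ val (f k) x ((n : ℤ) - x) →
        z0 (m * d) n' < p := by
      intro k p hp hdv
      by_contra hcon
      apply hxr p hp (by omega)
      rw [hFG, eval_prod]
      have h5 : (p : ℤ) ∣ (lineRestrict (f k) n).eval (x : ℤ) := by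
        rw [eval_lineRestrict]
        exact hdv
      exact h5.trans (Finset.dvd_prod_of_mem _ (Finset.mem_univ k))
    rw [ecI x, Fintype.card_coe] at hx1
    rw [ecI x] at hx2
    rw [ecJ x, Fintype.card_coe] at hx3
    rw [ecJ x] at hx4
    refine ⟨hxI, ⟨hx1, hx2⟩, ⟨hx3, hx4⟩, fun k => ?_⟩
    exact good_of_rough f hCf (z := z0 (m * d) n') hCz hzB hB01 hxI'.1 hxI'.2
        hrough (fun k h => hHx ⟨k, h⟩) k
  have hGc : (Gd.card : ℝ) ≤ good.card + 2 * ((m * d : ℕ) : ℝ) := by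
    have h11 := (Finset.card_le_card hGsub).trans (Finset.card_union_le _ _)
    have h12 : Gd.card ≤ good.card + 2 * (m * d) := by omega
    exact_mod_cast h12
  have hset : {x : ℕ | 0 < x ∧ x < n ∧
      (c0 * Real.log I.card ≤
          ((I.filter (fun k => (val (f k) x ((n : ℤ) - x)).natAbs.Prime)).card : ℝ) ∧
        1 ≤ (I.filter (fun k => (val (f k) x ((n : ℤ) - x)).natAbs.Prime)).card) ∧
      (c0 * Real.log J.card ≤
          ((J.filter (fun k => (val (f k) x ((n : ℤ) - x)).natAbs.Prime)).card : ℝ) ∧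
        1 ≤ (J.filter (fun k => (val (f k) x ((n : ℤ) - x)).natAbs.Prime)).card) ∧
      ∀ k, 1 < |val (f k) x ((n : ℤ) - x)| ∧
      (∀ p : ℕ, p.Prime → (p : ℤ) ∣ val (f k) x ((n : ℤ) - x) → n < p ^ B0) ∧
      cardFactors (val (f k) x ((n : ℤ) - x)).natAbs ≤ B0 * d} = (good : Set ℕ) := by
    ext x
    rw [hgood]
    simp only [Set.mem_ofPred_eq, Finset.coe_filter, Finset.mem_Ioo, and_assoc]
  rw [hset, Set.ncard_coe_finset]
  have h12 : 2 * ((m * d : ℕ) : ℝ) ≤ c / 2 * (n * F.V n n') := by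
    rw [Real.rpow_zero, mul_one] at h2
    refine h2.trans ?_
    calc (n : ℝ) * (c / 2 * c1 * (1 / Real.log n ^ (8 * (m * d)))) =
          c / 2 * (n * (c1 * (1 / Real.log n ^ (8 * (m * d))))) := by ring
      _ ≤ _ := by
          apply mul_le_mul_of_nonneg_left _ (by positivity)
          exact mul_le_mul_of_nonneg_left hVge hn0.le
  have h13 : c / 2 * (n * singV f n) ≤ c / 2 * (n * F.V n n') :=
    mul_le_mul_of_nonneg_left (mul_le_mul_of_nonneg_left hsing hn0.le) (by positivity)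
  linarith only [hGc, hmain, h12, h13]

open Classical in
/-- The exceptional set. -/
private def tc_fin2_S {m : ℕ} (d : ℕ) (c0 c : ℝ) (B : ℕ) (f : Fin m → MvPolynomial (Fin 2) ℤ)
    (I J : Finset (Fin m)) : Set ℕ :=
  {n : ℕ | ¬ (c * (n * singV f n) ≤
    (Set.ncard {x : ℕ | 0 < x ∧ x < n ∧
      (c0 * Real.log I.card ≤
          ((I.filter (fun k => (val (f k) x ((n : ℤ) - x)).natAbs.Prime)).card : ℝ) ∧
        1 ≤ (I.filter (fun k => (val (f k) x ((n : ℤ) - x)).natAbs.Prime)).card) ∧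
      (c0 * Real.log J.card ≤
          ((J.filter (fun k => (val (f k) x ((n : ℤ) - x)).natAbs.Prime)).card : ℝ) ∧
        1 ≤ (J.filter (fun k => (val (f k) x ((n : ℤ) - x)).natAbs.Prime)).card) ∧
      ∀ k, 1 < |val (f k) x ((n : ℤ) - x)| ∧
      (∀ p : ℕ, p.Prime → (p : ℤ) ∣ val (f k) x ((n : ℤ) - x) → n < p ^ B) ∧
      cardFactors (val (f k) x ((n : ℤ) - x)).natAbs ≤ B * d} : ℝ))}

/-- The exceptional set is monotone. -/
private theorem tc_fin2_mono {m : ℕ} (d : ℕ) (c0 : ℝ) {c c' : ℝ} (hc : c ≤ c') {B B' : ℕ}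
    (hB : B' ≤ B) (f : Fin m → MvPolynomial (Fin 2) ℤ) (I J : Finset (Fin m)) :
    tc_fin2_S d c0 c B f I J ⊆ tc_fin2_S d c0 c' B' f I J := by
  intro n hn hcon
  apply hn
  have h1 : c * (n * singV f n) ≤ c' * (n * singV f n) :=
    mul_le_mul_of_nonneg_right hc (mul_nonneg (Nat.cast_nonneg _) (Pool.Agent.CM.singV_nonneg f n))
  refine h1.trans (hcon.trans ?_)
  refine Nat.cast_le.2 (Set.ncard_le_ncard ?_ ((Set.finite_lt_nat n).subset fun x hx => hx.2.1))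
  rintro x ⟨g1, g2, g3, g4, g5⟩
  refine ⟨g1, g2, g3, g4, fun k => ⟨(g5 k).1, fun p hp hd => ?_, ?_⟩⟩
  · exact ((g5 k).2.1 p hp hd).trans_le (Nat.pow_le_pow_right hp.pos hB)
  · exact (g5 k).2.2.trans (Nat.mul_le_mul_right d hB)

/-- The positions of the members of `I` and `J` in the family. -/
private def tc_fin2_em {m : ℕ} (I J : Finset (Fin m)) (k0 : Fin m) :
    {k // k ∈ I} ⊕ {k // k ∈ J} → Option {k // k ∈ (I ∪ J).erase k0}
  | Sum.inl i => if h : (i : Fin m) = k0 then none else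
      some ⟨i, Finset.mem_erase.2 ⟨h, Finset.mem_union_left _ i.2⟩⟩
  | Sum.inr j => if h : (j : Fin m) = k0 then none else
      some ⟨j, Finset.mem_erase.2 ⟨h, Finset.mem_union_right _ j.2⟩⟩

private theorem tc_fin2_ixl {m : ℕ} (I J : Finset (Fin m)) (k0 : Fin m) (i : {k // k ∈ I}) :
    CM.L.ix k0 (tc_fin2_em I J k0 (Sum.inl i)) = (i : Fin m) := by
  unfold tc_fin2_em
  by_cases h : (i : Fin m) = k0
  · simp only [dif_pos h]
    exact h.symm
  · simp only [dif_neg h]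
    rfl

private theorem tc_fin2_ixr {m : ℕ} (I J : Finset (Fin m)) (k0 : Fin m) (j : {k // k ∈ J}) :
    CM.L.ix k0 (tc_fin2_em I J k0 (Sum.inr j)) = (j : Fin m) := by
  unfold tc_fin2_em
  by_cases h : (j : Fin m) = k0
  · simp only [dif_pos h]
    exact h.symm
  · simp only [dif_neg h]
    rfl

private theorem tc_fin2_inj {m : ℕ} (I J : Finset (Fin m)) (k0 : Fin m) (hIJ : ∀ k ∈ I, k ∉ J) :
    Function.Injective (tc_fin2_em I J k0) := by
  intro a b hab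
  have h := congrArg (CM.L.ix k0) hab
  rcases a with a | a <;> rcases b with b | b
  · rw [tc_fin2_ixl, tc_fin2_ixl] at h
    rw [Subtype.ext h]
  · rw [tc_fin2_ixl, tc_fin2_ixr] at h
    exact absurd b.2 (h ▸ hIJ a a.2)
  · rw [tc_fin2_ixr, tc_fin2_ixl] at h
    exact absurd a.2 (h.symm ▸ hIJ b b.2)
  · rw [tc_fin2_ixr, tc_fin2_ixr] at h
    rw [Subtype.ext h]

/-- Blocks which are short enough. -/
private theorem tc_fin2_blk {ι : Type} [Fintype ι] [DecidableEq ι] {D : ℕ} (F : Fam ι D) :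
    ∃ k : ℕ, Blk F k := by
  have hpos : ∀ l, 0 < |(F.u l : ℝ)| * F.hw := fun l =>
    mul_pos (abs_pos.2 (by exact_mod_cast F.hu l)) F.hhw
  refine ⟨1 + ∑ l, ⌈8 * F.t l / (|(F.u l : ℝ)| * F.hw)⌉₊, by omega, fun l => ?_⟩
  have h1 : 8 * F.t l / (|(F.u l : ℝ)| * F.hw) ≤ ⌈8 * F.t l / (|(F.u l : ℝ)| * F.hw)⌉₊ :=
    Nat.le_ceil _
  have h2 : ⌈8 * F.t l / (|(F.u l : ℝ)| * F.hw)⌉₊ ≤
      1 + ∑ l, ⌈8 * F.t l / (|(F.u l : ℝ)| * F.hw)⌉₊ := by
    have := Finset.single_le_sum (f := fun l => ⌈8 * F.t l / (|(F.u l : ℝ)| * F.hw)⌉₊)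
      (fun i _ => Nat.zero_le _) (Finset.mem_univ l)
    omega
  have h3 : (⌈8 * F.t l / (|(F.u l : ℝ)| * F.hw)⌉₊ : ℝ) ≤
      ((1 + ∑ l, ⌈8 * F.t l / (|(F.u l : ℝ)| * F.hw)⌉₊ : ℕ) : ℝ) := by exact_mod_cast h2
  have h4 := h1.trans h3
  rwa [div_le_iff₀ (hpos l)] at h4

/-- The tenth root. -/
private theorem tc_fin2_root {a x : ℝ} (hx : 0 ≤ x) (h : a ^ 10 ≤ x ^ (1 / 1000 : ℝ)) :
    a ≤ x ^ (1 / 10000 : ℝ) := by
  have h1 : (x ^ (1 / 10000 : ℝ)) ^ 10 = x ^ (1 / 1000 : ℝ) := by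
    rw [← Real.rpow_natCast, ← Real.rpow_mul hx]
    norm_num
  rw [← h1] at h
  exact le_of_pow_le_pow_left₀ (by norm_num) (Real.rpow_nonneg hx _) h

open Classical in
/-- The theorem for fixed `I` and `J`. -/
private theorem tc_fin2_IJ (hEX : R_EX) {c0 : ℝ} (hcn : ∀ (ι₁ ι₂ : Type) [Fintype ι₁]
  [DecidableEq ι₁] [Nonempty ι₁]
  [Fintype ι₂] [DecidableEq ι₂] [Nonempty ι₂], ∃ M : ℕ, 1 ≤ M ∧ ∀ (D B0 : ℕ) (h : ℝ), 1 ≤ D →
  1 ≤ B0 → 0 < h → ∃ (c : ℝ) (b A : ℕ), 0 < c ∧ ∀ (ι : Type) [Fintype ι] [DecidableEq ι]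
    (F : Fam ι D), F.hw = h → ∀ em : ι₁ ⊕ ι₂ → Option ι, Function.Injective em →
  ∀ (k B1 : ℕ), Blk F k → 3 ≤ B1 → ∀ᶠ N : ℕ in atTop, ∀ n ∈ Ioc N (N + N / k),
  (∀ (i : ι₁) (j : ι₂), ErS F N (wN B1 N) n b (em (Sum.inl i)) (em (Sum.inr j)) ≤
    N / (Real.log N) ^ A) →
  ∀ n' : ℕ, n ≤ z0 D n' ^ B0 → (lev (2 * D) n' : ℝ) ^ (3 * M) ≤ (n : ℝ) ^ (1 / 10000 : ℝ) →
  (2 : ℝ) ^ (2 * D + n') ≤ Real.log n →
  c * (n * F.V n n') ≤ (((Ioo 0 n).filter (fun x : ℕ => F.Rg n (z0 D n') x ∧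
    (c0 * Real.log (Fintype.card ι₁) ≤
      ((univ.filter (fun i : ι₁ => (F.L n (em (Sum.inl i)) x).natAbs.Prime)).card : ℝ) ∧
    1 ≤ (univ.filter (fun i : ι₁ => (F.L n (em (Sum.inl i)) x).natAbs.Prime)).card) ∧
    (c0 * Real.log (Fintype.card ι₂) ≤
      ((univ.filter (fun j : ι₂ => (F.L n (em (Sum.inr j)) x).natAbs.Prime)).card : ℝ) ∧
    1 ≤ (univ.filter (fun j : ι₂ => (F.L n (em (Sum.inr j)) x).natAbs.Prime)).card))).card : ℝ))
    (hcf : R_cf) (hsg : R_sg) (hpe : R_pe) (hbk : R_bk) (hfam : CM.L.R_fam)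
    (m d : ℕ) (hm : 1 ≤ m) (hd : 1 ≤ d) (I J : Finset (Fin m)) (hI : I.Nonempty)
    (hJ : J.Nonempty) : ∃ (B : ℕ) (c : ℝ), 0 < c ∧
    ∀ f : Fin m → MvPolynomial (Fin 2) ℤ, Admissible f → (∀ k, (f k).totalDegree ≤ d) →
    (∀ k ∈ I, (f k).totalDegree ≤ 1) → (∀ k ∈ J, (f k).totalDegree ≤ 1) →
    (∀ k ∈ I, ∀ l ∈ I, k ≠ l → f k ≠ f l ∧ f k ≠ - f l) →
    (∀ k ∈ J, ∀ l ∈ J, k ≠ l → f k ≠ f l ∧ f k ≠ - f l) →
    (∀ i ∈ I, ∀ j ∈ J, cx (f i) * cy (f j) ≠ cx (f j) * cy (f i)) →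
    ∀ A : ℕ, ∀ᶠ N : ℕ in atTop,
      (((Icc 1 N).filter (fun n => n ∈ tc_fin2_S d c0 c B f I J)).card : ℝ) ≤
        N / (Real.log N) ^ A := by
  have hneI : Nonempty {k // k ∈ I} := ⟨⟨hI.choose, hI.choose_spec⟩⟩
  have hneJ : Nonempty {k // k ∈ J} := ⟨⟨hJ.choose, hJ.choose_spec⟩⟩
  obtain ⟨M, hM1, hM⟩ := hcn {k // k ∈ I} {k // k ∈ J}
  have hD : 1 ≤ m * d := Nat.mul_pos (by omega) (by omega)
  obtain ⟨B0, hB0⟩ : ∃ B0, B0 = 128000 * (2 * (m * d)) * (30 * M) := ⟨_, rfl⟩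
  have hB01 : 1 ≤ B0 := by
    rw [hB0]
    exact Nat.mul_pos (by omega) (by omega)
  obtain ⟨c, b, A0, hc, hcF⟩ := hM (m * d) B0 (1 / (4000 * ((m : ℝ) + 2))) hD hB01 (by positivity)
  refine ⟨B0, c / 2, by positivity, ?_⟩
  intro f hf hdeg hlI hlJ hnI hnJ hdet
  obtain ⟨k0, hk0⟩ := hJ
  have hIJ : ∀ k ∈ I, k ∉ J := fun k h1 h2 => hdet k h1 k h2 rfl
  have hmixed : ∀ i ∈ I, ∀ j ∈ J, f i ≠ f j ∧ f i ≠ - f j := by
    intro i hi j hj
    constructor
    · intro h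
      apply hdet i hi j hj
      rw [h]
    · intro h
      apply hdet i hi j hj
      rw [h]
      unfold cx cy
      rw [MvPolynomial.coeff_neg, MvPolynomial.coeff_neg]
      ring
  have hmem : ∀ k, k ∈ insert k0 ((I ∪ J).erase k0) → k ∈ I ∨ k ∈ J := by
    intro k hk
    rw [Finset.mem_insert, Finset.mem_erase, Finset.mem_union] at hk
    rcases hk with h | h
    · rw [h]; exact Or.inr hk0
    · exact h.2
  obtain ⟨F, hFh, hFG, hFirr, hFL⟩ := hfam m d hm hd f hf hdeg k0 ((I ∪ J).erase k0)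
    (Finset.notMem_erase _ _)
    (by
      intro k hk
      rcases hmem k (by convert hk) with h | h
      · exact hlI k h
      · exact hlJ k h)
    (by
      intro k hk l hl hkl
      rcases hmem k (by convert hk) with h | h <;> rcases hmem l (by convert hl) with h' | h'
      · exact hnI k h l h' hkl
      · exact hmixed k h l h'
      · obtain ⟨g1, g2⟩ := hmixed l h' k h
        refine ⟨fun g => g1 g.symm, fun g => g2 ?_⟩
        rw [g, neg_neg]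
      · exact hnJ k h l h' hkl)
  obtain ⟨N₀, hN₀⟩ := hf
  have hCf : ∀ k, ∃ C : ℕ, ∀ n : ℕ, 1 ≤ n → ∀ x y : ℤ, |x| ≤ n → |y| ≤ n →
      |val (f k) x y| ≤ C * (n : ℤ) ^ d := fun k => abs_val_le (f k) d (hdeg k)
  choose Cf hCf using hCf
  set em := tc_fin2_em I J k0 with hem
  have hinj : Function.Injective em := tc_fin2_inj I J k0 hIJ
  obtain ⟨kk, hkk⟩ := tc_fin2_blk F
  have hPer : Per F := by
    intro n n' q hn hn' hq x
    rw [hFG n hn, hFG n' hn']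
    exact hpe m f n n' q hq x
  have hdg1 : ∀ l : Option {k // k ∈ (I ∪ J).erase k0}, (f (CM.L.ix k0 l)).totalDegree ≤ 1 := by
    intro l
    cases l with
    | none => exact hlJ k0 hk0
    | some i =>
      have := Finset.mem_union.1 (Finset.mem_of_mem_erase i.2)
      rcases this with h | h
      · exact hlI _ h
      · exact hlJ _ h
  have hrep : ∀ l : Option {k // k ∈ (I ∪ J).erase k0}, ∃ ε : ℤ, (ε = 1 ∨ ε = -1) ∧
      F.u l = ε * (cx (f (CM.L.ix k0 l)) - cy (f (CM.L.ix k0 l))) ∧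
      F.b l = ε * cy (f (CM.L.ix k0 l)) := by
    intro l
    have h := hsg (F.u l) (F.b l) (F.c l) (cx (f (CM.L.ix k0 l))) (cy (f (CM.L.ix k0 l)))
      ((f (CM.L.ix k0 l)).coeff 0) F.N0 (by
        intro n hn x
        have h1 := hFL n hn l x
        rw [hcf (f (CM.L.ix k0 l)) (hdg1 l)] at h1
        exact h1)
    rcases h with ⟨h1, h2⟩ | ⟨h1, h2⟩
    · exact ⟨1, Or.inl rfl, by rw [h1]; ring, by rw [h2]; ring⟩
    · exact ⟨-1, Or.inr rfl, by rw [h1]; ring, by rw [h2]; ring⟩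
  have hdetF : ∀ (p : {k // k ∈ I} × {k // k ∈ J}),
      F.u (em (Sum.inl p.1)) * F.b (em (Sum.inr p.2)) ≠
        F.u (em (Sum.inr p.2)) * F.b (em (Sum.inl p.1)) := by
    rintro ⟨i, j⟩ h
    obtain ⟨e1, he1, hu1, hb1⟩ := hrep (em (Sum.inl i))
    obtain ⟨e2, he2, hu2, hb2⟩ := hrep (em (Sum.inr j))
    rw [hem, tc_fin2_ixl] at hu1 hb1
    rw [hem, tc_fin2_ixr] at hu2 hb2
    apply hdet i i.2 j j.2
    simp only [hem] at h
    rw [hu1, hb1, hu2, hb2] at h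
    rcases he1 with rfl | rfl <;> rcases he2 with rfl | rfl <;> linarith
  have hpairs : ∀ A : ℕ, ∃ B1 : ℕ, 3 ≤ B1 ∧ ∀ᶠ N : ℕ in atTop,
      ∀ p : {k // k ∈ I} × {k // k ∈ J}, ∃ T : Finset ℕ,
        (T.card : ℝ) ≤ N / (Real.log N) ^ A ∧ ∀ n ∈ Ioc N (N + N / kk), n ∉ T →
        ErS F N (wN B1 N) n b (em (Sum.inl p.1)) (em (Sum.inr p.2)) ≤ N / (Real.log N) ^ A := by
    intro A
    have h1 := fun p : {k // k ∈ I} × {k // k ∈ J} =>
      hEX {k // k ∈ (I ∪ J).erase k0} (m * d) F hPer (em (Sum.inl p.1)) (em (Sum.inr p.2))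
        (hdetF p) kk hkk A b
    choose Bp hBp using h1
    refine ⟨3 + ∑ p, Bp p, by omega, ?_⟩
    rw [Filter.eventually_all]
    intro p
    have hle : Bp p ≤ 3 + ∑ p, Bp p := by
      have := Finset.single_le_sum (f := Bp) (fun i _ => Nat.zero_le _) (Finset.mem_univ p)
      omega
    refine (hBp p _ hle).mono (fun N hN => ⟨_, hN, fun n hn hnT => ?_⟩)
    by_contra hcon
    exact hnT (Finset.mem_filter.2 ⟨hn, not_le.1 hcon⟩)
  apply hbk (tc_fin2_S d c0 (c / 2) B0 f I J) kk hkk.1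
  intro A
  obtain ⟨B1, hB1, hev1⟩ := hpairs (max (A + 1) A0)
  have hev2 := hcF {k // k ∈ (I ∪ J).erase k0} F hFh em hinj kk B1 hkk hB1
  have hcast : Tendsto (fun n : ℕ => (n : ℝ)) atTop atTop := tendsto_natCast_atTop_atTop
  have ev1 := hcast.eventually (choose_levS (2 * (m * d)) (30 * M) (by omega) (by omega)
    ((∑ k, Cf k) + 2))
  have hmd0 : (0 : ℝ) < 2 * ((m * d : ℕ) : ℝ) := by
    have : (0 : ℝ) < ((m * d : ℕ) : ℝ) := by exact_mod_cast hD
    positivity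
  have hc1pos : 0 < ∏ p ∈ small (2 * (m * d)), (1 / (p : ℝ)) := by
    apply Finset.prod_pos
    intro p hp
    have hpp : p.Prime := (Finset.mem_filter.mp hp).2
    have : (0 : ℝ) < p := by exact_mod_cast hpp.pos
    positivity
  have ev2 := hcast.eventually (ev_err (s := 0)
    (show 0 < c / 2 * ∏ p ∈ small (2 * (m * d)), (1 / (p : ℝ)) by positivity)
    hmd0 (8 * (m * d)) (by norm_num))
  obtain ⟨N₂, hN₂⟩ := eventually_atTop.1 (ev1.and ev2)
  have hK : (0 : ℝ) ≤ (Fintype.card ({k // k ∈ I} × {k // k ∈ J}) : ℝ) := Nat.cast_nonneg _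
  have ev3 : ∀ᶠ N : ℕ in atTop,
      (Fintype.card ({k // k ∈ I} × {k // k ∈ J}) : ℝ) + 1 ≤ Real.log (N : ℝ) :=
    (Real.tendsto_log_atTop.comp hcast).eventually_ge_atTop _
  filter_upwards [hev1, hev2, ev3, eventually_ge_atTop (N₀ + F.N0 + N₂ + 100000)]
    with N h1 h2 h3 h4
  choose T hTc hT using h1
  have hlog1 : 1 ≤ Real.log (N : ℝ) := by linarith
  have hlog0 : 0 < Real.log (N : ℝ) := by linarith
  have hsub : (Ioc N (N + N / kk)).filter (fun n => n ∈ tc_fin2_S d c0 (c / 2) B0 f I J) ⊆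
      univ.biUnion T := by
    intro n hn
    obtain ⟨hn1, hn2⟩ := Finset.mem_filter.1 hn
    by_contra hcon
    have hnT : ∀ p, n ∉ T p := by
      intro p hp
      exact hcon (Finset.mem_biUnion.2 ⟨p, Finset.mem_univ p, hp⟩)
    apply hn2
    have hnN : N < n := (Finset.mem_Ioc.1 hn1).1
    obtain ⟨⟨n', hl1, hl2, hl3, hl4⟩, g2⟩ := hN₂ n (by omega)
    obtain ⟨hirr, hloc⟩ := hN₀ n (by omega)
    have hn5 : (100000 : ℝ) ≤ n := by exact_mod_cast (show 100000 ≤ n by omega)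
    have hn0 : (0 : ℝ) ≤ n := by linarith only [hn5]
    have hzB : n ≤ z0 (m * d) n' ^ B0 := by
      unfold z0
      rw [hB0]
      exact_mod_cast hl2
    have hlev : (lev (2 * (m * d)) n' : ℝ) ^ (3 * M) ≤ (n : ℝ) ^ (1 / 10000 : ℝ) := by
      apply tc_fin2_root hn0
      rw [← pow_mul, show 3 * M * 10 = 30 * M by ring]
      exact hl1
    have hEr : ∀ (i : {k // k ∈ I}) (j : {k // k ∈ J}),
        ErS F N (wN B1 N) n b (em (Sum.inl i)) (em (Sum.inr j)) ≤ N / (Real.log N) ^ A0 := by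
      intro i j
      refine (hT (i, j) n hn1 (hnT (i, j))).trans ?_
      apply div_le_div_of_nonneg_left (Nat.cast_nonneg _) (by positivity)
      exact pow_le_pow_right₀ hlog1 (le_max_right _ _)
    have hmain := h2 n hn1 hEr n' hzB hlev hl3
    refine tc_fin2_n hc hD F f hdeg I J em hCf hB01 (by unfold z0; exact hl4) hzB (by omega)
      (hFG n (by omega)) hirr hloc ?_ ?_ hn5 hl3 g2 hmain
    · intro i x
      have := hFL n (by omega) (em (Sum.inl i)) x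
      rw [hem, tc_fin2_ixl] at this
      exact this
    · intro j x
      have := hFL n (by omega) (em (Sum.inr j)) x
      rw [hem, tc_fin2_ixr] at this
      exact this
  have hcard : (((Ioc N (N + N / kk)).filter
      (fun n => n ∈ tc_fin2_S d c0 (c / 2) B0 f I J)).card : ℝ) ≤
      ∑ p : {k // k ∈ I} × {k // k ∈ J}, ((T p).card : ℝ) := by
    have := (Finset.card_le_card hsub).trans Finset.card_biUnion_le
    exact_mod_cast this
  have hb : (N : ℝ) / (Real.log N) ^ (max (A + 1) A0) ≤ N / (Real.log N) ^ (A + 1) := by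
    apply div_le_div_of_nonneg_left (Nat.cast_nonneg _) (by positivity)
    exact pow_le_pow_right₀ hlog1 (le_max_left _ _)
  have hb2 : ∑ p : {k // k ∈ I} × {k // k ∈ J}, ((T p).card : ℝ) ≤
      (Fintype.card ({k // k ∈ I} × {k // k ∈ J}) : ℝ) * (N / (Real.log N) ^ (A + 1)) := by
    calc _ ≤ ∑ p : {k // k ∈ I} × {k // k ∈ J}, (N / (Real.log N) ^ (A + 1) : ℝ) :=
          Finset.sum_le_sum fun p _ => (hTc p).trans hb
      _ = _ := by rw [Finset.sum_const, nsmul_eq_mul, Finset.card_univ]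
  refine hcard.trans (hb2.trans ?_)
  rw [pow_succ, ← div_div, mul_div_assoc', div_le_iff₀ hlog0, mul_comm]
  apply mul_le_mul_of_nonneg_left (by linarith)
  positivity

/-- The final theorem. -/
theorem p_fin2 : S_fin2 := by
  classical
  intro hEX hcn2 hcf hsg hpe hbk hfam
  obtain ⟨c0, hc0, hcn⟩ := hcn2
  refine ⟨c0, hc0, fun m d hm hd => ?_⟩
  have hcore : ∀ p : Finset (Fin m) × Finset (Fin m), ∃ (B : ℕ) (c : ℝ), 0 < c ∧
      (p.1.Nonempty → p.2.Nonempty →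
      ∀ f : Fin m → MvPolynomial (Fin 2) ℤ, Admissible f → (∀ k, (f k).totalDegree ≤ d) →
      (∀ k ∈ p.1, (f k).totalDegree ≤ 1) → (∀ k ∈ p.2, (f k).totalDegree ≤ 1) →
      (∀ k ∈ p.1, ∀ l ∈ p.1, k ≠ l → f k ≠ f l ∧ f k ≠ - f l) →
      (∀ k ∈ p.2, ∀ l ∈ p.2, k ≠ l → f k ≠ f l ∧ f k ≠ - f l) →
      (∀ i ∈ p.1, ∀ j ∈ p.2, cx (f i) * cy (f j) ≠ cx (f j) * cy (f i)) →
      ∀ A : ℕ, ∀ᶠ N : ℕ in atTop,
        (((Icc 1 N).filter (fun n => n ∈ tc_fin2_S d c0 c B f p.1 p.2)).card : ℝ) ≤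
          N / (Real.log N) ^ A) := by
    rintro ⟨I, J⟩
    by_cases h : I.Nonempty ∧ J.Nonempty
    · obtain ⟨B, c, h1, h2⟩ := tc_fin2_IJ hEX hcn hcf hsg hpe hbk hfam m d hm hd I J h.1 h.2
      refine ⟨B, c, h1, fun _ _ => ?_⟩
      intro f g1 g2 g3 g4 g5 g6 g7 A
      refine (h2 f g1 g2 g3 g4 g5 g6 g7 A).mono fun N hN => ?_
      convert hN
    · exact ⟨0, 1, one_pos, fun h1 h2 => absurd ⟨h1, h2⟩ h⟩
  choose Bf cf hcf0 hcfp using hcore
  obtain ⟨c, hc0', hcle⟩ : ∃ c : ℝ, 0 < c ∧ ∀ p, c ≤ cf p := by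
    have h1 : ∀ s : Finset (Finset (Fin m) × Finset (Fin m)), ∃ c : ℝ, 0 < c ∧ ∀ p ∈ s, c ≤ cf p := by
      intro s
      induction s using Finset.induction_on with
      | empty => exact ⟨1, one_pos, fun K hK => absurd hK (by simp)⟩
      | insert a s _ ih =>
        obtain ⟨c, h2, h4⟩ := ih
        refine ⟨min c (cf a), lt_min h2 (hcf0 a), ?_⟩
        intro K hK
        rw [Finset.mem_insert] at hK
        rcases hK with h | h
        · rw [h]; exact min_le_right _ _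
        · exact (min_le_left _ _).trans (h4 K h)
    obtain ⟨c, h2, h3⟩ := h1 univ
    exact ⟨c, h2, fun p => h3 p (Finset.mem_univ p)⟩
  refine ⟨∑ p, Bf p, c, hc0', ?_⟩
  intro f hf hdeg I J hI hJ hlI hlJ hnI hnJ hdet A
  have hBle : Bf (I, J) ≤ ∑ p, Bf p :=
    Finset.single_le_sum (f := Bf) (fun i _ => Nat.zero_le _) (Finset.mem_univ (I, J))
  refine (hcfp (I, J) hI hJ f hf hdeg hlI hlJ hnI hnJ hdet A).mono fun N hN => ?_
  refine le_trans ?_ hN
  refine Nat.cast_le.2 (Finset.card_le_card ?_)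
  intro n hn
  obtain ⟨h1, h2⟩ := Finset.mem_filter.1 hn
  refine Finset.mem_filter.2 ⟨h1, ?_⟩
  exact tc_fin2_mono d c0 (hcle (I, J)) hBle f I J h2

end Pool.Agent.TC.F
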