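import Pool.Agent.Lib.MP_0da313_nt.TC.M

set_option autoImplicit false

/-!
[TC lob]: location of the windows of a block.
-/

namespace Pool.Agent.TC.M

open Finset Filter
open Pool.Agent.MP89da58 (tri)
open Pool.Agent.CM (wd Fam)

/-- The logarithm controls the relative error. -/
private lemma tc_lob_log {la s : ℝ} (hla : 4000 ≤ la) (hs : 0 < 1 + s)
    (h : |la * Real.log (1 + s)| < 1) : |s| * la ≤ 1001 / 1000 := by
  have h1 : Real.log (1 + s) ≤ s := by
    have := Real.log_le_sub_one_of_pos hs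
    linarith
  have h2 : 1 - (1 + s)⁻¹ ≤ Real.log (1 + s) := Real.one_sub_inv_le_log_of_pos hs
  have h2' : s / (1 + s) ≤ Real.log (1 + s) := by
    have : s / (1 + s) = 1 - (1 + s)⁻¹ := by field_simp; ring
    rw [this]; exact h2
  have hl' := abs_lt.mp h
  have h3 : -1 < la * s := by nlinarith [hl'.1]
  have h4 : la * (s / (1 + s)) < 1 := by nlinarith [hl'.2]
  have h5 : la * s < 1 + s := by
    rw [← mul_div_assoc, div_lt_one hs] at h4
    exact h4
  have h6 : s < 1 / 3999 := by nlinarith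
  rcases abs_cases s with ⟨h, _⟩ | ⟨h, _⟩ <;> rw [h] <;> nlinarith

theorem p_lob : S_lob := by
  intro ι _ _ D F k hB
  obtain ⟨hk, hB⟩ := hB
  have hU : ∀ l, 0 < |(F.u l : ℝ)| * F.hw := fun l =>
    mul_pos (abs_pos.mpr (by exact_mod_cast F.hu l)) F.hhw
  have hth : ∀ l, 1000 * (|(F.u l : ℝ)| * F.hw) ≤ F.t l := fun l => F.hth l
  have ht : ∀ l, 0 < F.t l := fun l => by
    have := hU l
    have := hth l
    linarith
  have hla : ∀ l, 4000 ≤ la4 F l := by
    intro l
    unfold la4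
    rw [le_div_iff₀ (hU l)]
    have := hth l
    linarith
  have hev : ∀ᶠ N : ℕ in atTop, ∀ l, |(F.c l : ℝ)| ≤ 1 / 100000 * ((|(F.u l : ℝ)| * F.hw) * N) := by
    rw [Filter.eventually_all]
    intro l
    have hl : Tendsto (fun N : ℕ => (|(F.u l : ℝ)| * F.hw) * (N : ℝ)) atTop atTop :=
      tendsto_natCast_atTop_atTop.const_mul_atTop (hU l)
    filter_upwards [hl.eventually_ge_atTop (100000 * |(F.c l : ℝ)|)] with n h1
    linarith
  filter_upwards [hev, Filter.eventually_gt_atTop 0] with N hc hN0 n hn x l hL0 hwd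
  have hNR : (0 : ℝ) < N := by exact_mod_cast hN0
  have hkR : (0 : ℝ) < k := by exact_mod_cast hk
  rw [Finset.mem_Ioc] at hn
  have hNn : (N : ℝ) ≤ n := by exact_mod_cast hn.1.le
  have hnN : (n : ℝ) - N ≤ N / k := by
    have h1 : ((N / k : ℕ) : ℝ) ≤ (N : ℝ) / k := Nat.cast_div_le
    have h2 : (n : ℝ) ≤ ((N + N / k : ℕ) : ℝ) := by exact_mod_cast hn.2
    rw [Nat.cast_add] at h2
    linarith
  -- the blocks are short
  have hsh : ∀ l, F.t l * ((n : ℝ) - N) ≤ 1 / 8 * ((|(F.u l : ℝ)| * F.hw) * N) := by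
    intro l
    have h1 : F.t l * ((n : ℝ) - N) ≤ F.t l * (N / k) := mul_le_mul_of_nonneg_left hnN (ht l).le
    refine h1.trans ?_
    rw [← mul_div_assoc, div_le_iff₀ hkR]
    have h2 := mul_le_mul_of_nonneg_right (hB l) hNR.le
    linarith
  have hLx : ∀ l', (F.L n l' x : ℝ) = F.t l' * N + F.t l' * ((n : ℝ) - N) + F.c l' +
      F.u l' * ((x : ℝ) - F.xi * n) := by
    intro l'
    unfold Fam.L Fam.v Fam.t
    push_cast
    ring
  have hLN : ((F.L n l x).toNat : ℝ) = F.L n l x := by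
    have : ((F.L n l x).toNat : ℤ) = F.L n l x := Int.toNat_of_nonneg hL0.le
    exact_mod_cast this
  have hL0R : (0 : ℝ) < F.L n l x := by exact_mod_cast hL0
  have hTN : 0 < F.t l * N := mul_pos (ht l) hNR
  set s : ℝ := F.L n l x / (F.t l * N) - 1 with hs
  have hs1 : 1 + s = F.L n l x / (F.t l * N) := by rw [hs]; ring
  have hs0 : 0 < 1 + s := by
    rw [hs1]
    exact div_pos hL0R hTN
  have habs : |la4 F l * Real.log (1 + s)| < 1 := by
    by_contra hcon
    rw [not_lt] at hcon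
    apply hwd
    unfold wd tri
    rw [hLN, ← hs1]
    exact max_eq_left (by linarith)
  have hsl := tc_lob_log (hla l) hs0 habs
  have hs2 : |s| * (F.t l * N) ≤ 1001 / 4000 * ((|(F.u l : ℝ)| * F.hw) * N) := by
    unfold la4 at hsl
    rw [← mul_div_assoc, div_le_iff₀ (hU l)] at hsl
    have := mul_le_mul_of_nonneg_right hsl hNR.le
    linarith
  have hsT : (F.L n l x : ℝ) - F.t l * N = s * (F.t l * N) := by
    rw [hs, sub_mul, div_mul_cancel₀ _ hTN.ne', one_mul]
  have hsT' : |(F.L n l x : ℝ) - F.t l * N| ≤ 1001 / 4000 * ((|(F.u l : ℝ)| * F.hw) * N) := by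
    rw [hsT, abs_mul, abs_of_pos hTN]
    exact hs2
  -- the distance from the centre
  have hx : |(x : ℝ) - F.xi * n| ≤ 2 / 5 * (F.hw * N) := by
    have h1 : F.u l * ((x : ℝ) - F.xi * n) =
        ((F.L n l x : ℝ) - F.t l * N) - F.t l * ((n : ℝ) - N) - F.c l := by
      rw [hLx l]
      ring
    have h2 : |(F.u l : ℝ) * ((x : ℝ) - F.xi * n)| ≤ 2 / 5 * ((|(F.u l : ℝ)| * F.hw) * N) := by
      rw [h1]
      have h3 := abs_le.mp hsT'
      have h4 := hsh l
      have h5 := abs_le.mp (hc l)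
      have h6 : 0 ≤ F.t l * ((n : ℝ) - N) := mul_nonneg (ht l).le (by linarith)
      have h7 : 0 < (|(F.u l : ℝ)| * F.hw) * N := mul_pos (hU l) hNR
      rw [abs_le]
      constructor <;> linarith [h3.1, h3.2, h5.1, h5.2]
    rw [abs_mul] at h2
    have hup : 0 < |(F.u l : ℝ)| := abs_pos.mpr (by exact_mod_cast F.hu l)
    have h3 : |(F.u l : ℝ)| * |(x : ℝ) - F.xi * n| ≤ |(F.u l : ℝ)| * (2 / 5 * (F.hw * N)) := by
      linarith
    exact le_of_mul_le_mul_left h3 hup
  have hhN : 0 < F.hw * N := mul_pos F.hhw hNR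
  have hhNn : F.hw * N ≤ F.hw * n := mul_le_mul_of_nonneg_left hNn F.hhw.le
  have hnR : (0 : ℝ) < n := by linarith
  have hx' := abs_le.mp hx
  have hx0 : 4 * (F.hw * n) ≤ F.xi * n := by
    have := mul_le_mul_of_nonneg_right F.hxi0 hnR.le
    linarith
  have hx1 : F.xi * n ≤ n - 4 * (F.hw * n) := by
    have := mul_le_mul_of_nonneg_right F.hxi1 hnR.le
    linarith
  refine ⟨?_, ?_, ?_, ?_, ?_⟩
  · unfold Near
    linarith
  · have h1 := (abs_le.mp hsT').2
    have h2 : (|(F.u l : ℝ)| * F.hw) * N ≤ F.t l * N := by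
      refine mul_le_mul_of_nonneg_right ?_ hNR.le
      have := hth l
      have := hU l
      linarith
    linarith
  · have : (0 : ℝ) < x := by linarith [hx'.1]
    exact_mod_cast this
  · have : (x : ℝ) < n := by linarith [hx'.2]
    exact_mod_cast this
  · intro l'
    have hTN' : 0 < F.t l' * N := mul_pos (ht l') hNR
    have h1 : (F.L n l' x : ℝ) / (F.t l' * N) - 1 = ((F.L n l' x : ℝ) - F.t l' * N) / (F.t l' * N) := by
      rw [sub_div, div_self hTN'.ne']
    rw [h1, abs_div, abs_of_pos hTN', div_le_iff₀ hTN', hLx l']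
    have h2 : |(F.u l' : ℝ) * ((x : ℝ) - F.xi * n)| ≤ 2 / 5 * ((|(F.u l' : ℝ)| * F.hw) * N) := by
      rw [abs_mul]
      have := mul_le_mul_of_nonneg_left hx (abs_nonneg (F.u l' : ℝ))
      linarith
    have h3 := abs_le.mp h2
    have h4 := hsh l'
    have h5 := abs_le.mp (hc l')
    have h6 : 0 ≤ F.t l' * ((n : ℝ) - N) := mul_nonneg (ht l').le (by linarith)
    have h7 : 0 < (|(F.u l' : ℝ)| * F.hw) * N := mul_pos (hU l') hNR
    have h8 : 1000 * ((|(F.u l' : ℝ)| * F.hw) * N) ≤ F.t l' * N := by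
      have := mul_le_mul_of_nonneg_right (hth l') hNR.le
      linarith
    rw [abs_le]
    constructor <;> linarith [h3.1, h3.2, h5.1, h5.2]

end Pool.Agent.TC.M
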