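import Pool.Agent.Lib.MP_0da313_nt.TC.M
import Pool.Agent.Lib.MP_0da313_nt.CM.P.win

set_option autoImplicit false

/-!
[TC loc]: location of the points and of the wide windows.
-/

namespace Pool.Agent.TC.M

open Finset Filter
open Pool.Agent.MP89da58 (tri)
open Pool.Agent.CM (wd Fam)

theorem p_loc : S_loc := by
  intro ι _ _ D F
  have hu : ∀ l, 0 < |(F.u l : ℝ)| := fun l => abs_pos.mpr (by exact_mod_cast F.hu l)
  have hT : ∀ l, 1000 * (|(F.u l : ℝ)| * F.hw) ≤ F.t l := fun l => F.hth l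
  have htp : ∀ l, 0 < F.t l := by
    intro l
    have h1 : 0 < |(F.u l : ℝ)| * F.hw := mul_pos (hu l) F.hhw
    linarith [hT l]
  have ht : ∀ l, 0 < F.t l ∧ 1000 ≤ la5 F l ∧ 4000 ≤ la4 F l := by
    intro l
    have h1 : 0 < |(F.u l : ℝ)| * F.hw := mul_pos (hu l) F.hhw
    refine ⟨htp l, ?_, ?_⟩
    · unfold la5
      rw [le_div_iff₀ h1]
      exact hT l
    · unfold la4
      rw [le_div_iff₀ h1]
      linarith [hT l]
  refine ⟨ht, ?_⟩
  -- the constant
  obtain ⟨C, hC1, hC⟩ : ∃ C : ℕ, 1 ≤ C ∧ ∀ l, 2 * (F.t l)⁻¹ ≤ C ∧ 2 * F.t l ≤ C := by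
    refine ⟨⌈1 + ∑ l, (2 * (F.t l)⁻¹ + 2 * F.t l)⌉₊, ?_, ?_⟩
    · have h0 : (0 : ℝ) ≤ ∑ l, (2 * (F.t l)⁻¹ + 2 * F.t l) :=
        Finset.sum_nonneg fun l _ => by
          have := htp l
          positivity
      have h1 : (1 : ℝ) ≤ (⌈1 + ∑ l, (2 * (F.t l)⁻¹ + 2 * F.t l)⌉₊ : ℝ) :=
        le_trans (by linarith) (Nat.le_ceil _)
      exact_mod_cast h1
    · intro l
      have h1 : 2 * (F.t l)⁻¹ + 2 * F.t l ≤ ∑ l, (2 * (F.t l)⁻¹ + 2 * F.t l) :=
        Finset.single_le_sum (f := fun l => 2 * (F.t l)⁻¹ + 2 * F.t l) (fun l _ => by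
          have := htp l
          positivity) (Finset.mem_univ l)
      have h2 := Nat.le_ceil (1 + ∑ l, (2 * (F.t l)⁻¹ + 2 * F.t l))
      have h3 : 0 < (F.t l)⁻¹ := inv_pos.mpr (htp l)
      have h4 := htp l
      constructor <;> linarith
  refine ⟨C, hC1, ?_⟩
  -- eventually facts
  have hev : ∀ᶠ n : ℕ in atTop, ∀ l, |(F.c l : ℝ)| ≤ 1 / 100000 * (F.t l * n) := by
    rw [Filter.eventually_all]
    intro l
    have hl : Tendsto (fun n : ℕ => F.t l * (n : ℝ)) atTop atTop :=
      tendsto_natCast_atTop_atTop.const_mul_atTop (ht l).1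
    filter_upwards [hl.eventually_ge_atTop (100000 * |(F.c l : ℝ)|)] with n h1
    linarith
  filter_upwards [hev, Filter.eventually_gt_atTop 0] with n hn hn0
  have hnR : (0 : ℝ) < n := by exact_mod_cast hn0
  have H : ∀ l, CM.L.WD (F.u l) (F.t l * n) (F.X n l) (F.hw * n) 1 (la5 F l) := by
    intro l
    have hc := abs_le.mp (hn l)
    refine ⟨by exact_mod_cast F.hu l, mul_pos F.hhw hnR, ?_, ?_, ?_, ?_, ?_, ?_⟩
    · calc 1000 * (|(F.u l : ℝ)| * (F.hw * n)) = 1000 * (|(F.u l : ℝ)| * F.hw) * n := by ring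
        _ ≤ F.t l * n := mul_le_mul_of_nonneg_right (hT l) hnR.le
    · unfold Fam.X; linarith [hc.1]
    · unfold Fam.X; linarith [hc.2]
    · norm_num
    · norm_num
    · unfold la5
      rw [one_mul, ← mul_assoc, mul_div_mul_right _ _ hnR.ne']
  -- value of the form
  have hL : ∀ l (x : ℤ), (F.L n l x : ℝ) = F.X n l + F.u l * ((x : ℝ) - F.xi * n) := by
    intro l x
    unfold Fam.L Fam.v Fam.X Fam.t
    push_cast
    ring
  have hN : ∀ l (x : ℤ), 0 < F.L n l x → ((F.L n l x).toNat : ℝ) = F.L n l x := by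
    intro l x h
    have : ((F.L n l x).toNat : ℤ) = F.L n l x := Int.toNat_of_nonneg h.le
    exact_mod_cast this
  have hwi : ∀ l (x : ℤ), 0 < F.L n l x → wd (la5 F l) (F.X n l) (F.L n l x).toNat =
      tri (la5 F l * Real.log ((F.X n l + F.u l * ((x : ℝ) - F.xi * n)) / F.X n l)) := by
    intro l x h
    unfold wd
    rw [hN l x h, hL l x]
  have hTn : ∀ l, (n : ℝ) ≤ C * (F.t l * n) / 2 ∧ 2 * (F.t l * n) ≤ C * n := by
    intro l
    have h1 := (hC l).1
    have h2 := (hC l).2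
    have h3 := htp l
    have h4 : 2 ≤ C * F.t l := by
      have h5 := mul_le_mul_of_nonneg_right h1 h3.le
      rw [mul_assoc, inv_mul_cancel₀ h3.ne'] at h5
      linarith
    constructor
    · nlinarith [mul_le_mul_of_nonneg_right h4 hnR.le]
    · nlinarith [mul_le_mul_of_nonneg_right h2 hnR.le]
  have hhn : 0 < F.hw * n := mul_pos F.hhw hnR
  refine ⟨?_, ?_, ?_, ?_⟩
  · intro l
    have h1 := (H l).hX1
    have h2 := (H l).hX2
    have h3 := hTn l
    have h4 := (H l).Tp
    have hC0 : (0 : ℝ) ≤ C := Nat.cast_nonneg _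
    have h5 : (C : ℝ) * (F.t l * n / 2) ≤ C * F.X n l :=
      mul_le_mul_of_nonneg_left (by linarith) hC0
    constructor
    · linarith [h3.1]
    · linarith [h3.2]
  · intro x hx
    have hx' := abs_le.mp hx
    have hx0 : 4 * (F.hw * n) ≤ F.xi * n := by
      have := mul_le_mul_of_nonneg_right F.hxi0 hnR.le
      linarith
    have hx1 : F.xi * n ≤ n - 4 * (F.hw * n) := by
      have := mul_le_mul_of_nonneg_right F.hxi1 hnR.le
      linarith
    refine ⟨?_, ?_, ?_⟩
    · have : (0 : ℝ) < x := by linarith [hx'.1]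
      exact_mod_cast this
    · have : (x : ℝ) < n := by linarith [hx'.2]
      exact_mod_cast this
    · intro l
      have h1 := (H l).hX1
      have h2 := (H l).hX2
      have h3 := hTn l
      have h4 := (H l).Tp
      have hC0 : (0 : ℝ) ≤ C := Nat.cast_nonneg _
      have h6 : |(F.u l : ℝ) * ((x : ℝ) - F.xi * n)| ≤ 2 / 1000 * (F.t l * n) := by
        rw [abs_mul]
        have h7 : |(F.u l : ℝ)| * |(x : ℝ) - F.xi * n| ≤ |(F.u l : ℝ)| * (2 * (F.hw * n)) :=
          mul_le_mul_of_nonneg_left hx (abs_nonneg _)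
        have h8 := (H l).hT
        linarith
      have h7 := abs_le.mp h6
      rw [hL l x]
      have h5 : (C : ℝ) * (F.t l * n / 2) ≤ C * (F.X n l + F.u l * ((x : ℝ) - F.xi * n)) :=
        mul_le_mul_of_nonneg_left (by linarith [h7.1]) hC0
      constructor
      · linarith [h3.1]
      · linarith [h3.2, h7.2]
  · intro x l hx
    unfold Near at hx
    have hw : |(x : ℝ) - F.xi * n| ≤ 102 / 100 * (F.hw * n) := by linarith
    have hpos : 0 < F.L n l x := by
      have h1 := ((H l).bds hw).1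
      have h2 : (0 : ℝ) < F.L n l x := by
        rw [hL]
        have := (H l).Xp
        linarith
      exact_mod_cast h2
    rw [hwi l x hpos]
    have h1 := (H l).ub hw
    have h2 : |(x : ℝ) - F.xi * n| / (F.hw * n) ≤ 1 / 2 := by
      rw [div_le_iff₀ hhn]
      linarith
    unfold tri
    refine le_max_of_le_right ?_
    linarith
  · intro x l hpos h0
    rw [hwi l x hpos] at h0
    have hw : |(x : ℝ) - F.xi * n| ≤ 102 / 100 * (F.hw * n) := by
      apply (H l).loc
      · rw [← hL l x]; exact_mod_cast hpos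
      · by_contra hc
        rw [not_lt] at hc
        apply h0
        unfold tri
        exact max_eq_left (by linarith)
    refine ⟨by linarith, ?_⟩
    rw [hL l x]
    exact ((H l).bds hw).2

end Pool.Agent.TC.M
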