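import Pool.Agent.Lib.MP_0da313_nt.TC.M
import Pool.Agent.Lib.MP_0da313_nt.CM.P.S0

set_option autoImplicit false

/-!
Project TC, section M: the lower bound for the model sum.
-/

namespace Pool.Agent.TC.M

open Finset Filter Polynomial
open Pool.Agent.MP89da58 (bil pw nn supp part kapD tri tri_nonneg tri_le_one)
open Pool.Agent.MT (PJf ZI Dl mertens kapD_pos)
open Pool.Agent.BVall (om rhoW PK lev RepB Dens)
open Pool.Agent.Lib.MP_0da313_nt (W)
open Pool.Agent.CH (thP)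
open Pool.Agent.CM (wd sA sT er Fam z0 mu CP BVc)
open Pool.Agent.CM.F (Pre)
open Pool.Agent.TC.W (qf)

lemma tc_md_thP_nonneg (k : ℕ) : 0 ≤ thP k := by
  unfold thP
  split_ifs
  · exact Real.log_natCast_nonneg k
  · exact le_rfl

lemma tc_md_thP_zero : thP 0 = 0 := by simp [thP]

lemma tc_md_wd_nonneg (lam X : ℝ) (k : ℕ) : 0 ≤ wd lam X k := tri_nonneg _

lemma tc_md_wd_le_one (lam X : ℝ) (k : ℕ) : wd lam X k ≤ 1 := tri_le_one _

section

variable {ι : Type} [Fintype ι] [DecidableEq ι] {D : ℕ}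

lemma tc_md_sq_nonneg (F : Fam ι D) (N : ℕ) (l : Option ι) (k : ℕ) : 0 ≤ sq F N l k :=
  mul_nonneg (tc_md_thP_nonneg k) (tc_md_wd_nonneg _ _ _)

lemma tc_md_sq_zero (F : Fam ι D) (N : ℕ) (l : Option ι) : sq F N l 0 = 0 := by
  unfold sq
  rw [tc_md_thP_zero, zero_mul]

/-- Location of the points of the sequence. -/
lemma tc_md_loc {F : Fam ι D} {N n : ℕ} {l : Option ι}
    (hw : ∀ (x : ℤ) (l : Option ι), 0 < F.L n l x →
      wd (la4 F l) (F.t l * N) (F.L n l x).toNat ≠ 0 → Near F n x ∧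
        (F.L n l x : ℝ) ≤ 3 * (F.t l * N) ∧ 0 < x ∧ x < n ∧
        ∀ l', |(F.L n l' x : ℝ) / (F.t l' * N) - 1| ≤ 1 / 100) {x : ℤ}
    (h : sq F N l (F.L n l x).toNat ≠ 0) :
    0 < x ∧ x < n ∧ (F.L n l x).toNat ≤ ⌊3 * (F.t l * N)⌋₊ := by
  have h1 : thP (F.L n l x).toNat ≠ 0 := left_ne_zero_of_mul h
  have h2 : wd (la4 F l) (F.t l * N) (F.L n l x).toNat ≠ 0 := right_ne_zero_of_mul h
  have h3 : (F.L n l x).toNat ≠ 0 := by
    intro h
    apply h1
    rw [h]
    exact tc_md_thP_zero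
  have hpos : 0 < F.L n l x := by omega
  obtain ⟨_, e4, e1, e2, _⟩ := hw x l hpos h2
  refine ⟨e1, e2, Nat.le_floor ?_⟩
  have e5 : (((F.L n l x).toNat : ℕ) : ℝ) = (F.L n l x : ℝ) := by
    have : (((F.L n l x).toNat : ℕ) : ℤ) = F.L n l x := Int.toNat_of_nonneg hpos.le
    exact_mod_cast congrArg (fun t : ℤ => (t : ℝ)) this
  rw [e5]
  exact e4

end

/-- `1 / kapD w ≤ log n`. -/
lemma tc_md_kap (B1 : ℕ) : ∀ᶠ N : ℕ in atTop, 2 ≤ wN B1 N →
    (kapD (wN B1 N))⁻¹ ≤ Real.log N := by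
  have hlog : Tendsto (fun n : ℕ => Real.log n) atTop atTop :=
    Real.tendsto_log_atTop.comp tendsto_natCast_atTop_atTop
  have h1 : ∀ᶠ x : ℝ in atTop, ‖Real.log x‖ ≤ (1 / (1000 * (B1 : ℝ) + 1)) * ‖x‖ :=
    Real.isLittleO_log_id_atTop.bound (by positivity)
  filter_upwards [hlog.eventually h1, hlog.eventually_ge_atTop 1] with N hN hL hw
  set L := Real.log N with hLdef
  have hL0 : 0 < L := by linarith
  have hlL : 0 ≤ Real.log L := Real.log_nonneg hL
  rw [Real.norm_of_nonneg hlL, Real.norm_of_nonneg hL0.le] at hN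
  have hm := mertens (wN B1 N) hw
  have hκ := kapD_pos (wN B1 N)
  have hw0 : (0 : ℝ) < (wN B1 N : ℝ) := by
    have : 0 < wN B1 N := by omega
    exact_mod_cast this
  have hwle : (wN B1 N : ℝ) ≤ L ^ B1 := Nat.floor_le (by positivity)
  have hlw : Real.log (wN B1 N : ℝ) ≤ B1 * Real.log L := by
    have h2 := Real.log_le_log hw0 hwle
    rwa [Real.log_pow] at h2
  have h3 : (kapD (wN B1 N))⁻¹ ≤ 1000 * Real.log (wN B1 N) := by
    rw [inv_le_iff_one_le_mul₀ hκ]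
    linarith
  have h4 : (1000 * (B1 : ℝ) + 1) * Real.log L ≤ L := by
    have h5 := mul_le_mul_of_nonneg_left hN (show (0 : ℝ) ≤ 1000 * (B1 : ℝ) + 1 by positivity)
    have h6 : (1000 * (B1 : ℝ) + 1) * ((1 / (1000 * (B1 : ℝ) + 1)) * L) = L := by
      field_simp
    linarith
  nlinarith

theorem p_md : S_md := by
  classical
  intro hloc hlob hbvw hmsw hdn2 hap2 hpw2 hcnv ι κ _ _ _ _ _ D F e he k B0 B B1 A hblk hD hB0 hB1
  obtain ⟨b, A', hap⟩ := hap2 ι κ D F e he B0 B (A + 1) hD hB0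
  obtain ⟨hla, -⟩ := hloc ι D F
  have hlog : Tendsto (fun n : ℕ => Real.log n) atTop atTop :=
    Real.tendsto_log_atTop.comp tendsto_natCast_atTop_atTop
  set Cj : Option ι → ℕ := fun j => ⌈2 / F.t j⌉₊ + ⌈F.t j⌉₊ + 1 with hCj
  have hbv : ∀ᶠ n : ℕ in atTop, ∀ j, ∀ X : ℝ, n ≤ Cj j * X → X ≤ Cj j * n →
      ∀ c : ℕ → ℕ, (∀ q, (c q).Coprime ((F.u j).natAbs * q)) →
      ∑ q ∈ (Icc 1 ⌊(n : ℝ) ^ (1 / 1000 : ℝ)⌋₊).filter Squarefree,
        (b : ℝ) ^ q.primeFactors.card *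
        er (fun k => thP k * wd (la4 F j) X k) ⌊3 * X⌋₊ ((F.u j).natAbs * q) (c q) ≤
        n / (Real.log n) ^ A' :=
    eventually_all.2 fun j => hbvw (la4 F j) (F.u j).natAbs (Cj j) b A'
      (by linarith [(hla j).2.2]) (Int.natAbs_pos.2 (F.hu j)) (by simp only [hCj]; omega)
  have hms : ∀ᶠ n : ℕ in atTop, ∀ j, ∀ X : ℝ, n ≤ Cj j * X → X ≤ Cj j * n →
      999 / 1000 * (X / la4 F j) ≤ sT (fun k => thP k * wd (la4 F j) X k) ⌊3 * X⌋₊ ∧
      sT (fun k => thP k * wd (la4 F j) X k) ⌊3 * X⌋₊ ≤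
        1001 / 1000 * (1 + 1 / la4 F j ^ 2) * (X / la4 F j) :=
    eventually_all.2 fun j => hmsw (la4 F j) (Cj j)
      (by linarith [(hla j).2.2]) (by simp only [hCj]; omega)
  have hlu : ∀ᶠ n : ℕ in atTop, ∀ j, |(F.u j : ℝ)| * F.hw + 2 ≤ Real.log n :=
    eventually_all.2 fun j => hlog.eventually_ge_atTop _
  filter_upwards [eventually_forall_ge_atTop.2 hap, eventually_forall_ge_atTop.2 hbv,
    eventually_forall_ge_atTop.2 hms, eventually_forall_ge_atTop.2 (hdn2 ι D F hD),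
    hpw2 ι D F k B0 B1 hblk hD hB0 hB1, hlob ι D F k hblk, tc_md_kap B1,
    eventually_forall_ge_atTop.2 hlu, eventually_ge_atTop ((Fintype.card κ) ^ B0 + 2)]
    with N gap gbv gms gdn gpw glob gkap glu gN
  intro n hn n' P hpar Fp Fm hpre i j hij g hg
  rw [Finset.mem_Ioc] at hn
  have hNn : N ≤ n := hn.1.le
  have hn2N : n ≤ 2 * N := by
    have : N / k ≤ N := Nat.div_le_self _ _
    omega
  have hNnr : (N : ℝ) ≤ n := by exact_mod_cast hNn
  have hn2Nr : (n : ℝ) ≤ 2 * N := by exact_mod_cast hn2N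
  have hN0 : (0 : ℝ) < N := by
    have : 0 < N := by omega
    exact_mod_cast this
  have hn0 : (0 : ℝ) < n := by linarith
  obtain ⟨⟨hw1, hw2⟩, hpw⟩ := gpw n (Finset.mem_Ioc.2 hn) n' P hpar
  have hpw' := hpw Fp Fm hpre
  obtain ⟨d1, d2', d3, d4, -, dV⟩ := gdn n hNn n' (wN B1 N) hw1 hw2
  have hL2 : 2 ≤ Real.log n := by
    have := glu n hNn j
    have h2 : 0 ≤ |(F.u j : ℝ)| * F.hw := mul_nonneg (abs_nonneg _) F.hhw.le
    linarith
  have hLN : Real.log N ≤ Real.log n := Real.log_le_log hN0 hNnr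
  set w := wN B1 N with hwdef
  have hw4 : (4 : ℝ) ≤ w := by nlinarith
  have hw2' : 2 ≤ w := by
    have : (2 : ℝ) ≤ w := by linarith
    exact_mod_cast this
  have hκw : 0 < kapD w := kapD_pos w
  have hκz : 0 < kapD (z0 D n') := kapD_pos _
  have hκinv : (kapD w)⁻¹ ≤ Real.log n := (gkap hw2').trans hLN
  -- positivity of the quadratic form
  have hq : 0 ≤ qf g := by
    have h1 : ∀ p ∈ P, Fintype.card κ + 1 ≤ p := by
      intro p hp
      have h2 := (hpar.hP p hp).2.1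
      have h3 : Fintype.card κ ≤ z0 D n' := by
        by_contra hcon
        push Not at hcon
        have h4 := Nat.pow_le_pow_left hcon.le B0
        have h5 := hpar.hzB
        omega
      omega
    exact Pool.Agent.CM.F.cm_S0_qf g h1
  refine ⟨hq, ?_⟩
  -- first step: the pointwise inequality
  have hsum : (kapD w)⁻¹ * ∑ x ∈ Ioo 0 n, sq F N j (F.L n j x).toNat *
        (Fm (r2 F n w (z0 D n') i j x) * ZI (DE F e n P) g x ^ 2) ≤
      ∑ x ∈ Ioo 0 n, sq F N j (F.L n j x).toNat * (Lw w (F.L n i x).toNat *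
        (Fm (r2 F n w (z0 D n') i j x) * ZI (DE F e n P) g x ^ 2)) := by
    rw [Finset.mul_sum]
    apply Finset.sum_le_sum
    intro x _
    by_cases h0 : sq F N j (F.L n j x).toNat = 0
    · rw [h0]; simp
    · have h1 := (hpw' i j x h0).1
      have h2 := tc_md_sq_nonneg F N j (F.L n j x).toNat
      have h3 : 0 ≤ sq F N j (F.L n j x).toNat * ZI (DE F e n P) g x ^ 2 :=
        mul_nonneg h2 (sq_nonneg _)
      calc (kapD w)⁻¹ * (sq F N j (F.L n j x).toNat *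
            (Fm (r2 F n w (z0 D n') i j x) * ZI (DE F e n P) g x ^ 2))
          = (sq F N j (F.L n j x).toNat * ZI (DE F e n P) g x ^ 2) *
            ((kapD w)⁻¹ * Fm (r2 F n w (z0 D n') i j x)) := by ring
        _ ≤ (sq F N j (F.L n j x).toNat * ZI (DE F e n P) g x ^ 2) *
            (Lw w (F.L n i x).toNat * Fm (r2 F n w (z0 D n') i j x)) :=
            mul_le_mul_of_nonneg_left h1 h3
        _ = _ := by ring
  -- second step: conversion and expansion
  have ht := (hla j).1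
  have hu : 0 < |(F.u j : ℝ)| := abs_pos.2 (by exact_mod_cast F.hu j)
  have hh := F.hhw
  have hla4 : 4000 ≤ la4 F j := (hla j).2.2
  have hla0 : 0 < la4 F j := by linarith
  set X : ℝ := F.t j * N with hX
  have hX0 : 0 < X := mul_pos ht hN0
  have hCr : (Cj j : ℝ) = (⌈2 / F.t j⌉₊ : ℝ) + (⌈F.t j⌉₊ : ℝ) + 1 := by
    simp only [hCj]
    push_cast
    ring
  have hc1 : 2 / F.t j ≤ (⌈2 / F.t j⌉₊ : ℝ) := Nat.le_ceil _
  have hc2 : F.t j ≤ (⌈F.t j⌉₊ : ℝ) := Nat.le_ceil _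
  have hc1' : (0 : ℝ) ≤ (⌈2 / F.t j⌉₊ : ℝ) := Nat.cast_nonneg _
  have hc2' : (0 : ℝ) ≤ (⌈F.t j⌉₊ : ℝ) := Nat.cast_nonneg _
  have hX1 : (n : ℝ) ≤ Cj j * X := by
    calc (n : ℝ) ≤ 2 * N := hn2Nr
      _ = 2 / F.t j * X := by rw [hX]; field_simp
      _ ≤ Cj j * X := by
          apply mul_le_mul_of_nonneg_right _ hX0.le
          rw [hCr]
          linarith
  have hX2 : X ≤ Cj j * n := by
    rw [hX]
    apply mul_le_mul _ hNnr hN0.le (Nat.cast_nonneg _)
    rw [hCr]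
    linarith
  obtain ⟨ms1, ms2⟩ := gms n hNn j X hX1 hX2
  have hXla : X / la4 F j = N * (|(F.u j : ℝ)| * F.hw) / 4 := by
    rw [hX]
    unfold la4
    field_simp
  have esq : (fun k => thP k * wd (la4 F j) X k) = sq F N j := rfl
  rw [esq] at ms1 ms2
  have hsT0 : 0 ≤ sT (sq F N j) ⌊3 * X⌋₊ := by
    refine le_trans ?_ ms1
    positivity
  have hsT1 : sT (sq F N j) ⌊3 * X⌋₊ ≤ n * Real.log n := by
    refine ms2.trans ?_
    have h1 : 1 / la4 F j ^ 2 ≤ 1 := by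
      rw [div_le_one (by positivity)]
      nlinarith
    have h2 : 0 ≤ X / la4 F j := by positivity
    have h3 := glu n hNn j
    calc 1001 / 1000 * (1 + 1 / la4 F j ^ 2) * (X / la4 F j)
        ≤ 4 * (X / la4 F j) := by
          apply mul_le_mul_of_nonneg_right _ h2
          linarith
      _ = N * (|(F.u j : ℝ)| * F.hw) := by rw [hXla]; ring
      _ ≤ n * Real.log n := by
          apply mul_le_mul hNnr (by linarith) (by positivity) hn0.le
  have hcv := hcnv (F.u j) (F.v n j) n ⌊3 * X⌋₊ (sq F N j)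
    (fun x => Fm (r2 F n w (z0 D n') i j x) * ZI (DE F e n P) g x ^ 2) (F.hu j)
    (tc_md_sq_zero F N j) (fun x hx => tc_md_loc (glob n (Finset.mem_Ioc.2 hn)) hx)
  have key := gap n hNn n' P hpar i j w hw1 hw2 Fm hpre.rm (sq F N j) ⌊3 * X⌋₊ hsT0 hsT1
    (fun c hc => by
      have h := gbv n hNn j X hX1 hX2 c hc
      rw [esq] at h
      exact h) g hg
  simp only [mul_assoc] at key hcv
  rw [hcv] at key
  have key2 := (abs_le.1 key).1
  -- the main term
  have hdens := d3 i j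
  have hmt := (hpre.mt _ hdens).2
  have hd4 := d4 i j hij
  set φ : ℝ := (Nat.totient (F.u j).natAbs : ℝ) with hφd
  have hφ : 0 < φ := by
    rw [hφd]
    exact_mod_cast Nat.totient_pos.2 (Int.natAbs_pos.2 (F.hu j))
  set Wd : ℝ := W (d2 F n w (z0 D n') i j) (PK (2 * D) n') with hWd
  set V : ℝ := F.V n n' with hV
  have hWφ : 0 ≤ Wd / φ := by
    have h1 : 0 ≤ |(F.u j : ℝ)| * (Wd / φ) := by
      refine le_trans ?_ hd4
      positivity
    exact nonneg_of_mul_nonneg_right h1 hu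
  have hmain : 1 / 20 * (F.hw * n * (V / kapD (z0 D n') ^ 2)) * kapD w ≤
      sT (sq F N j) ⌊3 * X⌋₊ / φ * Fm (d2 F n w (z0 D n') i j) := by
    calc 1 / 20 * (F.hw * n * (V / kapD (z0 D n') ^ 2)) * kapD w
        ≤ (999 / 1000 * 999 / 4000 * F.hw) * (n / 2) *
          (1 / 2 * (V / kapD (z0 D n') ^ 2 * kapD w)) := by
          have h1 : 0 ≤ F.hw * n * (V / kapD (z0 D n') ^ 2) * kapD w := by positivity
          nlinarith
      _ ≤ (999 / 1000 * 999 / 4000 * F.hw) * N * (|(F.u j : ℝ)| * (Wd / φ)) := by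
          apply mul_le_mul _ hd4 (by positivity) (by positivity)
          apply mul_le_mul_of_nonneg_left _ (by positivity)
          linarith
      _ = (999 / 1000 * (X / la4 F j)) * ((1 - 1 / 1000) * (Wd / φ)) := by
          rw [hXla]; ring
      _ ≤ sT (sq F N j) ⌊3 * X⌋₊ * ((1 - 1 / 1000) * (Wd / φ)) := by
          apply mul_le_mul_of_nonneg_right ms1
          positivity
      _ = sT (sq F N j) ⌊3 * X⌋₊ / φ * ((1 - 1 / 1000) * Wd) := by ring
      _ ≤ _ := by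
          apply mul_le_mul_of_nonneg_left hmt
          positivity
  have hmain2 : 1 / 20 * (F.hw * n * (V / kapD (z0 D n') ^ 2)) * qf g ≤
      (kapD w)⁻¹ * (sT (sq F N j) ⌊3 * X⌋₊ / φ * Fm (d2 F n w (z0 D n') i j) * qf g) := by
    have h1 := mul_le_mul_of_nonneg_right hmain hq
    have h2 := mul_le_mul_of_nonneg_left h1 (inv_pos.2 hκw).le
    refine le_trans (le_of_eq ?_) h2
    field_simp
  have herr : (kapD w)⁻¹ * (n / (Real.log n) ^ (A + 1)) ≤ n / (Real.log n) ^ A := by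
    have hL0 : 0 < Real.log n := by linarith
    calc (kapD w)⁻¹ * (n / (Real.log n) ^ (A + 1))
        ≤ Real.log n * (n / (Real.log n) ^ (A + 1)) :=
          mul_le_mul_of_nonneg_right hκinv (by positivity)
      _ = n / (Real.log n) ^ A := by
          field_simp
          ring
  have hfin : (kapD w)⁻¹ * (sT (sq F N j) ⌊3 * X⌋₊ / φ * Fm (d2 F n w (z0 D n') i j) * qf g) -
      (kapD w)⁻¹ * (n / (Real.log n) ^ (A + 1)) ≤
      (kapD w)⁻¹ * ∑ x ∈ Ioo 0 n, sq F N j (F.L n j x).toNat *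
        (Fm (r2 F n w (z0 D n') i j x) * ZI (DE F e n P) g x ^ 2) := by
    rw [← mul_sub]
    apply mul_le_mul_of_nonneg_left _ (inv_pos.2 hκw).le
    simp only [← mul_assoc] at key2 ⊢
    unfold Fam.L
    linarith
  linarith

end Pool.Agent.TC.M
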