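import Pool.Agent.Lib.MP_0da313_nt.TC.M

set_option autoImplicit false

/-!
Project TC, [TC msw]: the masses of the windows.
-/

namespace Pool.Agent.TC.M

open Finset Filter Polynomial
open Pool.Agent.CH (thP)
open Pool.Agent.CM (wd sA sT er Fam z0 mu)

theorem p_msw : S_msw := by
  intro hmu hm1 lam C hlam hC
  have hl0 : 0 < lam := by linarith
  have hδ : 0 < 1 / (10000 * lam) := by positivity
  obtain ⟨X0, hX0⟩ := eventually_atTop.1 (hm1 lam (1 / (10000 * lam)) hlam hδ)
  have hC0 : (0 : ℝ) < C := by exact_mod_cast hC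
  have hcast : Tendsto (fun n : ℕ => (n : ℝ)) atTop atTop := tendsto_natCast_atTop_atTop
  filter_upwards [hcast.eventually (eventually_ge_atTop (C * X0)), eventually_gt_atTop 0]
    with n hn hn0 X h1 _h2
  have hX : X0 ≤ X := by
    have : (C : ℝ) * X0 ≤ C * X := hn.trans h1
    exact le_of_mul_le_mul_left this hC0
  have hXpos : 0 < X := by
    have hn1 : (0 : ℝ) < n := by exact_mod_cast hn0
    have : (0 : ℝ) < C * X := lt_of_lt_of_le hn1 h1
    exact pos_of_mul_pos_right this hC0.le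
  have h3 := abs_le.1 (hX0 X hX)
  obtain ⟨g1, g2⟩ := hmu lam hlam
  have hS : sT (fun k => thP k * wd lam X k) ⌊3 * X⌋₊ =
      ∑ m ∈ Icc 1 ⌊3 * X⌋₊, thP m * wd lam X m := rfl
  have e1 : 1 / (10000 * lam) * X = 1 / 10000 * (X / lam) := by
    field_simp
  rw [e1] at h3
  have hXl : 0 < X / lam := by positivity
  have g3 : X / lam ≤ mu lam * X := by
    calc X / lam = 1 / lam * X := by ring
      _ ≤ _ := mul_le_mul_of_nonneg_right g1 hXpos.le
  have g4 : mu lam * X ≤ X / lam * (1 + 1 / lam ^ 2) := by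
    calc mu lam * X ≤ 1 / lam * (1 + 1 / lam ^ 2) * X := mul_le_mul_of_nonneg_right g2 hXpos.le
      _ = _ := by ring
  have g5 : 0 < 1 / lam ^ 2 := by positivity
  rw [hS]
  constructor
  · linarith [h3.1]
  · have g6 : 1001 / 1000 * (1 + 1 / lam ^ 2) * (X / lam) =
        X / lam * (1 + 1 / lam ^ 2) + 1 / 1000 * (X / lam) + 1 / 1000 * (1 / lam ^ 2 * (X / lam)) := by
      ring
    have g7 : 0 < 1 / lam ^ 2 * (X / lam) := by positivity
    rw [g6]
    linarith [h3.2]

end Pool.Agent.TC.M
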