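import Pool.Agent.Lib.MP_0da313_nt.TC.F

set_option autoImplicit false

/-!
The numerical inequality behind the final count.
-/

namespace Pool.Agent.TC.F

private theorem tc_nu_core (Ψ Q ρ₁ ρ₂ e E n T T1 T2 s12 s1 s2 a₁ a₂ β₁ β₂ R : ℝ)
    (hΨ : 0 ≤ Ψ) (hQ : 0 ≤ Q) (hρ₁ : 0 ≤ ρ₁) (hρ₂ : 0 ≤ ρ₂)
    (h12 : β₁ * β₂ - e ≤ s12) (h1 : s1 ≤ β₁ * (2 * a₂) + e) (h2 : s2 ≤ 2 * a₁ * β₂ + e)
    (hT : 1 / 20 * Ψ * s12 - E * (n * e) ≤ T) (hT1 : T1 ≤ 5 * Q * s1 + E * (n * e))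
    (hT2 : T2 ≤ 5 * Q * s2 + E * (n * e))
    (hA1 : ρ₁ * (5 * Q * (2 * a₁ * β₂)) ≤ Ψ * (β₁ * β₂) / 100)
    (hA2 : ρ₂ * (5 * Q * (β₁ * (2 * a₂))) ≤ Ψ * (β₁ * β₂) / 100)
    (hR : R ≤ Ψ * (β₁ * β₂))
    (hX : e * (1 / 20 * Ψ + E * n + (ρ₁ + ρ₂) * (5 * Q + E * n)) ≤ 1 / 100 * R) :
    1 / 50 * R ≤ T - ρ₁ * T2 - ρ₂ * T1 := by
  have b1 : 1 / 20 * Ψ * (β₁ * β₂ - e) ≤ 1 / 20 * Ψ * s12 :=
    mul_le_mul_of_nonneg_left h12 (by positivity)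
  have b2 : 5 * Q * s1 ≤ 5 * Q * (β₁ * (2 * a₂) + e) :=
    mul_le_mul_of_nonneg_left h1 (by positivity)
  have b3 : 5 * Q * s2 ≤ 5 * Q * (2 * a₁ * β₂ + e) :=
    mul_le_mul_of_nonneg_left h2 (by positivity)
  have b4 : ρ₂ * T1 ≤ ρ₂ * (5 * Q * (β₁ * (2 * a₂) + e) + E * (n * e)) :=
    mul_le_mul_of_nonneg_left (by linarith) hρ₂
  have b5 : ρ₁ * T2 ≤ ρ₁ * (5 * Q * (2 * a₁ * β₂ + e) + E * (n * e)) :=
    mul_le_mul_of_nonneg_left (by linarith) hρ₁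
  linarith

theorem p_nu : S_nu := by
  intro D K1 K2 h c1 t0 E hK1 hK2 hh hc1 ht0 hE
  set C0 : ℝ := 50000 * h + E + (K1 + K2) * (5 * h + E / 1000) with hC0
  have hC0p : 0 < C0 := by
    have : 0 ≤ (K1 + K2) * (5 * h + E / 1000) := by positivity
    have : 0 < 50000 * h := by positivity
    linarith
  have hd : 0 < h * c1 * t0 ^ 2 := by positivity
  refine ⟨max 1 (100 * C0 / (h * c1 * t0 ^ 2)), ?_⟩
  intro l n v k τ₁ τ₂ a₁ a₂ β₁ β₂ T T1 T2 s12 s1 s2 hl hn hv hv1 hk hkl hτ₁ hτ₂ hτ₁1 hτ₂1 ha₁ ha₂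
    hβ₁ hβ₂ h12 h1 h2 hT hT1 hT2
  have hl1 : 1 ≤ l := le_trans (le_max_left _ _) hl
  have hl2 : 100 * C0 / (h * c1 * t0 ^ 2) ≤ l := le_trans (le_max_right _ _) hl
  have hl0 : 0 < l := by linarith
  have hLp : 0 < l ^ (8 * D) := pow_pos hl0 _
  have hv0 : 0 < v := lt_of_lt_of_le (by positivity) hv
  have hτ₁0 : 0 < τ₁ := lt_of_lt_of_le ht0 hτ₁
  have hτ₂0 : 0 < τ₂ := lt_of_lt_of_le ht0 hτ₂
  have hK10 : 0 < K1 := by linarith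
  have hK20 : 0 < K2 := by linarith
  set e : ℝ := 1 / l ^ (8 * D + 8) with he
  have he0 : 0 < e := by positivity
  set P : ℝ := h * n with hP
  have hP0 : 0 ≤ P := by positivity
  -- `1 / k`
  have hu : 1 / k ≤ 1000 * l := by
    rw [div_le_iff₀ hk]
    linarith
  have hu0 : 0 < 1 / k := by positivity
  set Ψ : ℝ := P * (v / k ^ 2) with hΨ
  set Q : ℝ := P * (v / k) with hQ
  have hΨ0 : 0 ≤ Ψ := by positivity
  have hQ0 : 0 ≤ Q := by positivity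
  have hQΨ : Q = Ψ * k := by
    rw [hQ, hΨ]; field_simp
  have hb₁ : 0 ≤ K1 * (τ₁ * (k * l) * a₁) := by positivity
  have hb₂ : 0 ≤ K2 * (τ₂ * (k * l) * a₂) := by positivity
  have hβ₁0 : 0 ≤ β₁ := hb₁.trans hβ₁
  have hβ₂0 : 0 ≤ β₂ := hb₂.trans hβ₂
  -- the two main terms
  have hA1 : (K1 * τ₁ * l / 1000) * (5 * Q * (2 * a₁ * β₂)) ≤ Ψ * (β₁ * β₂) / 100 := by
    have h3 : (K1 * τ₁ * l / 1000) * (5 * Q * (2 * a₁ * β₂)) =
        Ψ * β₂ / 100 * (K1 * (τ₁ * (k * l) * a₁)) := by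
      rw [hQΨ]; ring
    rw [h3]
    have h4 := mul_le_mul_of_nonneg_left hβ₁ (by positivity : 0 ≤ Ψ * β₂ / 100)
    calc Ψ * β₂ / 100 * (K1 * (τ₁ * (k * l) * a₁)) ≤ Ψ * β₂ / 100 * β₁ := h4
      _ = Ψ * (β₁ * β₂) / 100 := by ring
  have hA2 : (K2 * τ₂ * l / 1000) * (5 * Q * (β₁ * (2 * a₂))) ≤ Ψ * (β₁ * β₂) / 100 := by
    have h3 : (K2 * τ₂ * l / 1000) * (5 * Q * (β₁ * (2 * a₂))) =
        Ψ * β₁ / 100 * (K2 * (τ₂ * (k * l) * a₂)) := by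
      rw [hQΨ]; ring
    rw [h3]
    have h4 := mul_le_mul_of_nonneg_left hβ₂ (by positivity : 0 ≤ Ψ * β₁ / 100)
    calc Ψ * β₁ / 100 * (K2 * (τ₂ * (k * l) * a₂)) ≤ Ψ * β₁ / 100 * β₂ := h4
      _ = Ψ * (β₁ * β₂) / 100 := by ring
  set R : ℝ := P * v * (K1 * K2 * (τ₁ * τ₂) * l ^ 2) with hR
  have hRle : R ≤ Ψ * (β₁ * β₂) := by
    have h3 : (K1 * (τ₁ * (k * l) * a₁)) * (K2 * (τ₂ * (k * l) * a₂)) ≤ β₁ * β₂ :=
      mul_le_mul hβ₁ hβ₂ hb₂ hβ₁0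
    have h4 := mul_le_mul_of_nonneg_left h3 hΨ0
    have h5 : Ψ * ((K1 * (τ₁ * (k * l) * a₁)) * (K2 * (τ₂ * (k * l) * a₂))) = R * (a₁ * a₂) := by
      rw [hΨ, hR]
      field_simp
    have h6 : 1 ≤ a₁ * a₂ := one_le_mul_of_one_le_of_one_le ha₁ ha₂
    have h7 : 0 ≤ R := by positivity
    rw [h5] at h4
    exact (le_mul_of_one_le_right h7 h6).trans h4
  -- the errors
  have hRge : P * (c1 / l ^ (8 * D)) * (t0 ^ 2 * l ^ 2) ≤ R := by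
    rw [hR]
    have h3 : t0 ^ 2 * l ^ 2 ≤ K1 * K2 * (τ₁ * τ₂) * l ^ 2 := by
      apply mul_le_mul_of_nonneg_right _ (by positivity)
      have h4 : t0 * t0 ≤ τ₁ * τ₂ := mul_le_mul hτ₁ hτ₂ ht0.le hτ₁0.le
      have h5 : 1 ≤ K1 * K2 := one_le_mul_of_one_le_of_one_le hK1 hK2
      have h6 : τ₁ * τ₂ ≤ K1 * K2 * (τ₁ * τ₂) :=
        le_mul_of_one_le_left (mul_pos hτ₁0 hτ₂0).le h5
      rw [pow_two]
      exact h4.trans h6
    apply mul_le_mul (mul_le_mul_of_nonneg_left hv hP0) h3 (by positivity) (by positivity)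
  have hQle : Q ≤ n * (1000 * h * l) := by
    have h3 : v / k ≤ 1 * (1000 * l) := by
      rw [div_eq_mul_one_div]
      exact mul_le_mul hv1 hu hu0.le (by norm_num)
    calc Q ≤ P * (1 * (1000 * l)) := mul_le_mul_of_nonneg_left h3 hP0
      _ = n * (1000 * h * l) := by rw [hP]; ring
  have hΨle : Ψ ≤ n * (1000000 * h * l ^ 2) := by
    have h3 : v / k ^ 2 ≤ 1 * ((1000 * l) * (1000 * l)) := by
      have h4 : v / k ^ 2 = v * ((1 / k) * (1 / k)) := by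
        field_simp
      rw [h4]
      exact mul_le_mul hv1 (mul_le_mul hu hu hu0.le (by positivity)) (by positivity) (by norm_num)
    calc Ψ ≤ P * (1 * ((1000 * l) * (1000 * l))) := mul_le_mul_of_nonneg_left h3 hP0
      _ = n * (1000000 * h * l ^ 2) := by rw [hP]; ring
  have hρ₁ : 0 ≤ K1 * τ₁ * l / 1000 := by positivity
  have hρ₂ : 0 ≤ K2 * τ₂ * l / 1000 := by positivity
  have hρ : K1 * τ₁ * l / 1000 + K2 * τ₂ * l / 1000 ≤ (K1 + K2) * l / 1000 := by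
    have h3 : K1 * τ₁ ≤ K1 * 1 := mul_le_mul_of_nonneg_left hτ₁1 hK10.le
    have h4 : K2 * τ₂ ≤ K2 * 1 := mul_le_mul_of_nonneg_left hτ₂1 hK20.le
    have h5 := mul_le_mul_of_nonneg_right h3 hl0.le
    have h6 := mul_le_mul_of_nonneg_right h4 hl0.le
    linarith
  have hsum : 1 / 20 * Ψ + E * n +
      (K1 * τ₁ * l / 1000 + K2 * τ₂ * l / 1000) * (5 * Q + E * n) ≤ n * l ^ 2 * C0 := by
    have hl21 : 1 ≤ l ^ 2 := one_le_pow₀ hl1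
    have h3 : 5 * Q + E * n ≤ n * l * (5000 * h + E) := by
      have h4 : 0 ≤ E * n := by positivity
      have h5 : E * n ≤ E * n * l := le_mul_of_one_le_right h4 hl1
      linarith
    have h4 : (K1 * τ₁ * l / 1000 + K2 * τ₂ * l / 1000) * (5 * Q + E * n) ≤
        (K1 + K2) * l / 1000 * (n * l * (5000 * h + E)) :=
      mul_le_mul hρ h3 (by positivity) (by positivity)
    have h5 : E * n ≤ E * n * l ^ 2 := le_mul_of_one_le_right (by positivity) hl21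
    have h6 : n * l ^ 2 * C0 = n * l ^ 2 * (50000 * h) + n * l ^ 2 * E +
        (K1 + K2) * l / 1000 * (n * l * (5000 * h + E)) := by
      rw [hC0]; ring
    rw [h6]
    linarith
  have hX : e * (1 / 20 * Ψ + E * n +
      (K1 * τ₁ * l / 1000 + K2 * τ₂ * l / 1000) * (5 * Q + E * n)) ≤ 1 / 100 * R := by
    have h3 := mul_le_mul_of_nonneg_left hsum he0.le
    refine h3.trans ?_
    have h4 : e = 1 / l ^ (8 * D) * (1 / l ^ 8) := by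
      rw [he, pow_add]
      field_simp
    have hl8 : l ≤ l ^ 8 := by
      calc l = l ^ 1 := (pow_one l).symm
        _ ≤ l ^ 8 := pow_le_pow_right₀ hl1 (by norm_num)
    have h5 : C0 * (1 / l ^ 8) ≤ h * c1 * t0 ^ 2 / 100 := by
      rw [mul_one_div, div_le_iff₀ (by positivity)]
      have h6 : 100 * C0 ≤ l * (h * c1 * t0 ^ 2) := (div_le_iff₀ hd).1 hl2
      have h7 : l * (h * c1 * t0 ^ 2) ≤ l ^ 8 * (h * c1 * t0 ^ 2) :=
        mul_le_mul_of_nonneg_right hl8 hd.le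
      linarith
    have h8 : 0 ≤ n * l ^ 2 * (1 / l ^ (8 * D)) := by positivity
    have h9 := mul_le_mul_of_nonneg_left h5 h8
    calc e * (n * l ^ 2 * C0) = n * l ^ 2 * (1 / l ^ (8 * D)) * (C0 * (1 / l ^ 8)) := by
          rw [h4]; ring
      _ ≤ n * l ^ 2 * (1 / l ^ (8 * D)) * (h * c1 * t0 ^ 2 / 100) := h9
      _ = 1 / 100 * (P * (c1 / l ^ (8 * D)) * (t0 ^ 2 * l ^ 2)) := by rw [hP]; ring
      _ ≤ 1 / 100 * R := by linarith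
  have hne : n / l ^ (8 * D + 8) = n * e := by rw [he]; ring
  rw [hne] at hT hT1 hT2
  have key := tc_nu_core Ψ Q (K1 * τ₁ * l / 1000) (K2 * τ₂ * l / 1000) e E n T T1 T2 s12 s1 s2
    a₁ a₂ β₁ β₂ R hΨ0 hQ0 hρ₁ hρ₂ h12 h1 h2
    (by
      have : 1 / 20 * (h * n * (v / k ^ 2)) * s12 = 1 / 20 * Ψ * s12 := by rw [hΨ, hP]
      rw [← this]; exact hT)
    (by
      have : 5 * (h * n * (v / k)) * s1 = 5 * Q * s1 := by rw [hQ, hP]
      rw [← this]; exact hT1)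
    (by
      have : 5 * (h * n * (v / k)) * s2 = 5 * Q * s2 := by rw [hQ, hP]
      rw [← this]; exact hT2)
    hA1 hA2 hRle hX
  have hfin : 1 / 50 * (h * n * v) * (K1 * K2 * (τ₁ * τ₂) * l ^ 2) = 1 / 50 * R := by
    rw [hR, hP]; ring
  rw [hfin]
  exact key

end Pool.Agent.TC.F
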