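import Pool.Agent.Lib.MP_0da313_nt.TC.F
import Pool.Agent.Lib.MP_0da313_nt.Poly

set_option autoImplicit false

/-!
[TC pe]: the product of the restrictions modulo `q` only depends on `n` modulo `q`.
-/

namespace Pool.Agent.TC.F

open Finset Polynomial
open Pool.Agent.Lib.MP_0da313_nt (lineRestrict eval_lineRestrict)

/-- Values at congruent points are congruent. -/
private theorem tc_pe_val (f : MvPolynomial (Fin 2) ℤ) (x y y' : ℤ) (q : ℤ)
    (h : y ≡ y' [ZMOD q]) : Pool.Agent.Lib.MP_0da313_nt.val f x y ≡
      Pool.Agent.Lib.MP_0da313_nt.val f x y' [ZMOD q] := by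
  unfold Pool.Agent.Lib.MP_0da313_nt.val
  induction f using MvPolynomial.induction_on with
  | C a => simp only [MvPolynomial.eval_C]; exact Int.ModEq.refl _
  | add p r hp hr => simp only [map_add]; exact hp.add hr
  | mul_X p i hp =>
    simp only [map_mul, MvPolynomial.eval_X]
    refine hp.mul ?_
    fin_cases i
    · exact Int.ModEq.refl _
    · exact h

theorem p_pe : S_pe := by
  intro m f n n' q h x
  have h1 : (n' : ℤ) ≡ n [ZMOD q] := (Int.natCast_modEq_iff.2 h).symm
  have h2 : ∀ k, (lineRestrict (f k) n').eval x ≡ (lineRestrict (f k) n).eval x [ZMOD q] := by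
    intro k
    rw [eval_lineRestrict, eval_lineRestrict]
    exact tc_pe_val (f k) x _ _ q (h1.sub_right x)
  have h3 : (∏ k, lineRestrict (f k) n').eval x ≡ (∏ k, lineRestrict (f k) n).eval x
      [ZMOD q] := by
    rw [eval_prod, eval_prod]
    exact Int.ModEq.prod fun k _ => h2 k
  exact h3.dvd

end Pool.Agent.TC.F
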