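import Pool.Agent.Lib.MP_0da313_nt.TC.M

set_option autoImplicit false

/-!
[TC pw2]: pointwise inequalities for the lower bound.
-/

namespace Pool.Agent.TC.M

open Finset Filter Polynomial
open Pool.Agent.MP89da58 (bil pw nn supp part kapD tri)
open Pool.Agent.MT (PJf ZI Dl)
open Pool.Agent.BVall (om rhoW PK lev RepB Dens mem_PK)
open Pool.Agent.Lib.MP_0da313_nt (W small)
open Pool.Agent.CH (thP)
open Pool.Agent.CM (wd sA sT er Fam z0 mu CP BVc)
open Pool.Agent.CM.F (Pre)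

theorem tc_pw2_z (D n' : ℕ) : z0 D n' ≤ lev (2 * D) n' := by
  unfold z0 lev
  have h1 : 1 ≤ ∏ p ∈ small (2 * D), p := by
    apply Nat.one_le_iff_ne_zero.2
    rw [Finset.prod_ne_zero_iff]
    intro p hp
    exact (Finset.mem_filter.1 hp).2.ne_zero
  calc 2 ^ (2 ^ (2 * D + n')) ≤ 1 * 2 ^ (2 ^ (2 * D + n') * (16 * (2 * D) + 6)) := by
        rw [one_mul]
        apply Nat.pow_le_pow_right (by norm_num)
        exact Nat.le_mul_of_pos_right _ (by omega)
    _ ≤ _ := Nat.mul_le_mul_right _ h1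

theorem tc_pw2_kap (z : ℕ) : 0 < kapD z := by
  unfold kapD
  apply Finset.prod_pos
  intro p hp
  have hp' := (Finset.mem_filter.1 hp).2
  have h2 : (2 : ℝ) ≤ p := by exact_mod_cast hp'.two_le
  have h3 : 1 / (p : ℝ) ≤ 1 / 2 := one_div_le_one_div_of_le (by norm_num) h2
  linarith

theorem tc_pw2_thP_prime {m : ℕ} (h : thP m ≠ 0) : m.Prime := by
  by_contra hc
  apply h
  unfold thP
  rw [if_neg hc]

theorem tc_pw2_thP_nonneg (m : ℕ) : 0 ≤ thP m := by
  unfold thP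
  split_ifs
  · exact Real.log_natCast_nonneg m
  · exact le_refl _

/-- a small prime does not divide a large prime -/
theorem tc_pw2_nd {m : ℤ} {z : ℕ} (hm : m.toNat.Prime) (hz : z < m.toNat) {p : ℕ} (hp : p.Prime)
    (hpz : p ≤ z) : ¬ (p : ℤ) ∣ m := by
  intro hd
  have h0 : 0 < m := by
    have := hm.pos
    omega
  have h1 : (p : ℤ) ∣ (m.toNat : ℤ) := by
    rwa [Int.toNat_of_nonneg h0.le]
  have h2 : p ∣ m.toNat := by exact_mod_cast h1
  rcases (Nat.dvd_prime hm).1 h2 with h3 | h3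
  · exact hp.one_lt.ne' h3
  · omega

theorem tc_pw2_ev1 : ∀ᶠ N : ℕ in atTop, 3 ≤ Real.log N :=
  (Real.tendsto_log_atTop.comp tendsto_natCast_atTop_atTop).eventually_ge_atTop 3

theorem tc_pw2_ev2 (K : ℕ) : ∀ᶠ N : ℕ in atTop, (Real.log N) ^ K < N := by
  have h := (Real.isLittleO_pow_log_id_atTop (n := K)).bound (show (0 : ℝ) < 1 / 2 by norm_num)
  have h2 := (tendsto_natCast_atTop_atTop (R := ℝ)).eventually h
  filter_upwards [h2, eventually_ge_atTop 1] with N h3 h4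
  have hN : (1 : ℝ) ≤ N := by exact_mod_cast h4
  have h5 : 0 ≤ Real.log N := Real.log_nonneg hN
  rw [Real.norm_of_nonneg (by positivity), Real.norm_of_nonneg (by simp)] at h3
  simp only [id] at h3
  linarith

theorem tc_pw2_w {B1 N n : ℕ} (hB1 : 3 ≤ B1) (hl : 3 ≤ Real.log N) (hN : 1 ≤ N) (hn1 : N ≤ n)
    (hn2 : n ≤ 2 * N) : (Real.log n) ^ 2 ≤ wN B1 N := by
  have hNR : (1 : ℝ) ≤ N := by exact_mod_cast hN
  have hnR : (n : ℝ) ≤ 2 * N := by exact_mod_cast hn2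
  have hnR1 : (N : ℝ) ≤ n := by exact_mod_cast hn1
  have h1 : Real.log n ≤ Real.log N + 1 := by
    have h2 : Real.log n ≤ Real.log (2 * N) := Real.log_le_log (by linarith) hnR
    rw [Real.log_mul (by norm_num) (by linarith)] at h2
    have h3 := Real.log_two_lt_d9
    linarith
  have h0 : 0 ≤ Real.log n := Real.log_nonneg (by linarith)
  have h2 : (Real.log N) ^ 3 ≤ (Real.log N) ^ B1 := pow_le_pow_right₀ (by linarith) hB1
  have h3 : (Real.log N) ^ B1 - 1 < wN B1 N := by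
    unfold wN
    exact Nat.sub_one_lt_floor _
  have h4 : (Real.log n) ^ 2 ≤ (Real.log N + 1) ^ 2 := pow_le_pow_left₀ h0 h1 2
  have h5 : (Real.log N + 1) ^ 2 ≤ (Real.log N) ^ 3 - 1 := by
    nlinarith [mul_nonneg (sub_nonneg.2 hl) (sq_nonneg (Real.log N)), sq_nonneg (Real.log N - 3)]
  linarith

theorem tc_pw2_wz {B0 B1 N n z : ℕ} (h : (Real.log N) ^ (B1 * B0) < N) (hn1 : N ≤ n)
    (hl : 3 ≤ Real.log N) (hz : n ≤ z ^ B0) : wN B1 N ≤ z := by
  by_contra hc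
  push Not at hc
  have h1 : (z : ℝ) ≤ (Real.log N) ^ B1 := by
    have h2 : (wN B1 N : ℝ) ≤ (Real.log N) ^ B1 := Nat.floor_le (by positivity)
    have h3 : (z : ℝ) ≤ wN B1 N := by exact_mod_cast hc.le
    linarith
  have h2 : ((z : ℝ)) ^ B0 ≤ (Real.log N) ^ (B1 * B0) := by
    rw [pow_mul]
    exact pow_le_pow_left₀ (Nat.cast_nonneg _) h1 B0
  have h3 : (n : ℝ) ≤ (z : ℝ) ^ B0 := by exact_mod_cast hz
  have h4 : (N : ℝ) ≤ n := by exact_mod_cast hn1
  linarith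

theorem tc_pw2_ev3 (C : ℕ) : ∀ᶠ n : ℕ in atTop, (C : ℝ) * (n : ℝ) ^ (1 / 10000 : ℝ) < n := by
  have ev := (tendsto_natCast_atTop_atTop (R := ℝ)).eventually
    ((tendsto_rpow_atTop (show (0 : ℝ) < 1 / 2 by norm_num)).eventually_gt_atTop (C : ℝ))
  filter_upwards [ev, eventually_ge_atTop 1] with n h1 hn1
  have hnR : (1 : ℝ) ≤ n := by exact_mod_cast hn1
  have hn0 : (0 : ℝ) < n := by linarith
  have h2 : (n : ℝ) ^ (1 / 10000 : ℝ) ≤ (n : ℝ) ^ (1 / 2 : ℝ) :=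
    Real.rpow_le_rpow_of_exponent_le hnR (by norm_num)
  have h3 : (n : ℝ) ^ (1 / 2 : ℝ) * (n : ℝ) ^ (1 / 2 : ℝ) = n := by
    rw [← Real.rpow_add hn0]; norm_num
  have h4 : 0 < (n : ℝ) ^ (1 / 2 : ℝ) := Real.rpow_pos_of_pos hn0 _
  calc (C : ℝ) * (n : ℝ) ^ (1 / 10000 : ℝ) ≤ C * (n : ℝ) ^ (1 / 2 : ℝ) :=
        mul_le_mul_of_nonneg_left h2 (Nat.cast_nonneg _)
    _ < (n : ℝ) ^ (1 / 2 : ℝ) * (n : ℝ) ^ (1 / 2 : ℝ) := mul_lt_mul_of_pos_right h1 h4
    _ = n := h3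

open Classical in
/-- the two inequalities, the values of the forms being large -/
theorem tc_pw2_pt {ι : Type} [Fintype ι] [DecidableEq ι] {D n n' w : ℕ} (F : Fam ι D)
    (hn : F.N0 ≤ n) {Fp Fm : (ℕ → ℝ) → ℝ} (hF : Pre D n' Fp Fm) (i j : Option ι) (x : ℤ)
    (hwz : w ≤ z0 D n') (hj : (F.L n j x).toNat.Prime)
    (hL : ∀ l, z0 D n' < (F.L n l x).toNat) :
    (kapD w)⁻¹ * Fm (r2 F n w (z0 D n') i j x) ≤
      Lw w (F.L n i x).toNat * Fm (r2 F n w (z0 D n') i j x) ∧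
    thP (F.L n i x).toNat * Fm (r2 F n w (z0 D n') i j x) ≤
      if F.Rg n (z0 D n') x then thP (F.L n i x).toNat else 0 := by
  set z := z0 D n' with hz
  set ρ := r2 F n w z i j x with hρ
  have h01 : ∀ p, 0 ≤ ρ p ∧ ρ p ≤ 1 := by
    intro p
    rw [hρ]
    unfold r2
    split_ifs <;> norm_num
  have hpre := (hF.pt ρ (fun p _ => h01 p)).1
  have hGl : ∀ l, F.L n l x ∣ (F.G n).eval x := by
    intro l
    rw [F.hG n hn l, eval_mul]
    have : (Polynomial.C (F.u l) * Polynomial.X +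
        Polynomial.C (F.b l * (n : ℤ) + F.c l) : ℤ[X]).eval x = F.L n l x := by
      simp [Fam.L, Fam.v]
    rw [this]
    exact dvd_mul_right _ _
  have hW0 : ∀ p : ℕ, p.Prime → p ≤ z → ρ p = 1 → Fm ρ ≤ 0 := by
    intro p hp hpz h1
    refine hpre.trans (le_of_eq ?_)
    unfold W
    exact Finset.prod_eq_zero (mem_PK.2 ⟨hp, hpz⟩) (by rw [h1, sub_self])
  have hρ1 : ∀ p : ℕ, p.Prime → p ≤ z → (p : ℤ) ∣ (F.G n).eval x →
      (w < p → ¬ (p : ℤ) ∣ F.L n i x) → ρ p = 1 := by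
    intro p hp hpz hd hi
    rw [hρ]
    unfold r2
    rw [if_pos]
    exact ⟨hpz, hd, tc_pw2_nd hj (hL j) hp hpz, hi⟩
  have hi0 : 0 < F.L n i x := by
    have := hL i
    omega
  constructor
  · by_cases h : ∀ p : ℕ, p.Prime → p ≤ w → ¬ p ∣ (F.L n i x).toNat
    · unfold Lw
      rw [if_pos h]
    · have hk := tc_pw2_kap w
      unfold Lw
      rw [if_neg h, zero_mul]
      push Not at h
      obtain ⟨p, hp, hpw, hd⟩ := h
      have h1 : (p : ℤ) ∣ F.L n i x := by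
        have h2 : (p : ℤ) ∣ ((F.L n i x).toNat : ℤ) := by exact_mod_cast hd
        rwa [Int.toNat_of_nonneg hi0.le] at h2
      have h2 := hW0 p hp (by omega) (hρ1 p hp (by omega) (h1.trans (hGl i))
        (fun h3 => by omega))
      exact mul_nonpos_of_nonneg_of_nonpos (inv_nonneg.2 hk.le) h2
  · by_cases hp0 : thP (F.L n i x).toNat = 0
    · rw [hp0, zero_mul]
      split_ifs <;> exact le_refl _
    · have hip := tc_pw2_thP_prime hp0
      have hth := tc_pw2_thP_nonneg (F.L n i x).toNat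
      by_cases hR : F.Rg n z x
      · rw [if_pos hR]
        have h1 : Fm ρ ≤ 1 := by
          refine hpre.trans ?_
          unfold W
          exact Finset.prod_le_one (fun p _ => by have := h01 p; linarith)
            (fun p _ => by have := h01 p; linarith)
        calc thP (F.L n i x).toNat * Fm ρ ≤ thP (F.L n i x).toNat * 1 :=
              mul_le_mul_of_nonneg_left h1 hth
          _ = _ := mul_one _
      · rw [if_neg hR]
        unfold Fam.Rg at hR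
        push Not at hR
        obtain ⟨p, hp, hpz, hd⟩ := hR
        have h2 := hW0 p hp hpz (hρ1 p hp hpz hd (fun _ => tc_pw2_nd hip (hL i) hp hpz))
        exact mul_nonpos_of_nonneg_of_nonpos hth h2

theorem p_pw2 : S_pw2 := by
  intro hloc hlob ι _ _ D F k B0 B1 hk hD hB0 hB1
  obtain ⟨-, C, hC, hloc⟩ := hloc ι D F
  obtain ⟨M, hM⟩ := eventually_atTop.1 (hloc.and (tc_pw2_ev3 C))
  filter_upwards [hlob ι D F k hk, tc_pw2_ev1, tc_pw2_ev2 (B1 * B0), eventually_ge_atTop M,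
    eventually_ge_atTop (F.N0 + 1)] with N hlob hl hlB hNM hN0
  intro n hn n' P hPar
  have hn' := Finset.mem_Ioc.1 hn
  have hNk : N / k ≤ N := Nat.div_le_self N k
  have hw := tc_pw2_w (n := n) hB1 hl (by omega) (by omega) (by omega)
  have hwz : wN B1 N ≤ z0 D n' := tc_pw2_wz hlB (by omega) hl hPar.hzB
  refine ⟨⟨hw, hwz⟩, ?_⟩
  intro Fp Fm hF i j x hs
  obtain ⟨⟨-, hX, -⟩, hev⟩ := hM n (by omega)
  unfold sq at hs
  have hs1 := left_ne_zero_of_mul hs
  have hs2 := right_ne_zero_of_mul hs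
  have hjp := tc_pw2_thP_prime hs1
  have hj0 : 0 < F.L n j x := by
    have := hjp.pos
    omega
  obtain ⟨hnear, -⟩ := hlob n hn x j hj0 hs2
  have hnear' : |(x : ℝ) - F.xi * n| ≤ 2 * (F.hw * n) := by
    unfold Near at hnear
    have h1 : 0 ≤ F.hw * n := mul_nonneg F.hhw.le (Nat.cast_nonneg _)
    linarith
  obtain ⟨-, -, hLl⟩ := hX x hnear'
  have hlev1 : (1 : ℝ) ≤ (lev (2 * D) n' : ℝ) := by
    have : 1 ≤ lev (2 * D) n' := by
      have := tc_pw2_z D n'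
      have h2 : 1 ≤ z0 D n' := Nat.one_le_two_pow
      omega
    exact_mod_cast this
  have hz1 : (z0 D n' : ℝ) ≤ (n : ℝ) ^ (1 / 10000 : ℝ) := by
    have h1 : (z0 D n' : ℝ) ≤ (lev (2 * D) n' : ℝ) := by exact_mod_cast tc_pw2_z D n'
    have h2 : (lev (2 * D) n' : ℝ) ≤ (lev (2 * D) n' : ℝ) ^ 3 := by
      calc (lev (2 * D) n' : ℝ) = (lev (2 * D) n' : ℝ) ^ 1 := (pow_one _).symm
        _ ≤ _ := pow_le_pow_right₀ hlev1 (by norm_num)
    have h3 := hPar.hlev
    linarith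
  have hL : ∀ l, z0 D n' < (F.L n l x).toNat := by
    intro l
    have h1 := (hLl l).1
    have hCR : (0 : ℝ) < C := by exact_mod_cast hC
    have h2 : (C : ℝ) * (z0 D n' : ℝ) < C * (F.L n l x : ℝ) := by
      have h3 := mul_le_mul_of_nonneg_left hz1 hCR.le
      linarith
    have h3 : (z0 D n' : ℝ) < (F.L n l x : ℝ) := lt_of_mul_lt_mul_left h2 hCR.le
    have h4 : ((z0 D n' : ℕ) : ℤ) < F.L n l x := by exact_mod_cast h3
    omega
  exact tc_pw2_pt F (by omega) hF i j x hwz hjp hL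

end Pool.Agent.TC.M
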