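import Pool.Agent.Lib.MP_0da313_nt.TC.F

set_option autoImplicit false

namespace Pool.Agent.TC.F

open Finset Filter

theorem p_sg : S_sg := by
  intro u b c α β γ N0 h
  have hs : ∀ n : ℕ, N0 ≤ n → ∀ x : ℤ,
      (u * x + (b * n + c)) ^ 2 = (α * x + β * (n - x) + γ) ^ 2 := fun n hn x =>
    Int.natAbs_eq_iff_sq_eq.1 (h n hn x)
  have a1 := hs N0 le_rfl 0
  have a2 := hs N0 le_rfl 1
  have a3 := hs N0 le_rfl (-1)
  have a4 := hs (N0 + 1) (by omega) 0
  have a5 := hs (N0 + 1) (by omega) 1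
  have a6 := hs (N0 + 2) (by omega) 0
  push_cast at a1 a2 a3 a4 a5 a6
  have k1 : u ^ 2 = (α - β) ^ 2 := by linarith
  have k2 : u * b = (α - β) * β := by linarith
  have k3 : b ^ 2 = β ^ 2 := by linarith
  rcases sq_eq_sq_iff_eq_or_eq_neg.1 k1 with hu | hu
  · rw [hu] at k2
    by_cases ha : α - β = 0
    · rcases sq_eq_sq_iff_eq_or_eq_neg.1 k3 with hb | hb
      · exact Or.inl ⟨hu, hb⟩
      · right
        refine ⟨?_, hb⟩
        rw [hu, ha, neg_zero]
    · exact Or.inl ⟨hu, mul_left_cancel₀ ha k2⟩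
  · rw [hu] at k2
    by_cases ha : α - β = 0
    · rcases sq_eq_sq_iff_eq_or_eq_neg.1 k3 with hb | hb
      · left
        refine ⟨?_, hb⟩
        rw [hu, ha, neg_zero]
      · exact Or.inr ⟨hu, hb⟩
    · right
      refine ⟨hu, mul_left_cancel₀ ha ?_⟩
      linarith

end Pool.Agent.TC.F
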