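import Pool.Agent.Lib.MP_0da313_nt.TC.F
import Pool.Agent.Lib.MP_0da313_nt.CM.P.app

set_option autoImplicit false

/-!
Project TC, piece sys: the system of weights for two clusters.
-/

namespace Pool.Agent.TC.F

open Finset Filter Polynomial
open Pool.Agent.MP89da58 (bil pw nn supp part kapD mem_part)
open Pool.Agent.MT (PJf ZI Dl Dl_cop)
open Pool.Agent.BVall (lev)
open Pool.Agent.CM (Fam z0)
open Pool.Agent.TC.W (qf ten fL fR WP2)
open Pool.Agent.TC.M (DE Par2 Wt2)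

/-- the step `y0` -/
private lemma tc_sys_size {M : ℕ} (hM : 1 ≤ M) : ∀ᶠ n : ℕ in atTop, ∀ z : ℕ,
    (z : ℝ) ^ M ≤ (n : ℝ) ^ (1 / 10000 : ℝ) → ∃ y0 : ℕ, z ≤ y0 ∧ 2 ≤ y0 ∧
      (y0 : ℝ) ^ M ≤ (n : ℝ) ^ (1 / 10000 : ℝ) ∧ Real.log n ≤ 20000 * M * Real.log y0 := by
  have hMr : (1 : ℝ) ≤ M := by exact_mod_cast hM
  have hM0 : (M : ℝ) ≠ 0 := by linarith
  have hs : (0 : ℝ) < 1 / (10000 * M) := by positivity
  have ht : Tendsto (fun n : ℕ => (n : ℝ) ^ (1 / (10000 * M) : ℝ)) atTop atTop :=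
    (tendsto_rpow_atTop hs).comp tendsto_natCast_atTop_atTop
  filter_upwards [ht.eventually_ge_atTop 4, eventually_ge_atTop 1] with n hn hn1 z hz
  have hn1' : (1 : ℝ) ≤ n := by exact_mod_cast hn1
  have hn0 : (0 : ℝ) ≤ n := by linarith
  set t := (n : ℝ) ^ (1 / (10000 * M) : ℝ) with htdef
  have ht0 : 0 ≤ t := by linarith
  have htM : t ^ M = (n : ℝ) ^ (1 / 10000 : ℝ) := by
    rw [htdef, ← Real.rpow_natCast, ← Real.rpow_mul hn0]
    congr 1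
    field_simp
  have hfl : (⌊t⌋₊ : ℝ) ≤ t := Nat.floor_le ht0
  have hfl2 : t < ⌊t⌋₊ + 1 := Nat.lt_floor_add_one t
  refine ⟨⌊t⌋₊, ?_, ?_, ?_, ?_⟩
  · apply Nat.le_floor
    rw [← htM] at hz
    exact le_of_pow_le_pow_left₀ (by omega) ht0 hz
  · apply Nat.le_floor
    push_cast
    linarith
  · rw [← htM]
    exact pow_le_pow_left₀ (Nat.cast_nonneg _) hfl M
  · have h1 : Real.sqrt t ≤ ⌊t⌋₊ := by
      have h2 : 0 ≤ Real.sqrt t := Real.sqrt_nonneg t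
      have h3 : Real.sqrt t * Real.sqrt t = t := Real.mul_self_sqrt ht0
      have h4 : 2 ≤ Real.sqrt t := by
        rw [Real.le_sqrt (by norm_num) ht0]
        linarith
      nlinarith
    have h2 : 0 < Real.sqrt t := Real.sqrt_pos.2 (by linarith)
    have h3 := Real.log_le_log h2 h1
    rw [Real.log_sqrt ht0, htdef, Real.log_rpow (by linarith)] at h3
    have h4 : 1 / (10000 * (M : ℝ)) * Real.log n / 2 * (20000 * M) = Real.log n := by
      field_simp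
      ring
    calc Real.log n = 1 / (10000 * (M : ℝ)) * Real.log n / 2 * (20000 * M) := h4.symm
      _ ≤ Real.log ⌊t⌋₊ * (20000 * M) := mul_le_mul_of_nonneg_right h3 (by positivity)
      _ = _ := by ring

/-- the error of the quadratic forms -/
private lemma tc_sys_err {B0 : ℕ} (hB0 : 1 ≤ B0) (K1 K2 A : ℕ) {C1 C2 : ℝ} (Bb : ℝ)
    (hC1 : 0 < C1) (hC2 : 0 < C2) :
    ∀ᶠ n : ℕ in atTop, ∀ z : ℕ, n ≤ z ^ B0 → ∀ Q1 Q2 : ℝ, 0 ≤ Q1 → 0 ≤ Q2 →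
      Q1 ≤ C1 * (Real.log n) ^ (3 * K1) → Q2 ≤ C2 * (Real.log n) ^ (3 * K2) →
      ((K1 : ℝ) + 1) * (K2 + 1) * (Bb ^ 2 * ((9 * K1 * K2 * (2 / z : ℝ)) * (Q1 * Q2))) ≤
        1 / (Real.log n) ^ A := by
  have hs : (0 : ℝ) < 1 / B0 := by
    have : (0 : ℝ) < B0 := by exact_mod_cast hB0
    positivity
  filter_upwards [CM.F.ev_log_nat (18 * ((K1 : ℝ) + 1) * (K2 + 1) * Bb ^ 2 * K1 * K2 * C1 * C2)
    (3 * K1 + 3 * K2 + A) hs, eventually_ge_atTop 3] with n hn hn3 z hz Q1 Q2 hQ1 hQ2 h1 h2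
  have hn3' : (3 : ℝ) ≤ n := by exact_mod_cast hn3
  have hn0 : (0 : ℝ) < n := by linarith
  set L := Real.log n with hL
  have hL0 : 0 < L := Real.log_pos (by linarith)
  have hz0 : 0 < z := by
    rcases Nat.eq_zero_or_pos z with h | h
    · rw [h, zero_pow (by omega)] at hz
      omega
    · exact h
  have hzR : (0 : ℝ) < z := by exact_mod_cast hz0
  have hzn : (n : ℝ) ^ (1 / B0 : ℝ) ≤ z := by
    have h1 : (n : ℝ) ≤ (z : ℝ) ^ B0 := by exact_mod_cast hz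
    have h2 : (n : ℝ) ^ (1 / B0 : ℝ) ≤ ((z : ℝ) ^ B0) ^ (1 / B0 : ℝ) :=
      Real.rpow_le_rpow hn0.le h1 hs.le
    rw [← Real.rpow_natCast, ← Real.rpow_mul hzR.le] at h2
    have h3 : ((B0 : ℕ) : ℝ) * (1 / B0 : ℝ) = 1 := by
      have : (B0 : ℝ) ≠ 0 := by
        have : (0 : ℝ) < B0 := by exact_mod_cast hB0
        exact this.ne'
      field_simp
    rwa [h3, Real.rpow_one] at h2
  have h4 := hn.trans hzn
  have hQ : Q1 * Q2 ≤ (C1 * L ^ (3 * K1)) * (C2 * L ^ (3 * K2)) :=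
    mul_le_mul h1 h2 hQ2 (by positivity)
  have hLA : 0 < L ^ A := by positivity
  calc ((K1 : ℝ) + 1) * (K2 + 1) * (Bb ^ 2 * ((9 * K1 * K2 * (2 / z : ℝ)) * (Q1 * Q2)))
      ≤ ((K1 : ℝ) + 1) * (K2 + 1) * (Bb ^ 2 * ((9 * K1 * K2 * (2 / z : ℝ)) *
          ((C1 * L ^ (3 * K1)) * (C2 * L ^ (3 * K2))))) := by
        apply mul_le_mul_of_nonneg_left _ (by positivity)
        apply mul_le_mul_of_nonneg_left _ (sq_nonneg _)
        exact mul_le_mul_of_nonneg_left hQ (by positivity)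
    _ = 1 / L ^ A * ((18 * ((K1 : ℝ) + 1) * (K2 + 1) * Bb ^ 2 * K1 * K2 * C1 * C2 *
          L ^ (3 * K1 + 3 * K2 + A)) / z) := by
        rw [pow_add, pow_add]
        field_simp
        ring
    _ ≤ 1 / L ^ A * 1 := by
        apply mul_le_mul_of_nonneg_left _ (by positivity)
        rw [div_le_one hzR]
        exact h4
    _ = _ := by ring

/-- the product over the primes of `P` -/
private lemma tc_sys_prod {P : Finset ℕ} {n k : ℕ} (hP : ∀ p ∈ P, p.Prime ∧ p ≤ n) {C : ℝ}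
    (h : ∏ p ∈ (Icc 1 n).filter Nat.Prime, (1 + (k : ℝ) / ((p : ℝ) - 1)) ≤ C * (Real.log n) ^ k) :
    0 ≤ ∏ j : PJf P, (1 + (k : ℝ) * (1 / (((j : ℕ) : ℝ) - 1))) ∧
    ∏ j : PJf P, (1 + (k : ℝ) * (1 / (((j : ℕ) : ℝ) - 1))) ≤ C * (Real.log n) ^ k := by
  have h0 : ∀ p : ℕ, p.Prime → 0 ≤ (k : ℝ) / ((p : ℝ) - 1) := by
    intro p hp
    have h1 : (2 : ℝ) ≤ p := by exact_mod_cast hp.two_le
    exact div_nonneg (Nat.cast_nonneg _) (by linarith)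
  have h1 : ∏ j : PJf P, (1 + (k : ℝ) * (1 / (((j : ℕ) : ℝ) - 1))) =
      ∏ p ∈ P, (1 + (k : ℝ) / ((p : ℝ) - 1)) := by
    rw [← Finset.prod_coe_sort P (fun p : ℕ => 1 + (k : ℝ) / ((p : ℝ) - 1))]
    refine Finset.prod_congr rfl fun j _ => ?_
    rw [mul_one_div]
  rw [h1]
  constructor
  · refine Finset.prod_nonneg fun p hp => ?_
    have := h0 p (hP p hp).1
    linarith
  · refine le_trans (CM.F.prod_le_of_subset ?_ (fun p : ℕ => 1 + (k : ℝ) / ((p : ℝ) - 1)) ?_) h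
    · intro p hp
      rw [mem_filter, mem_Icc]
      exact ⟨⟨(hP p hp).1.one_lt.le, (hP p hp).2⟩, (hP p hp).1⟩
    · intro p hp
      rw [mem_filter] at hp
      have := h0 p hp.2
      linarith

/-- assembling the system -/
private lemma tc_sys_asm (htz : W.R_tz) (htsup : W.R_tsup) {ι ι₁ ι₂ : Type} [Fintype ι]
    [DecidableEq ι] [Fintype ι₁] [DecidableEq ι₁] [Fintype ι₂] [DecidableEq ι₂] {D : ℕ}
    (F : Fam ι D) {em : ι₁ ⊕ ι₂ → Option ι} (hem : Function.Injective em) {n B R : ℕ}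
    {P : Finset ℕ} (hn : 1 ≤ n)
    (hdet : ∀ p ∈ P, ∀ l l', l ≠ l' → ¬ (p : ℤ) ∣ F.u l * F.v n l' - F.u l' * F.v n l)
    (hR : (R : ℝ) ≤ (n : ℝ) ^ (1 / 10000 : ℝ)) {κn e δ τ₁ τ₂ B1 B2 A1 A2 : ℝ}
    {lam1 : (PJf P → Option ι₁) → ℝ} {lami1 : ι₁ → (PJf P → Option ι₁) → ℝ}
    {lam2 : (PJf P → Option ι₂) → ℝ} {lami2 : ι₂ → (PJf P → Option ι₂) → ℝ}
    (hκ : 0 ≤ κn) (hτ1 : 0 ≤ τ₁) (hτ2 : 0 ≤ τ₂) (hB : B1 * B2 = (B : ℝ))
    (h1 : WP2 P R B1 A1 (τ₁ * κn) lam1 lami1) (h2 : WP2 P R B2 A2 (τ₂ * κn) lam2 lami2)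
    (hδ0 : 0 ≤ δ)
    (hδ : ∀ (f : (PJf P → Option ι₁) → ℝ) (g : (PJf P → Option ι₂) → ℝ), (∀ α, |f α| ≤ B1) →
      (∀ α, |g α| ≤ B2) → |qf (ten f g) - qf f * qf g| ≤ δ)
    (he : ((Fintype.card ι₁ : ℝ) + 1) * ((Fintype.card ι₂ : ℝ) + 1) * δ ≤ e) :
    Sys F em n B P κn e τ₁ τ₂ (ten lam1 lam2) (fun i => ten (lami1 i) lam2)
      (fun j => ten lam1 (lami2 j)) (fun i j => ten (lami1 i) (lami2 j)) A1 A2
      (∑ i, qf (lami1 i)) (∑ j, qf (lami2 j)) := by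
  have hn0 : (0 : ℝ) < n := by exact_mod_cast hn
  have hRR : ((R * R : ℕ) : ℝ) ≤ (n : ℝ) ^ (1 / 5000 : ℝ) := by
    push_cast
    calc (R : ℝ) * R ≤ (n : ℝ) ^ (1 / 10000 : ℝ) * (n : ℝ) ^ (1 / 10000 : ℝ) :=
          mul_le_mul hR hR (Nat.cast_nonneg _) (by positivity)
      _ = (n : ℝ) ^ (1 / 5000 : ℝ) := by
          rw [← Real.rpow_add hn0]
          norm_num
  have hcop : ∀ (x : ℤ) (j : PJf P) (l l' : ι₁ ⊕ ι₂), l ≠ l' →
      ¬ (DE F em n P j l x ∧ DE F em n P j l' x) := by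
    intro x j l l' hl
    exact Dl_cop (u := fun k => F.u (em k)) (v := fun k => F.v n (em k))
      (fun p hp l l' hl => hdet p hp (em l) (em l') fun h => hl (hem h)) j l l' x hl
  have hsup : ∀ (f : (PJf P → Option ι₁) → ℝ) (g : (PJf P → Option ι₂) → ℝ),
      (∀ α, |f α| ≤ B1) → (∀ α, |g α| ≤ B2) →
      (∀ α, f α ≠ 0 → nn (fun j : PJf P => (j : ℕ)) (supp α) ≤ R) →
      (∀ α, g α ≠ 0 → nn (fun j : PJf P => (j : ℕ)) (supp α) ≤ R) →
      (∀ α, |ten f g α| ≤ B) ∧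
      (∀ α, ten f g α ≠ 0 →
        ((nn (fun j : PJf P => (j : ℕ)) (supp α) : ℕ) : ℝ) ≤ (n : ℝ) ^ (1 / 5000 : ℝ)) ∧
      ∀ α, ten f g α ≠ 0 → f (fL α) ≠ 0 ∧ g (fR α) ≠ 0 := by
    intro f g hf hg hf2 hg2
    obtain ⟨e1, e2, e3, e4⟩ := htsup ι₁ ι₂ P f g B1 B2 R R hf hg hf2 hg2
    refine ⟨fun α => (e1 α).trans_eq hB, fun α hα => ?_, fun α hα => (e2 α hα).2⟩
    have h3 : ((nn (fun j : PJf P => (j : ℕ)) (supp α) : ℕ) : ℝ) ≤ ((R * R : ℕ) : ℝ) := by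
      exact_mod_cast (e2 α hα).1
    exact h3.trans hRR
  have hpL : ∀ (α : PJf P → Option (ι₁ ⊕ ι₂)) (i : ι₁), part α (Sum.inl i) = part (fL α) i :=
    (htsup ι₁ ι₂ P lam1 lam2 B1 B2 R R h1.bd h2.bd h1.sup h2.sup).2.2.1
  have hpR : ∀ (α : PJf P → Option (ι₁ ⊕ ι₂)) (i : ι₂), part α (Sum.inr i) = part (fR α) i :=
    (htsup ι₁ ι₂ P lam1 lam2 B1 B2 R R h1.bd h2.bd h1.sup h2.sup).2.2.2
  have hneL : ∀ (i : ι₁) (α : PJf P → Option (ι₁ ⊕ ι₂)), lami1 i (fL α) ≠ 0 →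
      ∀ p k, α p = some k → em k ≠ em (Sum.inl i) := by
    intro i α hα p k hk he
    have h3 := (h1.supi i _ hα).1
    rw [← hpL] at h3
    rw [hem he] at hk
    have h4 : p ∈ part α (Sum.inl i) := mem_part.2 hk
    rw [h3] at h4
    simp at h4
  have hneR : ∀ (i : ι₂) (α : PJf P → Option (ι₁ ⊕ ι₂)), lami2 i (fR α) ≠ 0 →
      ∀ p k, α p = some k → em k ≠ em (Sum.inr i) := by
    intro i α hα p k hk he
    have h3 := (h2.supi i _ hα).1
    rw [← hpR] at h3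
    rw [hem he] at hk
    have h4 : p ∈ part α (Sum.inr i) := mem_part.2 hk
    rw [h3] at h4
    simp at h4
  have hq1 : ∀ i, 0 ≤ qf (lami1 i) := fun i =>
    le_trans (mul_nonneg (mul_nonneg hτ1 hκ) (zero_le_one.trans h1.one)) (h1.lo i)
  have hq2 : ∀ i, 0 ≤ qf (lami2 i) := fun i =>
    le_trans (mul_nonneg (mul_nonneg hτ2 hκ) (zero_le_one.trans h2.one)) (h2.lo i)
  have hβ1 : 0 ≤ ∑ i, qf (lami1 i) := Finset.sum_nonneg fun i _ => hq1 i
  have hβ2 : 0 ≤ ∑ j, qf (lami2 j) := Finset.sum_nonneg fun i _ => hq2 i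
  have hK1 : (0 : ℝ) ≤ Fintype.card ι₁ := Nat.cast_nonneg _
  have hK2 : (0 : ℝ) ≤ Fintype.card ι₂ := Nat.cast_nonneg _
  have he1 : (Fintype.card ι₁ : ℝ) * δ ≤ e := by
    nlinarith [mul_nonneg hK1 hδ0, mul_nonneg hK2 hδ0, mul_nonneg (mul_nonneg hK1 hK2) hδ0]
  have he2 : (Fintype.card ι₂ : ℝ) * δ ≤ e := by
    nlinarith [mul_nonneg hK1 hδ0, mul_nonneg hK2 hδ0, mul_nonneg (mul_nonneg hK1 hK2) hδ0]
  have he12 : (Fintype.card ι₁ : ℝ) * (Fintype.card ι₂ : ℝ) * δ ≤ e := by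
    nlinarith [mul_nonneg hK1 hδ0, mul_nonneg hK2 hδ0, mul_nonneg (mul_nonneg hK1 hK2) hδ0]
  exact
    { bd := (hsup lam1 lam2 h1.bd h2.bd h1.sup h2.sup).1
      w1 := fun i => by
        obtain ⟨e1, e2, e3⟩ := hsup (lami1 i) lam2 (h1.bdi i) h2.bd (fun α hα => (h1.supi i α hα).2)
          h2.sup
        exact ⟨e1, e2, fun α hα p k hk =>
          ⟨hneL i α (e3 α hα).1 p k hk, hneL i α (e3 α hα).1 p k hk⟩⟩
      w2 := fun j => by
        obtain ⟨e1, e2, e3⟩ := hsup lam1 (lami2 j) h1.bd (h2.bdi j) h1.sup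
          (fun α hα => (h2.supi j α hα).2)
        exact ⟨e1, e2, fun α hα p k hk =>
          ⟨hneR j α (e3 α hα).2 p k hk, hneR j α (e3 α hα).2 p k hk⟩⟩
      w12 := fun i j => by
        obtain ⟨e1, e2, e3⟩ := hsup (lami1 i) (lami2 j) (h1.bdi i) (h2.bdi j)
          (fun α hα => (h1.supi i α hα).2) (fun α hα => (h2.supi j α hα).2)
        exact ⟨e1, e2, fun α hα p k hk =>
          ⟨hneL i α (e3 α hα).1 p k hk, hneR j α (e3 α hα).2 p k hk⟩⟩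
      l1 := fun i x hx => by
        rw [htz ι₁ ι₂ (PJf P) (DE F em n P) lam1 lam2 x (fun j l l' h => hcop x j l l' h),
          htz ι₁ ι₂ (PJf P) (DE F em n P) (lami1 i) lam2 x (fun j l l' h => hcop x j l l' h),
          h1.link i (fun j i => DE F em n P j (Sum.inl i)) x (fun j => hx j.1 j.2)]
      l2 := fun i x hx => by
        rw [htz ι₁ ι₂ (PJf P) (DE F em n P) lam1 lam2 x (fun j l l' h => hcop x j l l' h),
          htz ι₁ ι₂ (PJf P) (DE F em n P) lam1 (lami2 i) x (fun j l l' h => hcop x j l l' h),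
          h2.link i (fun j i => DE F em n P j (Sum.inr i)) x (fun j => hx j.1 j.2)]
      l12 := fun i i' x hx hx' => by
        rw [htz ι₁ ι₂ (PJf P) (DE F em n P) lam1 lam2 x (fun j l l' h => hcop x j l l' h),
          htz ι₁ ι₂ (PJf P) (DE F em n P) (lami1 i) (lami2 i') x (fun j l l' h => hcop x j l l' h),
          h1.link i (fun j i => DE F em n P j (Sum.inl i)) x (fun j => hx j.1 j.2),
          h2.link i' (fun j i => DE F em n P j (Sum.inr i)) x (fun j => hx' j.1 j.2)]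
      a1 := h1.one
      a2 := h2.one
      b1 := by
        calc (Fintype.card ι₁ : ℝ) * (τ₁ * κn * A1) = ∑ _i : ι₁, τ₁ * κn * A1 := by
              rw [Finset.sum_const, Finset.card_univ, nsmul_eq_mul]
          _ ≤ _ := Finset.sum_le_sum fun i _ => h1.lo i
      b2 := by
        calc (Fintype.card ι₂ : ℝ) * (τ₂ * κn * A2) = ∑ _i : ι₂, τ₂ * κn * A2 := by
              rw [Finset.sum_const, Finset.card_univ, nsmul_eq_mul]
          _ ≤ _ := Finset.sum_le_sum fun i _ => h2.lo i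
      s12 := by
        have h3 : ∑ i, ∑ j, (qf (lami1 i) * qf (lami2 j) - δ) ≤
            ∑ i, ∑ j, qf (ten (lami1 i) (lami2 j)) := by
          refine Finset.sum_le_sum fun i _ => Finset.sum_le_sum fun j _ => ?_
          have := (abs_le.1 (hδ (lami1 i) (lami2 j) (h1.bdi i) (h2.bdi j))).1
          linarith
        have h4 : ∑ i, ∑ j, (qf (lami1 i) * qf (lami2 j) - δ) =
            (∑ i, qf (lami1 i)) * (∑ j, qf (lami2 j)) -
              (Fintype.card ι₁ : ℝ) * (Fintype.card ι₂ : ℝ) * δ := by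
          rw [Finset.sum_mul_sum]
          simp only [Finset.sum_sub_distrib, Finset.sum_const, Finset.card_univ, nsmul_eq_mul]
          ring
        rw [h4] at h3
        linarith
      s1 := by
        have h3 : ∑ i, qf (ten (lami1 i) lam2) ≤ ∑ i, (qf (lami1 i) * (2 * A2) + δ) := by
          refine Finset.sum_le_sum fun i _ => ?_
          have h4 := (abs_le.1 (hδ (lami1 i) lam2 (h1.bdi i) h2.bd)).2
          have h5 := mul_le_mul_of_nonneg_left h2.up (hq1 i)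
          linarith
        refine h3.trans ?_
        rw [Finset.sum_add_distrib, ← Finset.sum_mul, Finset.sum_const, Finset.card_univ,
          nsmul_eq_mul]
        linarith
      s2 := by
        have h3 : ∑ j, qf (ten lam1 (lami2 j)) ≤ ∑ j, ((2 * A1) * qf (lami2 j) + δ) := by
          refine Finset.sum_le_sum fun j _ => ?_
          have h4 := (abs_le.1 (hδ lam1 (lami2 j) h1.bd (h2.bdi j))).2
          have h5 := mul_le_mul_of_nonneg_right h1.up (hq2 j)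
          linarith
        refine h3.trans ?_
        rw [Finset.sum_add_distrib, ← Finset.mul_sum, Finset.sum_const, Finset.card_univ,
          nsmul_eq_mul]
        linarith }

theorem p_sys : S_sys := by
  intro hwpg htz htsup hbt hpr hRP
  obtain ⟨c, hc0, hc1, hw⟩ := hwpg
  refine ⟨c, hc0, hc1, ?_⟩
  intro ι₁ ι₂ _ _ _ _ _ _
  obtain ⟨M1, hM1, hw1⟩ := hw ι₁
  obtain ⟨M2, hM2, hw2⟩ := hw ι₂
  have hM : 1 ≤ M1 * M2 := Nat.mul_pos hM1 hM2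
  refine ⟨M1 * M2, hM, ?_⟩
  intro B0 hB0
  refine ⟨B0 ^ Fintype.card ι₁ * B0 ^ Fintype.card ι₂,
    Nat.mul_pos (pow_pos hB0 _) (pow_pos hB0 _), ?_⟩
  intro D A ι _ _ F em hem hD
  obtain ⟨C1, hC1, hpr1⟩ := hpr (3 * Fintype.card ι₁)
  obtain ⟨C2, hC2, hpr2⟩ := hpr (3 * Fintype.card ι₂)
  filter_upwards [hw1 B0 hB0, hw2 B0 hB0, tc_sys_size hM, hRP ι D F B0 hB0,
    tc_sys_err hB0 (Fintype.card ι₁) (Fintype.card ι₂) A
      ((B0 : ℝ) ^ Fintype.card ι₁ * (B0 : ℝ) ^ Fintype.card ι₂) hC1 hC2,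
    eventually_ge_atTop 3] with n h1 h2 hsize hP herr hn3
  intro n' hzB hlev
  set z := z0 D n' with hz
  have hn3' : (3 : ℝ) ≤ n := by exact_mod_cast hn3
  have hn1' : (1 : ℝ) ≤ n := by linarith
  have hz2 : 2 ≤ z := by
    rw [hz]
    unfold z0
    calc 2 = 2 ^ 1 := rfl
      _ ≤ _ := Nat.pow_le_pow_right (by norm_num) Nat.one_le_two_pow
  have hzr : (2 : ℝ) ≤ z := by exact_mod_cast hz2
  have hzlev : (z : ℝ) ≤ lev (2 * D) n' := by exact_mod_cast CM.F.z0_le_lev D n'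
  have hlev1 : (1 : ℝ) ≤ lev (2 * D) n' := by linarith
  have hzM : (z : ℝ) ^ (M1 * M2) ≤ (n : ℝ) ^ (1 / 10000 : ℝ) := by
    calc (z : ℝ) ^ (M1 * M2) ≤ (lev (2 * D) n' : ℝ) ^ (M1 * M2) :=
          pow_le_pow_left₀ (Nat.cast_nonneg _) hzlev _
      _ ≤ (lev (2 * D) n' : ℝ) ^ (3 * (M1 * M2)) := pow_le_pow_right₀ hlev1 (by omega)
      _ ≤ _ := hlev
  obtain ⟨y0, hzy, hy2, hyM, hLy⟩ := hsize z hzM
  have hlogy : Real.log ((y0 ^ M2 : ℕ) : ℝ) = M2 * Real.log y0 := by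
    push_cast
    rw [Real.log_pow]
  have hlogy' : Real.log ((y0 ^ M1 : ℕ) : ℝ) = M1 * Real.log y0 := by
    push_cast
    rw [Real.log_pow]
  set R := y0 ^ (M1 * M2) with hR
  have e1 : (y0 ^ M2) ^ M1 = R := by rw [hR, ← pow_mul, mul_comm]
  have e2 : (y0 ^ M1) ^ M2 = R := by rw [hR, ← pow_mul]
  have hRr : (R : ℝ) ≤ (n : ℝ) ^ (1 / 10000 : ℝ) := by
    rw [hR]
    push_cast
    exact hyM
  have hRn : (R : ℝ) ≤ n := by
    refine hRr.trans ?_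
    calc (n : ℝ) ^ (1 / 10000 : ℝ) ≤ (n : ℝ) ^ (1 : ℝ) :=
          Real.rpow_le_rpow_of_exponent_le hn1' (by norm_num)
      _ = n := Real.rpow_one _
  have hRn' : R ≤ n := by exact_mod_cast hRn
  obtain ⟨-, -, P, Ex, hP1, hP2, hP3, hP4⟩ := hP z R hzB
  have hPz : ∀ p ∈ P, z < p := fun p hp => (hP1 p hp).2.1
  obtain ⟨lam1, lami1, A1, τ1, g1, t1a, t1b, t1c⟩ := h1 z (y0 ^ M2) hzB
    (hzy.trans (Nat.le_self_pow (by omega) _)) (by
      have : (((y0 ^ M2) ^ M1 : ℕ) : ℝ) ≤ (n : ℝ) ^ (1 / 10000 : ℝ) := by rw [e1]; exact hRr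
      push_cast at this ⊢
      exact this) (by
      rw [hlogy]
      refine hLy.trans_eq ?_
      push_cast
      ring) P Ex (by rw [e1]; exact hP1) (by rw [e1]; exact hP3) hP4
  obtain ⟨lam2, lami2, A2, τ2, g2, t2a, t2b, t2c⟩ := h2 z (y0 ^ M1) hzB
    (hzy.trans (Nat.le_self_pow (by omega) _)) (by
      have : (((y0 ^ M1) ^ M2 : ℕ) : ℝ) ≤ (n : ℝ) ^ (1 / 10000 : ℝ) := by rw [e2]; exact hRr
      push_cast at this ⊢
      exact this) (by
      rw [hlogy']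
      refine hLy.trans_eq ?_
      push_cast
      ring) P Ex (by rw [e2]; exact hP1) (by rw [e2]; exact hP3) hP4
  rw [e1] at g1
  rw [e2] at g2
  have hκ : 0 ≤ kapD z * Real.log n :=
    mul_nonneg (MT.kapD_pos z).le (Real.log_nonneg hn1')
  have hB0r : (1 : ℝ) ≤ B0 := by exact_mod_cast hB0
  have hτ1 : 0 ≤ τ1 := le_trans (by positivity) t1a
  have hτ2 : 0 ≤ τ2 := le_trans (by positivity) t2a
  have hPn : ∀ p ∈ P, p.Prime ∧ p ≤ n := fun p hp => ⟨(hP1 p hp).1, (hP1 p hp).2.2.trans hRn'⟩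
  obtain ⟨q1a, q1b⟩ := tc_sys_prod hPn (hpr1 n hn3)
  obtain ⟨q2a, q2b⟩ := tc_sys_prod hPn (hpr2 n hn3)
  have herr' := herr z hzB _ _ q1a q2a q1b q2b
  set Q1 := ∏ j : PJf P, (1 + ((3 * Fintype.card ι₁ : ℕ) : ℝ) * (1 / (((j : ℕ) : ℝ) - 1))) with hQ1
  set Q2 := ∏ j : PJf P, (1 + ((3 * Fintype.card ι₂ : ℕ) : ℝ) * (1 / (((j : ℕ) : ℝ) - 1))) with hQ2
  refine ⟨P, τ1, τ2, ten lam1 lam2, (fun i => ten (lami1 i) lam2),
      (fun j => ten lam1 (lami2 j)), (fun i j => ten (lami1 i) (lami2 j)), A1, A2,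
      (∑ i, qf (lami1 i)), (∑ j, qf (lami2 j)), ?_, ?_, ⟨t1a, t1b, t1c⟩, ⟨t2a, t2b, t2c⟩⟩
  · refine ⟨hzB, ?_, ?_, hP2⟩
    · refine le_trans ?_ hlev
      exact pow_le_pow_right₀ hlev1 (by omega)
    · intro p hp
      refine ⟨(hP1 p hp).1, (hP1 p hp).2.1, ?_⟩
      have : (p : ℝ) ≤ R := by exact_mod_cast (hP1 p hp).2.2
      exact this.trans hRr
  · refine tc_sys_asm htz htsup F hem (by omega) hP2 hRr hκ hτ1 hτ2 (by push_cast; rfl) g1 g2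
      ?_ ?_ herr'
    · positivity
    · intro f g hf hg
      have h3 := hbt ι₁ ι₂ P z hz2 hPz f g _ _ hf hg
      refine h3.trans_eq ?_
      rw [hQ1, hQ2]
      push_cast
      rfl

end Pool.Agent.TC.F
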