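import Pool.Agent.Lib.MP_0da313_nt.TC.W

set_option autoImplicit false

/-!
[TC tsup]: support, size and parts of a tensor product.
-/

namespace Pool.Agent.TC.W

open Finset
open Pool.Agent.MP89da58 (nn supp part mem_supp mem_part)
open Pool.Agent.MT (PJf)

private theorem tc_tsup_L {J ι₁ ι₂ : Type} (α : J → Option (ι₁ ⊕ ι₂)) (j : J) (i : ι₁) :
    fL α j = some i ↔ α j = some (Sum.inl i) := by
  unfold fL
  rcases α j with _ | (a | b) <;> simp

private theorem tc_tsup_R {J ι₁ ι₂ : Type} (α : J → Option (ι₁ ⊕ ι₂)) (j : J) (i : ι₂) :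
    fR α j = some i ↔ α j = some (Sum.inr i) := by
  unfold fR
  rcases α j with _ | (a | b) <;> simp

private theorem tc_tsup_nn {J ι₁ ι₂ : Type} [Fintype J] [DecidableEq J] [DecidableEq ι₁]
    [DecidableEq ι₂] (q : J → ℕ) (α : J → Option (ι₁ ⊕ ι₂)) :
    nn q (supp α) = nn q (supp (fL α)) * nn q (supp (fR α)) := by
  unfold nn supp
  rw [Finset.prod_filter, Finset.prod_filter, Finset.prod_filter, ← Finset.prod_mul_distrib]
  refine Finset.prod_congr rfl fun j _ => ?_
  unfold fL fR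
  rcases α j with _ | (a | b) <;> simp

theorem p_tsup : S_tsup := by
  intro ι₁ ι₂ _ _ _ _ P f g B1 B2 Y1 Y2 hf hg hf1 hg1
  have hB1 : 0 ≤ B1 := (abs_nonneg _).trans (hf fun _ => none)
  refine ⟨?_, ?_, ?_, ?_⟩
  · intro α
    unfold ten
    rw [abs_mul]
    exact mul_le_mul (hf _) (hg _) (abs_nonneg _) hB1
  · intro α h
    unfold ten at h
    have h1 : f (fL α) ≠ 0 := left_ne_zero_of_mul h
    have h2 : g (fR α) ≠ 0 := right_ne_zero_of_mul h
    refine ⟨?_, h1, h2⟩
    rw [tc_tsup_nn]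
    exact Nat.mul_le_mul (hf1 _ h1) (hg1 _ h2)
  · intro α i
    ext j
    rw [mem_part, mem_part, tc_tsup_L]
  · intro α i
    ext j
    rw [mem_part, mem_part, tc_tsup_R]

end Pool.Agent.TC.W
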