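import Pool.Agent.Lib.MP_0da313_nt.TC.W

set_option autoImplicit false

/-!
The sieve sum of a tensor product is the product of the sieve sums.
-/

namespace Pool.Agent.TC.W

open Finset
open Pool.Agent.MT (dvI ZI)

private theorem tc_tz_fL {J ι₁ ι₂ : Type} (α : J → Option (ι₁ ⊕ ι₂)) (j : J) (i : ι₁) :
    fL α j = some i ↔ α j = some (Sum.inl i) := by
  unfold fL
  rcases h : α j with _ | (a | b) <;> simp

private theorem tc_tz_fR {J ι₁ ι₂ : Type} (α : J → Option (ι₁ ⊕ ι₂)) (j : J) (i : ι₂) :
    fR α j = some i ↔ α j = some (Sum.inr i) := by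
  unfold fR
  rcases h : α j with _ | (a | b) <;> simp

/-- The assignment with given components. -/
private def tc_tz_mk {J ι₁ ι₂ : Type} (p : (J → Option ι₁) × (J → Option ι₂)) :
    J → Option (ι₁ ⊕ ι₂) := fun j => match p.1 j, p.2 j with
  | some a, _ => some (Sum.inl a)
  | none, some b => some (Sum.inr b)
  | none, none => none

theorem p_tz : S_tz := by
  classical
  intro ι₁ ι₂ J _ _ _ _ _ _ D f g y hD
  unfold ZI
  rw [← Finset.sum_filter, ← Finset.sum_filter, ← Finset.sum_filter, Finset.sum_mul_sum,
    ← Finset.sum_product']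
  refine Finset.sum_nbij' (fun α => (fL α, fR α)) tc_tz_mk ?_ ?_ ?_ ?_ ?_
  · intro α hα
    simp only [Finset.mem_filter, Finset.mem_univ, true_and, Finset.mem_product] at hα ⊢
    constructor
    · intro j l hl
      exact hα j _ ((tc_tz_fL α j l).1 hl)
    · intro j l hl
      exact hα j _ ((tc_tz_fR α j l).1 hl)
  · intro p hp
    simp only [Finset.mem_filter, Finset.mem_univ, true_and, Finset.mem_product] at hp ⊢
    intro j l hl
    unfold tc_tz_mk at hl
    rcases h1 : p.1 j with _ | a
    · rcases h2 : p.2 j with _ | b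
      · simp [h1, h2] at hl
      · simp only [h1, h2, Option.some.injEq] at hl
        rw [← hl]
        exact hp.2 j b h2
    · simp only [h1, Option.some.injEq] at hl
      rw [← hl]
      exact hp.1 j a h1
  · intro α _
    funext j
    unfold tc_tz_mk fL fR
    rcases h : α j with _ | (a | b) <;> simp [h]
  · intro p hp
    simp only [Finset.mem_filter, Finset.mem_univ, true_and, Finset.mem_product] at hp
    have h0 : ∀ j, fL (tc_tz_mk p) j = p.1 j ∧ fR (tc_tz_mk p) j = p.2 j := by
      intro j
      unfold tc_tz_mk fL fR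
      rcases h1 : p.1 j with _ | a
      · rcases h2 : p.2 j with _ | b <;> simp [h1, h2]
      · rcases h2 : p.2 j with _ | b
        · simp [h1]
        · exact absurd ⟨hp.1 j a h1, hp.2 j b h2⟩ (hD j _ _ (by simp))
    refine Prod.ext ?_ ?_
    · funext j; exact (h0 j).1
    · funext j; exact (h0 j).2
  · intro α _
    rfl

end Pool.Agent.TC.W
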