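import Pool.Agent.Lib.MP_0da313_nt.TC.M

set_option autoImplicit false

/-!
Project TC, piece wm2: the size of the weights at the points without small prime factors.
-/

namespace Pool.Agent.TC.M

open Finset Filter Polynomial
open ArithmeticFunction (cardFactors)
open Pool.Agent.MT (PJf ZI Dl)
open Pool.Agent.CH (thP)
open Pool.Agent.CM (Fam z0)

open Classical in
/-- the size of the weights at one point -/
private lemma tc_wm2_point {ι κ : Type} [Fintype ι] [DecidableEq ι] [Fintype κ] [DecidableEq κ]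
    {D : ℕ} (F : Fam ι D) (e : κ → Option ι) {n C z B0 B : ℕ} (hN0 : F.N0 ≤ n) (hC : C < z)
    (hzB : n ≤ z ^ B0) (hz1 : 1 < z) (hn0 : 0 < n) {P : Finset ℕ}
    (hP : ∀ p ∈ P, p.Prime) {g : (PJf P → Option κ) → ℝ} (hg : ∀ α, |g α| ≤ B) {x : ℤ}
    (hv : ∀ l', 0 < F.L n l' x ∧ (F.L n l' x : ℝ) ≤ C * n) (hR : F.Rg n z x) :
    ZI (DE F e n P) g x ^ 2 ≤ (2 ^ (Fintype.card κ * (B0 + 1)) * (B : ℝ)) ^ 2 := by
  have key : |ZI (DE F e n P) g x| ≤ 2 ^ (Fintype.card κ * (B0 + 1)) * (B : ℝ) := by
    apply Pool.Agent.MT.abs_ZI_le (DE F e n P) x (Fintype.card κ * (B0 + 1)) g B hg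
    have h0 : ∀ l : κ, (univ.filter (fun j : PJf P => DE F e n P j l x)).card ≤ B0 + 1 := by
      intro l
      have hm := (hv (e l)).1
      have hm2 := (hv (e l)).2
      have h1 := Pool.Agent.MT.card_dvd_le hP (A := F.L n (e l) x) hm.ne'
      have h2 : (univ.filter (fun j : PJf P => DE F e n P j l x)).card ≤
          cardFactors (F.L n (e l) x).natAbs := by
        refine le_trans (Finset.card_le_card ?_) h1
        intro j hj
        rw [Finset.mem_filter] at hj ⊢
        exact ⟨hj.1, hj.2⟩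
      refine h2.trans ?_
      have h3 := Pool.Agent.Lib.MP_0da313_nt.pow_cardFactors_le
        (N := (F.L n (e l) x).natAbs) (z := z) (Int.natAbs_ne_zero.mpr hm.ne') (by
          intro p hp hpd
          by_contra hlt
          apply hR p hp (not_le.1 hlt).le
          have h4 : (p : ℤ) ∣ F.L n (e l) x := Int.natCast_dvd.2 hpd
          rw [F.hG n hN0 (e l), Polynomial.eval_mul]
          apply Dvd.dvd.mul_right
          have e : Polynomial.eval x (Polynomial.C (F.u (e l)) * X +
              Polynomial.C (F.b (e l) * n + F.c (e l)) : ℤ[X]) = F.L n (e l) x := by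
            simp [Fam.L, Fam.v]
          rw [e]
          exact h4)
      have h5 : (F.L n (e l) x).natAbs ≤ C * n := by
        have h6 : (((F.L n (e l) x).natAbs : ℤ) : ℝ) ≤ C * n := by
          rw [Int.natCast_natAbs, abs_of_pos hm]
          exact hm2
        exact_mod_cast h6
      have h6 : z ^ cardFactors (F.L n (e l) x).natAbs < z ^ (B0 + 1) := by
        calc z ^ cardFactors (F.L n (e l) x).natAbs ≤ (F.L n (e l) x).natAbs := h3
          _ ≤ C * n := h5
          _ < z * n := Nat.mul_lt_mul_of_pos_right hC hn0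
          _ ≤ z * z ^ B0 := Nat.mul_le_mul_left _ hzB
          _ = z ^ (B0 + 1) := by rw [pow_succ]; ring
      exact ((Nat.pow_lt_pow_iff_right hz1).mp h6).le
    refine (Finset.sum_le_sum (fun l _ => h0 l)).trans ?_
    rw [Finset.sum_const, Finset.card_univ, smul_eq_mul]
  rw [← sq_abs (ZI (DE F e n P) g x)]
  exact pow_le_pow_left₀ (abs_nonneg _) key 2

theorem p_wm2 : S_wm2 := by
  intro hloc ι κ _ _ _ _ _ D F e B0 B hD hB0
  obtain ⟨_, C, hC1, hev⟩ := hloc ι D F
  filter_upwards [hev, eventually_ge_atTop 1, eventually_ge_atTop F.N0,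
    eventually_gt_atTop (C ^ B0), eventually_ge_atTop C] with n h1 hn1 hn0 hnC hnC'
  intro n' P hPar g hg x hR hx
  have hn1' : (1 : ℝ) ≤ n := by exact_mod_cast hn1
  have hx2 : |(x : ℝ) - F.xi * n| ≤ 2 * (F.hw * n) := by
    have h2 : 0 ≤ F.hw * n := mul_nonneg F.hhw.le (by positivity)
    have h3 : |(x : ℝ) - F.xi * n| ≤ F.hw * n / 2 := hx
    linarith
  obtain ⟨_, _, hv⟩ := h1.2.1 x hx2
  have hv' : ∀ l', 0 < F.L n l' x ∧ (F.L n l' x : ℝ) ≤ C * n := by
    intro l
    refine ⟨?_, (hv l).2⟩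
    have h2 := (hv l).1
    have hC0 : (0 : ℝ) < C := by exact_mod_cast hC1
    have h3 : (0 : ℝ) < F.L n l x := by
      by_contra h
      have h4 : (C : ℝ) * F.L n l x ≤ 0 :=
        mul_nonpos_of_nonneg_of_nonpos hC0.le (not_lt.1 h)
      linarith
    exact_mod_cast h3
  have hzC : C < z0 D n' := by
    by_contra h
    have h2 : z0 D n' ^ B0 ≤ C ^ B0 := Nat.pow_le_pow_left (not_lt.1 h) _
    have h3 := hPar.hzB
    omega
  refine ⟨fun l => ?_, tc_wm2_point F e hn0 hzC hPar.hzB (by omega) (by omega)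
    (fun p hp => (hPar.hP p hp).1) hg hv' hR⟩
  have hlog : 0 ≤ Real.log n := Real.log_nonneg hn1'
  unfold thP
  split_ifs with hp
  · have h2 : ((F.L n l x).toNat : ℝ) ≤ C * n := by
      have h3 : (((F.L n l x).toNat : ℤ) : ℝ) ≤ C * n := by
        rw [Int.toNat_of_nonneg (hv' l).1.le]
        exact (hv' l).2
      exact_mod_cast h3
    have h3 : ((F.L n l x).toNat : ℝ) ≤ n * n := by
      have h4 : (C : ℝ) ≤ n := by exact_mod_cast hnC'
      nlinarith
    have h4 : (0 : ℝ) < ((F.L n l x).toNat : ℝ) := by exact_mod_cast hp.pos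
    have h5 := Real.log_le_log h4 h3
    rw [Real.log_mul (by linarith) (by linarith)] at h5
    linarith
  · linarith

end Pool.Agent.TC.M
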