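import Pool.Agent.Lib.MP_0da313_nt.TC.W
import Pool.Agent.Lib.MP_0da313_nt.MT.MainN

set_option autoImplicit false

/-!
Project TC: proof of `S_wpg` (existence of the weights for a prescribed step).
-/

namespace Pool.Agent.TC.W

open Finset Filter
open Pool.Agent.MP89da58 (bil pw nn supp part kapD SData)
open Pool.Agent.MT (PJf ZI)

/-- One form. -/
private theorem tc_wpg_one {ι : Type} [Fintype ι] [DecidableEq ι] [Nonempty ι]
    (hK : Fintype.card ι = 1) :
    ∀ B0 : ℕ, 1 ≤ B0 → ∀ n : ℕ, 3 ≤ n → ∀ z y : ℕ, n ≤ z ^ B0 → z ≤ y → ∀ P : Finset ℕ,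
      ∃ (lam : (PJf P → Option ι) → ℝ) (lami : ι → (PJf P → Option ι) → ℝ),
        WP2 P (y ^ 1) ((B0 : ℝ) ^ Fintype.card ι) 1 (1 / B0 * (kapD z * Real.log n)) lam lami := by
  intro B0 hB0 n hn3 z y hz hzy P
  have hB0r : (1 : ℝ) ≤ B0 := by exact_mod_cast hB0
  have hn3r : (3 : ℝ) ≤ n := by exact_mod_cast hn3
  have hn0 : (0 : ℝ) < n := by linarith only [hn3r]
  classical
  let lam : (PJf P → Option ι) → ℝ := fun α => if α = fun _ => none then 1 else 0
  have hbil : bil (fun j : PJf P => 1 / (((j : ℕ) : ℝ) - 1)) lam lam = 1 := by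
    unfold bil
    rw [Finset.sum_eq_single (fun _ => none)]
    · rw [Finset.sum_eq_single (fun _ => none)]
      · simp [lam, Pool.Agent.MP89da58.kap]
      · intro v _ hv
        simp [lam, hv]
      · intro h
        exact absurd (Finset.mem_univ _) h
    · intro u _ hu
      apply Finset.sum_eq_zero
      intro v _
      simp [lam, hu]
    · intro h
      exact absurd (Finset.mem_univ _) h
  have hbd : ∀ α, |lam α| ≤ (B0 : ℝ) ^ Fintype.card ι := by
    intro α
    rw [hK, pow_one]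
    show |if α = fun _ => none then (1 : ℝ) else 0| ≤ B0
    split_ifs
    · rw [abs_one]
      exact hB0r
    · rw [abs_zero]
      linarith only [hB0r]
  have hz1 : 1 ≤ z := by
    by_contra h
    push Not at h
    have h1 : z = 0 := by omega
    rw [h1, zero_pow (by omega)] at hz
    omega
  have hsup : ∀ α, lam α ≠ 0 → ∀ i : ι, part α i = ∅ ∧
      nn (fun j : PJf P => (j : ℕ)) (supp α) ≤ y ^ 1 := by
    intro α hα i
    have h1 : α = fun _ => none := by
      by_contra h
      exact hα (if_neg h)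
    subst h1
    constructor
    · simp [part]
    · have h2 : supp (fun _ : PJf P => (none : Option ι)) = ∅ := by simp [supp]
      rw [h2]
      have h3 : nn (fun j : PJf P => (j : ℕ)) ∅ = 1 := by simp [nn]
      rw [h3, pow_one]
      omega
  obtain ⟨i0⟩ := (inferInstance : Nonempty ι)
  refine ⟨lam, fun _ => lam, ?_⟩
  refine
    { bd := hbd
      bdi := fun _ => hbd
      sup := fun α hα => (hsup α hα i0).2
      supi := fun i α hα => hsup α hα i
      link := fun _ _ _ _ => rfl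
      one := le_refl _
      up := by
        unfold qf
        rw [hbil]
        norm_num
      lo := ?_ }
  intro i
  unfold qf
  rw [hbil, mul_one]
  have hlogB : Real.log n ≤ B0 * Real.log z := by
    rw [← Real.log_pow]
    apply Real.log_le_log hn0
    exact_mod_cast hz
  have hκ0 : 0 ≤ kapD z := (Pool.Agent.MT.kapD_pos z).le
  have h1 : kapD z * Real.log n ≤ B0 := by
    calc kapD z * Real.log n ≤ kapD z * (B0 * Real.log z) :=
          mul_le_mul_of_nonneg_left hlogB hκ0
      _ = B0 * (kapD z * Real.log z) := by ring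
      _ ≤ B0 * 1 := mul_le_mul_of_nonneg_left (Pool.Agent.MT.kapD_mul_log_le z hz1)
            (Nat.cast_nonneg _)
      _ = B0 := mul_one _
  rw [one_div, ← div_eq_inv_mul, div_le_one (by linarith only [hB0r])]
  exact h1

/-- The numerical part of the lower bound. -/
private theorem tc_wpg_num {K m M κ Ly Ln A1 A2 b AK : ℝ} (hK : 1 ≤ K) (hm : 1 ≤ m)
    (hM : M ≤ 128000 * K * m) (hκ : 0 < κ) (hLy : 0 < Ly) (hA1 : m * κ * Ly / 8 ≤ A1)
    (hA2 : A2 ≤ 2000 * κ * Ly) (hA20 : 0 ≤ A2) (hLn : Ln ≤ 20000 * M * Ly) (hAK : 0 ≤ AK)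
    (hb : A1 ^ 2 * AK / 4 ≤ b) :
    m / (K * 1310720000000000) * (κ * Ln) * (A2 * AK) ≤ b := by
  have h1 : (m * κ * Ly / 8) ^ 2 ≤ A1 ^ 2 := pow_le_pow_left₀ (by positivity) hA1 2
  have h2 : m ^ 2 * κ * Ly * A2 / 128000 ≤ A1 ^ 2 := by
    refine le_trans ?_ h1
    have h3 : A2 / 2000 ≤ κ * Ly := by linarith only [hA2]
    calc m ^ 2 * κ * Ly * A2 / 128000 = (m ^ 2 * κ * Ly / 64) * (A2 / 2000) := by ring
      _ ≤ (m ^ 2 * κ * Ly / 64) * (κ * Ly) := mul_le_mul_of_nonneg_left h3 (by positivity)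
      _ = _ := by ring
  have h3 : Ln ≤ 2560000000 * K * m * Ly := by
    calc Ln ≤ 20000 * M * Ly := hLn
      _ ≤ 20000 * (128000 * K * m) * Ly := by
          apply mul_le_mul_of_nonneg_right _ hLy.le
          linarith only [hM]
      _ = _ := by ring
  have h4 : m / (K * 327680000000000) * (κ * Ln * A2) ≤ A1 ^ 2 := by
    refine le_trans ?_ h2
    calc m / (K * 327680000000000) * (κ * Ln * A2)
        ≤ m / (K * 327680000000000) * (κ * (2560000000 * K * m * Ly) * A2) := by
          apply mul_le_mul_of_nonneg_left _ (by positivity)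
          apply mul_le_mul_of_nonneg_right _ hA20
          exact mul_le_mul_of_nonneg_left h3 hκ.le
      _ = _ := by
          field_simp
          ring
  refine le_trans ?_ hb
  calc m / (K * 1310720000000000) * (κ * Ln) * (A2 * AK) =
        (m / (K * 327680000000000) * (κ * Ln * A2)) * AK / 4 := by
        field_simp
        ring
    _ ≤ _ := by
        apply div_le_div_of_nonneg_right _ (by norm_num)
        exact mul_le_mul_of_nonneg_right h4 hAK

private theorem tc_wpg_big {ι : Type} [Fintype ι] [DecidableEq ι]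
    (hK : 2 ≤ Fintype.card ι) (hpr : CM.W.R_pr) (hbp : CM.W.R_bp) :
    ∃ M : ℕ, 1 ≤ M ∧ ∀ B0 : ℕ, 1 ≤ B0 → ∀ᶠ n : ℕ in atTop, ∀ z y : ℕ, n ≤ z ^ B0 → z ≤ y →
      (y : ℝ) ^ M ≤ (n : ℝ) ^ (1 / 10000 : ℝ) → Real.log n ≤ 20000 * M * Real.log y →
      ∀ P Ex : Finset ℕ, (∀ p ∈ P, p.Prime ∧ z < p ∧ p ≤ y ^ M) →
      (∀ p : ℕ, p.Prime → z < p → p ≤ y ^ M → p ∈ P ∨ p ∈ Ex) → ∑ p ∈ Ex, 1 / (p : ℝ) ≤ 1 / 2 →
      ∃ (lam : (PJf P → Option ι) → ℝ) (lami : ι → (PJf P → Option ι) → ℝ) (A : ℝ),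
        WP2 P (y ^ M) ((B0 : ℝ) ^ Fintype.card ι) A
          ((Nat.log 2 (Fintype.card ι) : ℝ) / (Fintype.card ι * 1310720000000000) *
            (kapD z * Real.log n)) lam lami := by
  classical
  set K := Fintype.card ι with hKdef
  set m' := Nat.log 2 K with hm'def
  have hm' : 1 ≤ m' := (Nat.le_log_iff_pow_le (by norm_num) (by omega)).2 (by simpa using hK)
  have hm'K : 2 ^ m' ≤ K := Nat.pow_log_le_self 2 (by omega)
  set M := 64 * 1000 * K * (m' + 1) with hMdef
  have hM1 : 1 ≤ M := Nat.mul_pos (by omega) (by omega)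
  refine ⟨M, hM1, ?_⟩
  intro B0 hB0
  obtain ⟨C, hC, hCpr⟩ := hpr (3 * K)
  have hB0r : (1 : ℝ) ≤ B0 := by exact_mod_cast hB0
  have hc1 : (0 : ℝ) < 1 / (4 * C * (B0 : ℝ) ^ (2 * K)) := by positivity
  have hlo := (isLittleO_log_rpow_rpow_atTop (((3 * K + 1 : ℕ) : ℝ))
    (show (0 : ℝ) < 1 / (B0 : ℝ) by positivity)).def hc1
  have hlo' := tendsto_natCast_atTop_atTop (R := ℝ) |>.eventually hlo
  filter_upwards [hlo', eventually_ge_atTop 100000,
    eventually_ge_atTop ((16 * (K + 2) ^ 2) ^ B0)] with n hnl hn5 hn16 z y hz hzy hy1 hLy P Ex hP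
    hEx1 hEx2
  have hn5r : (100000 : ℝ) ≤ n := by exact_mod_cast hn5
  have hn0 : (0 : ℝ) < n := by linarith only [hn5r]
  have hz16 : 16 * (K + 2) ^ 2 ≤ z := by
    by_contra h
    push Not at h
    have h1 : z ^ B0 < (16 * (K + 2) ^ 2) ^ B0 := Nat.pow_lt_pow_left h (by omega)
    omega
  have hz2' : 2 ≤ z := by
    have h1 : 1 ≤ (K + 2) ^ 2 := Nat.one_le_pow _ _ (by omega)
    omega
  have hzr : (2 : ℝ) ≤ z := by exact_mod_cast hz2'
  have hyM : (y : ℝ) ^ M ≤ (n : ℝ) ^ (1 / 1000 : ℝ) := by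
    refine hy1.trans ?_
    exact Real.rpow_le_rpow_of_exponent_le (by linarith only [hn5r]) (by norm_num)
  have hy2 : 2 ≤ y := hz2'.trans hzy
  have hyr : (2 : ℝ) ≤ y := by exact_mod_cast hy2
  have hLy0 : 0 < Real.log y := Real.log_pos (by linarith only [hyr])
  have hlz0 : 0 < Real.log z := Real.log_pos (by linarith only [hzr])
  have hln1 : 1 ≤ Real.log n := by
    rw [Real.le_log_iff_exp_le hn0]
    linarith only [hn5r, Real.exp_one_lt_d9]
  set κ : ℝ := kapD z with hκdef
  have hκ : 0 < κ := Pool.Agent.MT.kapD_pos z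
  have hκlz : κ * Real.log z ≤ 1 := Pool.Agent.MT.kapD_mul_log_le z (by omega)
  have hlogB : Real.log n ≤ B0 * Real.log z := by
    rw [← Real.log_pow]
    apply Real.log_le_log hn0
    exact_mod_cast hz
  have hκn : κ * Real.log n ≤ B0 := by
    calc κ * Real.log n ≤ κ * (B0 * Real.log z) := mul_le_mul_of_nonneg_left hlogB hκ.le
      _ = B0 * (κ * Real.log z) := by ring
      _ ≤ B0 * 1 := mul_le_mul_of_nonneg_left hκlz (Nat.cast_nonneg _)
      _ = B0 := mul_one _
  have hPz : ∀ p ∈ P, p.Prime ∧ z < p := fun p hp => ⟨(hP p hp).1, (hP p hp).2.1⟩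
  obtain ⟨S, hSp, hSR, hA1, hA2l, hA2u, hB1⟩ := Pool.Agent.MT.exists_sdataG (ι := ι) P z 1000 m' y
    κ hκ (by norm_num) hm' hy2 hPz (by rw [← hKdef]; exact hm'K) (by rw [← hKdef]; exact hz16) (by
      intro ee he heM
      rw [← hKdef, ← hMdef] at heM
      have hye : y ≤ y ^ ee := Nat.le_self_pow (by omega) y
      have hlog : Real.log ((y ^ ee : ℕ) : ℝ) = ee * Real.log y := by
        push_cast
        rw [Real.log_pow]
      constructor
      · have h1 := Pool.Agent.MT.g0_lower P z (y ^ ee) (Nat.one_le_pow _ _ (by omega)) Ex (by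
          intro p hp hzp hpe
          exact hEx1 p hp hzp (hpe.trans (Nat.pow_le_pow_right (by omega) heM))) hEx2
        rw [hlog] at h1
        exact h1
      · have h1 := Pool.Agent.MT.g0_upper P z hPz (y ^ ee) (hy2.trans hye) (hzy.trans hye)
        rw [hlog] at h1
        push_cast
        linarith only [h1])
  rw [← hKdef, ← hMdef] at hSR
  rw [← hKdef] at hB1
  have hSRM : S.R = y ^ M := hSR
  have hSR2 : 2 ≤ S.R := by
    rw [hSR]
    exact hy2.trans (Nat.le_self_pow (by omega) y)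
  have hSRr : ((S.R : ℕ) : ℝ) ≤ (n : ℝ) ^ (1 / 1000 : ℝ) := by
    rw [hSR]; push_cast; exact hyM
  have hSR0 : (0 : ℝ) < S.R := by
    have : 0 < S.R := by omega
    exact_mod_cast this
  have hlogR : Real.log S.R ≤ Real.log n / 1000 := by
    have h1 := Real.log_le_log hSR0 hSRr
    rw [Real.log_rpow hn0] at h1
    linarith only [h1]
  have hG0 : S.G0 S.R ≤ B0 := by
    rw [Pool.Agent.MT.G0_eq S hSp]
    have h1 := Pool.Agent.MT.g0_upper P z hPz S.R hSR2 (by
      rw [hSR]
      exact hzy.trans (Nat.le_self_pow (by omega) y))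
    refine h1.trans ?_
    calc 1000 * κ * Real.log S.R ≤ 1000 * κ * (Real.log n / 1000) :=
          mul_le_mul_of_nonneg_left hlogR (by positivity)
      _ = κ * Real.log n := by ring
      _ ≤ B0 := hκn
  have hG00 : 0 ≤ S.G0 S.R := by
    unfold SData.G0
    refine Finset.sum_nonneg fun a _ => ?_
    exact mul_nonneg (Pool.Agent.MP89da58.pw_nonneg (fun j => (S.x_pos j).le) a)
      (Pool.Agent.MP89da58.tau_nonneg _ _)
  have hGK : S.G0 S.R ^ K ≤ (B0 : ℝ) ^ K := pow_le_pow_left₀ hG00 hG0 K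
  have hpj : S.p = fun j : PJf P => (j : ℕ) := funext hSp
  have hxj : S.x = fun j : PJf P => 1 / ((j : ℕ) : ℝ) := by
    funext j
    unfold SData.x
    rw [hSp]
  have hxj' : S.x' = fun j : PJf P => 1 / (((j : ℕ) : ℝ) - 1) := by
    funext j
    unfold SData.x'
    rw [hSp]
  have hbd : ∀ α, |S.lam α| ≤ (B0 : ℝ) ^ K := fun α => (S.abs_lam_le α).trans hGK
  have hsupp : ∀ α, S.lam α ≠ 0 → nn (fun j : PJf P => (j : ℕ)) (supp α) ≤ y ^ M := by
    intro α hα
    have h1 := S.lam_support α hα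
    rwa [hpj, hSRM] at h1
  have hA21 : 1 ≤ S.A2 := S.A2_ge_one
  have hA2K : 1 ≤ S.A2 ^ K := one_le_pow₀ hA21
  -- the upper bound
  have hup : qf S.lam ≤ 2 * S.A2 ^ K := by
    unfold qf
    have h1 := S.bil_lam_le
    rw [hxj, ← hKdef] at h1
    have hYn : ((y ^ M : ℕ) : ℝ) ≤ (n : ℝ) ^ (1 / 1000 : ℝ) := by
      rw [← hSRM]; exact hSRr
    have hYn1 : ((y ^ M : ℕ) : ℝ) ≤ n := by
      refine hYn.trans ?_
      calc (n : ℝ) ^ (1 / 1000 : ℝ) ≤ (n : ℝ) ^ (1 : ℝ) :=
            Real.rpow_le_rpow_of_exponent_le (by linarith only [hn5r]) (by norm_num)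
        _ = n := Real.rpow_one _
    have h2 := hbp ι P z hz2' (fun p hp => (hPz p hp).2) S.lam ((B0 : ℝ) ^ K)
      (2 * Real.log n) (y ^ M) hbd hsupp (by
        have h3 : ((y ^ M * y ^ M : ℕ) : ℝ) ≤ n := by
          rw [Nat.cast_mul]
          calc ((y ^ M : ℕ) : ℝ) * ((y ^ M : ℕ) : ℝ) ≤
                (n : ℝ) ^ (1 / 1000 : ℝ) * (n : ℝ) ^ (1 / 1000 : ℝ) :=
                mul_le_mul hYn hYn (Nat.cast_nonneg _) (by positivity)
            _ = (n : ℝ) ^ (1 / 1000 + 1 / 1000 : ℝ) := by rw [Real.rpow_add hn0]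
            _ ≤ (n : ℝ) ^ (1 : ℝ) :=
                Real.rpow_le_rpow_of_exponent_le (by linarith only [hn5r]) (by norm_num)
            _ = n := Real.rpow_one _
        refine h3.trans ?_
        rw [Real.rpow_def_of_pos (by norm_num : (0 : ℝ) < 2)]
        conv_lhs => rw [← Real.exp_log hn0]
        apply Real.exp_le_exp.2
        have h4 := Real.log_two_gt_d9
        have h5 : 1 / 2 * Real.log n ≤ Real.log 2 * Real.log n :=
          mul_le_mul_of_nonneg_right (by linarith only [h4]) (by linarith only [hln1])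
        linarith only [h5]) (by linarith only [hln1])
    rw [← hKdef] at h2
    have h3 : ∏ j : PJf P, (1 + (3 * K : ℝ) * (1 / (((j : ℕ) : ℝ) - 1))) ≤
        C * (Real.log n) ^ (3 * K) := by
      refine le_trans ?_ (hCpr n (by omega))
      rw [Finset.prod_coe_sort P (fun p : ℕ => (1 + (3 * K : ℝ) * (1 / ((p : ℝ) - 1))))]
      have h4 : ∀ p : ℕ, 1 + (3 * K : ℝ) * (1 / ((p : ℝ) - 1)) =
          1 + ((3 * K : ℕ) : ℝ) / ((p : ℝ) - 1) := by
        intro p
        push_cast
        ring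
      rw [Finset.prod_congr rfl fun p _ => h4 p]
      apply Finset.prod_le_prod_of_subset_of_one_le
      · intro p hp
        rw [Finset.mem_filter, Finset.mem_Icc]
        refine ⟨⟨(hPz p hp).1.one_le, ?_⟩, (hPz p hp).1⟩
        have h5 : ((p : ℕ) : ℝ) ≤ n := by
          refine le_trans ?_ hYn1
          exact_mod_cast (hP p hp).2.2
        exact_mod_cast h5
      · intro p hp
        have h5 : (2 : ℝ) ≤ p := by exact_mod_cast (hPz p hp).1.two_le
        have h6 : 0 ≤ ((3 * K : ℕ) : ℝ) / ((p : ℝ) - 1) :=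
          div_nonneg (Nat.cast_nonneg _) (by linarith only [h5])
        linarith only [h6]
      · intro p hp _
        rw [Finset.mem_filter] at hp
        have h5 : (2 : ℝ) ≤ p := by exact_mod_cast hp.2.two_le
        have h6 : 0 ≤ ((3 * K : ℕ) : ℝ) / ((p : ℝ) - 1) :=
          div_nonneg (Nat.cast_nonneg _) (by linarith only [h5])
        linarith only [h6]
    have h4 : (n : ℝ) ^ (1 / (B0 : ℝ)) ≤ z := by
      have h5 : (n : ℝ) ≤ (z : ℝ) ^ B0 := by exact_mod_cast hz
      calc (n : ℝ) ^ (1 / (B0 : ℝ)) ≤ ((z : ℝ) ^ B0) ^ (1 / (B0 : ℝ)) :=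
            Real.rpow_le_rpow hn0.le h5 (by positivity)
        _ = z := by
            rw [← Real.rpow_natCast, ← Real.rpow_mul (by linarith only [hzr])]
            rw [mul_one_div_cancel (by linarith only [hB0r]), Real.rpow_one]
    have h5 : (Real.log n) ^ (3 * K + 1) ≤ 1 / (4 * C * (B0 : ℝ) ^ (2 * K)) * z := by
      have h6 : ‖Real.log (n : ℝ) ^ (((3 * K + 1 : ℕ) : ℝ))‖ ≤
          1 / (4 * C * (B0 : ℝ) ^ (2 * K)) * ‖(n : ℝ) ^ (1 / (B0 : ℝ))‖ := hnl
      rw [Real.rpow_natCast, Real.norm_of_nonneg (by positivity),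
        Real.norm_of_nonneg (by positivity)] at h6
      exact h6.trans (mul_le_mul_of_nonneg_left h4 hc1.le)
    have h6 : ((B0 : ℝ) ^ K) ^ 2 * ((2 / z) * (2 * Real.log n) *
        ∏ j : PJf P, (1 + (3 * K : ℝ) * (1 / (((j : ℕ) : ℝ) - 1)))) ≤ 1 := by
      have hz0 : (0 : ℝ) < z := by linarith only [hzr]
      calc ((B0 : ℝ) ^ K) ^ 2 * ((2 / z) * (2 * Real.log n) *
            ∏ j : PJf P, (1 + (3 * K : ℝ) * (1 / (((j : ℕ) : ℝ) - 1)))) ≤
            ((B0 : ℝ) ^ K) ^ 2 * ((2 / z) * (2 * Real.log n) * (C * (Real.log n) ^ (3 * K))) := by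
            apply mul_le_mul_of_nonneg_left _ (by positivity)
            apply mul_le_mul_of_nonneg_left h3
            have : 0 ≤ Real.log n := by linarith only [hln1]
            positivity
        _ = (4 * C * (B0 : ℝ) ^ (2 * K)) / z * (Real.log n) ^ (3 * K + 1) := by
            field_simp
            ring
        _ ≤ (4 * C * (B0 : ℝ) ^ (2 * K)) / z * (1 / (4 * C * (B0 : ℝ) ^ (2 * K)) * z) :=
            mul_le_mul_of_nonneg_left h5 (by positivity)
        _ = 1 := by field_simp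
    have h7 := (abs_le.1 (h2.trans h6)).2
    linarith only [h7, h1, hA2K]
  refine ⟨S.lam, S.lami, S.A2 ^ K, ?_⟩
  refine
    { bd := hbd
      bdi := fun i α => (S.abs_lami_le i α).trans hGK
      sup := hsupp
      supi := fun i α hα => by
        have h1 := S.lami_support i α hα
        rwa [hpj, hSRM] at h1
      link := fun i D y h => (Pool.Agent.MT.ZI_lami S D i y h).symm
      one := hA2K
      up := hup
      lo := ?_ }
  intro i
  have hR1 : 1 < Real.log S.R := by
    have h1 : 2 * Real.log 2 ≤ Real.log S.R := by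
      rw [hSR]
      push_cast
      rw [Real.log_pow]
      have h2 : Real.log 2 ≤ Real.log y := Real.log_le_log (by norm_num) hyr
      have h3 : (2 : ℝ) ≤ M := by
        have : 2 ≤ M := by
          rw [hMdef]
          have h4 : 1 ≤ K * (m' + 1) := Nat.mul_pos (by omega) (by omega)
          calc 2 ≤ 64 * 1000 * (K * (m' + 1)) := by omega
            _ = _ := by ring
        exact_mod_cast this
      have h4 := Real.log_pos (show (1 : ℝ) < 2 by norm_num)
      nlinarith only [h2, h3, h4]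
    linarith only [h1, Real.log_two_gt_d9]
  have hb := S.bil_lami_ge i hR1 (by rw [← hKdef]; exact hB1)
  rw [hxj', ← hKdef] at hb
  have hK1 : S.A2 ^ K = S.A2 * S.A2 ^ (K - 1) := by
    rw [← pow_succ']; congr 1; omega
  rw [hK1]
  have hm'r : (1 : ℝ) ≤ m' := by exact_mod_cast hm'
  have hKr : (2 : ℝ) ≤ K := by exact_mod_cast hK
  unfold qf
  refine tc_wpg_num (κ := κ) (M := M) (Ly := Real.log y) (Ln := Real.log n)
    (by linarith only [hKr]) hm'r ?_ hκ hLy0 hA1 ?_ (by linarith only [hA21]) hLy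
    (pow_nonneg (by linarith only [hA21]) _) hb
  · rw [hMdef]
    push_cast
    nlinarith only [hKr, hm'r]
  · have : S.A2 ≤ 2 * 1000 * κ * Real.log y := by exact_mod_cast hA2u
    linarith only [this]

theorem p_wpg : S_wpg := by
  intro hpr hbp
  refine ⟨1 / 2621440000000000, by norm_num, by norm_num, ?_⟩
  intro ι _ _ _
  by_cases hK : 2 ≤ Fintype.card ι
  · obtain ⟨M, hM1, hM⟩ := tc_wpg_big (ι := ι) hK hpr hbp
    refine ⟨M, hM1, ?_⟩
    intro B0 hB0
    filter_upwards [hM B0 hB0] with n hn z y hz hzy hy1 hLy P Ex hP hEx1 hEx2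
    obtain ⟨lam, lami, A, hW⟩ := hn z y hz hzy hy1 hLy P Ex hP hEx1 hEx2
    refine ⟨lam, lami, A, _, hW, ?_, ?_, ?_⟩
    all_goals
      have hm' : 1 ≤ Nat.log 2 (Fintype.card ι) :=
        (Nat.le_log_iff_pow_le (by norm_num) (by omega)).2 (by simpa using hK)
      have hm'r : (1 : ℝ) ≤ (Nat.log 2 (Fintype.card ι) : ℝ) := by exact_mod_cast hm'
      have hKr : (2 : ℝ) ≤ (Fintype.card ι : ℝ) := by exact_mod_cast hK
      have hB0r : (1 : ℝ) ≤ B0 := by exact_mod_cast hB0
    · have h1 : (1 : ℝ) / 2621440000000000 / (Fintype.card ι * B0) ≤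
          1 / 2621440000000000 / (Fintype.card ι * 1) := by
        apply div_le_div_of_nonneg_left (by norm_num) (by positivity)
        exact mul_le_mul_of_nonneg_left hB0r (by positivity)
      refine h1.trans ?_
      rw [mul_one, div_div, div_le_div_iff₀ (by positivity) (by positivity)]
      have h2 : (Fintype.card ι : ℝ) ≤
          (Nat.log 2 (Fintype.card ι) : ℝ) * (Fintype.card ι : ℝ) :=
        le_mul_of_one_le_left (by positivity) hm'r
      nlinarith only [h2, hKr]
    · have h2 : (Nat.log 2 (Fintype.card ι) : ℝ) ≤ (Fintype.card ι : ℝ) := by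
        exact_mod_cast Nat.log_le_self 2 (Fintype.card ι)
      rw [div_le_one (by positivity)]
      linarith only [h2, hKr]
    · have h1 : Fintype.card ι < 2 ^ (Nat.log 2 (Fintype.card ι) + 1) :=
        Nat.lt_pow_succ_log_self (by norm_num) _
      have h2 : Real.log (Fintype.card ι) ≤ ((Nat.log 2 (Fintype.card ι) : ℝ) + 1) * Real.log 2 := by
        have h3 : ((Fintype.card ι : ℕ) : ℝ) ≤ 2 ^ (Nat.log 2 (Fintype.card ι) + 1) := by
          exact_mod_cast h1.le
        have h4 := Real.log_le_log (by linarith only [hKr]) h3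
        rw [Real.log_pow] at h4
        push_cast at h4
        exact h4
      have h3 : Real.log (Fintype.card ι) ≤ 2 * (Nat.log 2 (Fintype.card ι) : ℝ) := by
        refine h2.trans ?_
        have := Real.log_two_lt_d9
        have h5 : Real.log 2 ≤ 1 := by linarith only [this]
        calc ((Nat.log 2 (Fintype.card ι) : ℝ) + 1) * Real.log 2 ≤
              ((Nat.log 2 (Fintype.card ι) : ℝ) + 1) * 1 :=
              mul_le_mul_of_nonneg_left h5 (by positivity)
          _ ≤ _ := by linarith only [hm'r]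
      have h4 : (Fintype.card ι : ℝ) * ((Nat.log 2 (Fintype.card ι) : ℝ) /
          (Fintype.card ι * 1310720000000000)) =
          (Nat.log 2 (Fintype.card ι) : ℝ) / 1310720000000000 := by
        have : (Fintype.card ι : ℝ) ≠ 0 := by linarith only [hKr]
        field_simp
      rw [h4]
      linarith only [h3]
  · have hK1 : Fintype.card ι = 1 := by
      have : 0 < Fintype.card ι := Fintype.card_pos
      omega
    refine ⟨1, le_refl _, ?_⟩
    intro B0 hB0
    filter_upwards [eventually_ge_atTop 3] with n hn z y hz hzy _ _ P Ex _ _ _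
    obtain ⟨lam, lami, hW⟩ := tc_wpg_one (ι := ι) hK1 B0 hB0 n hn z y hz hzy P
    have hB0r : (1 : ℝ) ≤ B0 := by exact_mod_cast hB0
    refine ⟨lam, lami, 1, 1 / B0, hW, ?_, ?_, ?_⟩
    · rw [hK1, Nat.cast_one, one_mul]
      exact div_le_div_of_nonneg_right (by norm_num) (by linarith only [hB0r])
    · rw [div_le_one (by linarith only [hB0r])]
      exact hB0r
    · rw [hK1, Nat.cast_one, Real.log_one, mul_zero, one_mul]
      positivity

end Pool.Agent.TC.W
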