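import Pool.Agent.Lib.MP_0da313_nt.TC.M
import Pool.Agent.Lib.MP_0da313_nt.CM.P.dns

set_option autoImplicit false

/-!
Project TC, section M: the densities.
-/

namespace Pool.Agent.TC.M

open Finset Filter Polynomial
open Pool.Agent.Lib.MP_0da313_nt
open Pool.Agent.BVall (om rhoW PK Dens Cls mem_PK dvd_eval_congr)
open Pool.Agent.MP89da58 (kapD)
open Pool.Agent.MT (om_prod card_root_lin PK_eq totient_div kapD_pos)
open Pool.Agent.CM (Fam z0)
open Pool.Agent.CM.L (dQ dQ_prod dG_lt dG_le dQ_cls)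

/-! ### Elementary lemmas -/

lemma tc_dn2_prod {s : Finset ℕ} {f : ℕ → ℝ} (h0 : ∀ p ∈ s, 0 ≤ f p) (h1 : ∀ p ∈ s, f p ≤ 1) :
    0 ≤ ∏ p ∈ s, (1 - f p) ∧ ∏ p ∈ s, (1 - f p) ≤ 1 ∧ 1 - ∑ p ∈ s, f p ≤ ∏ p ∈ s, (1 - f p) := by
  classical
  induction s using Finset.induction_on with
  | empty => simp
  | insert a s ha ih =>
    obtain ⟨i1, i2, i3⟩ := ih (fun p hp => h0 p (Finset.mem_insert_of_mem hp))
      (fun p hp => h1 p (Finset.mem_insert_of_mem hp))
    have ha0 := h0 a (Finset.mem_insert_self a s)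
    have ha1 := h1 a (Finset.mem_insert_self a s)
    rw [Finset.prod_insert ha, Finset.sum_insert ha]
    refine ⟨mul_nonneg (by linarith) i1, ?_, ?_⟩
    · nlinarith
    · nlinarith

lemma tc_dn2_om_le {Q Q' : ℕ → ℤ → Prop} [∀ p, DecidablePred (Q p)] [∀ p, DecidablePred (Q' p)]
    (p : ℕ) (h : ∀ y, Q p y → Q' p y) : om Q p ≤ om Q' p := by
  unfold om
  apply Finset.card_le_card
  intro x hx
  rw [Finset.mem_filter] at hx ⊢
  exact ⟨hx.1, h _ hx.2⟩

lemma tc_dn2_rho_le {Q Q' : ℕ → ℤ → Prop} [∀ p, DecidablePred (Q p)]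
    [∀ p, DecidablePred (Q' p)] (u p : ℕ) (h : ∀ y, Q p y → Q' p y) :
    rhoW u Q p ≤ rhoW u Q' p := by
  unfold rhoW
  apply div_le_div_of_nonneg_right _ (Nat.cast_nonneg _)
  exact_mod_cast tc_dn2_om_le p h

lemma tc_dn2_cardpf (s : ℕ) (hs : 1 ≤ s) : (s.primeFactors.card : ℝ) * Real.log 2 ≤ Real.log s := by
  have h1 : 2 ^ s.primeFactors.card ≤ s := by
    calc 2 ^ s.primeFactors.card = ∏ _p ∈ s.primeFactors, 2 := by rw [prod_const]
      _ ≤ ∏ p ∈ s.primeFactors, p :=
          Finset.prod_le_prod' fun p hp => (Nat.prime_of_mem_primeFactors hp).two_le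
      _ ≤ s := Nat.le_of_dvd (by omega) (Nat.prod_primeFactors_dvd s)
  have h2 : ((2 : ℝ) ^ s.primeFactors.card) ≤ s := by exact_mod_cast h1
  have h3 : Real.log ((2 : ℝ) ^ s.primeFactors.card) ≤ Real.log s :=
    Real.log_le_log (by positivity) h2
  rwa [Real.log_pow] at h3

/-- The local inequality at a prime which does not divide the determinant. -/
lemma tc_dn2_num1 {p g q : ℝ} (hp : 2 ≤ p) (hg : 1 ≤ g) (hq : q ≤ g - 2) :
    1 - g / p ≤ (1 - q / (p - 1)) * (1 - 1 / p) ^ 2 := by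
  have hp0 : 0 < p := by linarith
  have hp1 : 0 < p - 1 := by linarith
  have e1 : (1 - q / (p - 1)) * (1 - 1 / p) ^ 2 = (p - 1 - q) * (p - 1) / p ^ 2 := by
    field_simp
  have e2 : 1 - g / p = (p - g) * p / p ^ 2 := by
    field_simp
  rw [e1, e2]
  apply div_le_div_of_nonneg_right _ (by positivity)
  nlinarith

/-- The local inequality at a prime which divides the determinant. -/
lemma tc_dn2_num2 {p g q : ℝ} (hp : 2 ≤ p) (hq : q ≤ g - 1) :
    (1 - g / p) * (1 - 1 / p) ≤ (1 - q / (p - 1)) * (1 - 1 / p) ^ 2 := by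
  have hp0 : 0 < p := by linarith
  have hp1 : 0 < p - 1 := by linarith
  have e1 : (1 - q / (p - 1)) * (1 - 1 / p) ^ 2 = (p - 1 - q) * (p - 1) / p ^ 2 := by
    field_simp
  have e2 : (1 - g / p) * (1 - 1 / p) = (p - g) * (p - 1) / p ^ 2 := by
    field_simp
  rw [e1, e2]
  apply div_le_div_of_nonneg_right _ (by positivity)
  nlinarith

section

variable {ι : Type} [Fintype ι] [DecidableEq ι] {D : ℕ} (F : Fam ι D)

lemma tc_dn2_eval {n : ℕ} (hn : F.N0 ≤ n) (l : Option ι) (y : ℤ) :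
    (F.G n).eval y = F.L n l y * (F.Gc n l).eval y := by
  rw [F.hG n hn l]
  simp [Fam.L, Fam.v]

lemma tc_dn2_sub {n w z p : ℕ} (hn : F.N0 ≤ n) {i j : Option ι} (hp : p.Prime) (y : ℤ)
    (h : Q2 F n w z i j p y) : dQ F n j p y := by
  obtain ⟨_, h2, h3, _⟩ := h
  rw [tc_dn2_eval F hn j y] at h2
  exact ⟨((Nat.prime_iff_prime_int.1 hp).dvd_mul.1 h2).resolve_left h3, h3⟩

lemma tc_dn2_iff {n w z p : ℕ} (hn : F.N0 ≤ n) {i j : Option ι} (hp : p.Prime) (hpz : p ≤ z)
    (hpw : p ≤ w) (y : ℤ) : Q2 F n w z i j p y ↔ dQ F n j p y := by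
  refine ⟨tc_dn2_sub F hn hp y, fun h => ⟨hpz, ?_, h.2, fun h1 => absurd h1 (by omega)⟩⟩
  rw [tc_dn2_eval F hn j y]
  exact h.1.mul_left _

/-- The local factor at the primes `≤ w`. -/
lemma tc_dn2_loc1 {n : ℕ} (hn : F.N0 ≤ n) (l : Option ι) {p : ℕ} (hpp : p.Prime) :
    (1 - (om (fun p y => (p : ℤ) ∣ (F.G n).eval y) p : ℝ) / p) *
      (if p ∣ (F.u l).natAbs then 1 - 1 / (p : ℝ) else 1) =
    (1 - rhoW (F.u l).natAbs (dQ F n l) p) * (1 - 1 / (p : ℝ)) := by
  have hp2 : (2 : ℝ) ≤ p := by exact_mod_cast hpp.two_le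
  have h1 := dQ_prod F hn l hpp
  unfold rhoW
  rw [h1]
  by_cases hd : p ∣ (F.u l).natAbs
  · rw [if_pos hd, if_pos hd, if_pos hd]
    push_cast
    ring
  · rw [if_neg hd, if_neg hd, if_neg hd, Nat.cast_sub hpp.one_le]
    push_cast
    have h2 : (p : ℝ) ≠ 0 := by linarith
    have h3 : (p : ℝ) - 1 ≠ 0 := by linarith
    field_simp
    ring

open Classical in
/-- The local factor at the primes between `w` and `z`. -/
lemma tc_dn2_loc2 {n w z : ℕ} (hn : F.N0 ≤ n) {i j : Option ι} {p : ℕ} (hpp : p.Prime)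
    (hpw : w < p) (hui : ¬ p ∣ (F.u i).natAbs) (huj : ¬ p ∣ (F.u j).natAbs) :
    (1 - (om (fun p y => (p : ℤ) ∣ (F.G n).eval y) p : ℝ) / p) *
      (if (p : ℤ) ∣ F.u i * F.v n j - F.u j * F.v n i then 1 - 1 / (p : ℝ) else 1) ≤
    (1 - d2 F n w z i j p) * (1 - 1 / (p : ℝ)) ^ 2 := by
  have hp2 : (2 : ℝ) ≤ p := by exact_mod_cast hpp.two_le
  have h1 := dQ_prod F hn j hpp
  rw [if_neg huj] at h1
  have hle : om (Q2 F n w z i j) p ≤ om (dQ F n j) p :=
    tc_dn2_om_le p (tc_dn2_sub F hn hpp)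
  have hd2 : d2 F n w z i j p = (om (Q2 F n w z i j) p : ℝ) / ((p : ℝ) - 1) := by
    unfold d2 rhoW
    rw [if_neg huj, Nat.cast_sub hpp.one_le, Nat.cast_one]
  have hg1 : (1 : ℝ) ≤ (om (fun p y => (p : ℤ) ∣ (F.G n).eval y) p : ℝ) := by
    exact_mod_cast (by omega : 1 ≤ om (fun p y => (p : ℤ) ∣ (F.G n).eval y) p)
  rw [hd2]
  by_cases hd : (p : ℤ) ∣ F.u i * F.v n j - F.u j * F.v n i
  · rw [if_pos hd]
    apply tc_dn2_num2 hp2
    have : (om (Q2 F n w z i j) p : ℝ) + 1 ≤
        (om (fun p y => (p : ℤ) ∣ (F.G n).eval y) p : ℝ) := by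
      exact_mod_cast (by omega : om (Q2 F n w z i j) p + 1 ≤
        om (fun p y => (p : ℤ) ∣ (F.G n).eval y) p)
    linarith
  · rw [if_neg hd, mul_one]
    apply tc_dn2_num1 hp2 hg1
    have hlt : om (Q2 F n w z i j) p < om (dQ F n j) p := by
      have hr := card_root_lin (F.huv n hn i) hpp
      rw [if_neg hui] at hr
      obtain ⟨x0, hx0⟩ := Finset.card_eq_one.1 hr
      have hx1 : x0 ∈ (range p).filter
          (fun ρ : ℕ => (p : ℤ) ∣ F.u i * (ρ : ℤ) + (F.b i * n + F.c i)) := by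
        rw [hx0]; exact Finset.mem_singleton_self _
      rw [Finset.mem_filter] at hx1
      have hx2 : (p : ℤ) ∣ F.L n i x0 := hx1.2
      have hx3 : ¬ (p : ℤ) ∣ F.L n j x0 := by
        intro h
        apply hd
        have e : F.u i * F.v n j - F.u j * F.v n i =
            F.u i * F.L n j x0 - F.u j * F.L n i x0 := by
          unfold Fam.L
          ring
        rw [e]
        exact dvd_sub (h.mul_left _) (hx2.mul_left _)
      have hx4 : (p : ℤ) ∣ (F.G n).eval (x0 : ℤ) := by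
        rw [tc_dn2_eval F hn i]
        exact hx2.mul_right _
      have hx5 : dQ F n j p x0 := by
        refine ⟨?_, hx3⟩
        rw [tc_dn2_eval F hn j] at hx4
        exact ((Nat.prime_iff_prime_int.1 hpp).dvd_mul.1 hx4).resolve_left hx3
      unfold om
      apply Finset.card_lt_card
      rw [Finset.ssubset_iff_of_subset]
      · refine ⟨x0, Finset.mem_filter.2 ⟨hx1.1, hx5⟩, fun h => ?_⟩
        rw [Finset.mem_filter] at h
        exact h.2.2.2.2 hpw hx2
      · intro x hx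
        rw [Finset.mem_filter] at hx ⊢
        exact ⟨hx.1, tc_dn2_sub F hn hpp _ hx.2⟩
    have : (om (Q2 F n w z i j) p : ℝ) + 2 ≤
        (om (fun p y => (p : ℤ) ∣ (F.G n).eval y) p : ℝ) := by
      exact_mod_cast (by omega : om (Q2 F n w z i j) p + 2 ≤
        om (fun p y => (p : ℤ) ∣ (F.G n).eval y) p)
    linarith

/-- The prime factors of the determinant contribute little. -/
lemma tc_dn2_det (i j : Option ι) (hij : i ≠ j) : ∀ᶠ n : ℕ in atTop, ∀ (w : ℕ) (S : Finset ℕ),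
    (Real.log n) ^ 2 ≤ w →
    (∀ p ∈ S, p.Prime ∧ w < p ∧ (p : ℤ) ∣ F.u i * F.v n j - F.u j * F.v n i) →
    1 / 2 ≤ ∏ p ∈ S, (1 - 1 / (p : ℝ)) := by
  have hlog : Tendsto (fun n : ℕ => Real.log n) atTop atTop :=
    Real.tendsto_log_atTop.comp tendsto_natCast_atTop_atTop
  set C : ℤ := |F.u i| * (|F.b j| + |F.c j|) + |F.u j| * (|F.b i| + |F.c i|) with hC
  filter_upwards [eventually_ge_atTop F.N0, hlog.eventually_ge_atTop 8,
    eventually_ge_atTop C.toNat, eventually_ge_atTop 1] with n hn h8 hCn hn1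
  intro w S hw hS
  set d : ℤ := F.u i * F.v n j - F.u j * F.v n i with hd
  have hd0 : d ≠ 0 := F.hdet n hn i j hij
  have hn0 : (1 : ℤ) ≤ n := by exact_mod_cast hn1
  have hv : ∀ l, |F.v n l| ≤ (|F.b l| + |F.c l|) * n := by
    intro l
    unfold Fam.v
    calc |F.b l * n + F.c l| ≤ |F.b l * n| + |F.c l| := abs_add_le _ _
      _ = |F.b l| * n + |F.c l| := by rw [abs_mul, Nat.abs_cast]
      _ ≤ (|F.b l| + |F.c l|) * n := by
          have := abs_nonneg (F.c l)
          nlinarith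
  have hdC : |d| ≤ C * n := by
    calc |d| ≤ |F.u i * F.v n j| + |F.u j * F.v n i| := by
          rw [hd]; exact abs_sub _ _
      _ = |F.u i| * |F.v n j| + |F.u j| * |F.v n i| := by rw [abs_mul, abs_mul]
      _ ≤ |F.u i| * ((|F.b j| + |F.c j|) * n) + |F.u j| * ((|F.b i| + |F.c i|) * n) := by
          apply add_le_add
          · exact mul_le_mul_of_nonneg_left (hv j) (abs_nonneg _)
          · exact mul_le_mul_of_nonneg_left (hv i) (abs_nonneg _)
      _ = C * n := by rw [hC]; ring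
  have hCn' : C ≤ n := by
    have h1 : C ≤ C.toNat := Int.self_le_toNat C
    have h2 : (C.toNat : ℤ) ≤ n := by exact_mod_cast hCn
    linarith
  have hdn : d.natAbs ≤ n ^ 2 := by
    zify
    calc |d| ≤ C * n := hdC
      _ ≤ n * n := by nlinarith
      _ = (n : ℤ) ^ 2 := by ring
  have hd1 : 1 ≤ d.natAbs := Int.natAbs_pos.2 hd0
  have hcard : (S.card : ℝ) ≤ 4 * Real.log n := by
    have h1 : S.card ≤ d.natAbs.primeFactors.card := by
      apply Finset.card_le_card
      intro p hp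
      obtain ⟨hpp, _, hpd⟩ := hS p hp
      exact Nat.mem_primeFactors.2 ⟨hpp, Int.natCast_dvd.1 hpd, by omega⟩
    have h2 : (S.card : ℝ) ≤ d.natAbs.primeFactors.card := by exact_mod_cast h1
    have h3 := tc_dn2_cardpf d.natAbs hd1
    have h4 : Real.log (d.natAbs : ℝ) ≤ 2 * Real.log n := by
      have h5 : Real.log (d.natAbs : ℝ) ≤ Real.log ((n : ℝ) ^ 2) := by
        apply Real.log_le_log
        · exact_mod_cast hd1
        · exact_mod_cast hdn
      rwa [Real.log_pow, Nat.cast_ofNat] at h5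
    have h6 : (1 / 2 : ℝ) ≤ Real.log 2 := by
      have := Real.log_two_gt_d9
      linarith
    have h7 : (0 : ℝ) ≤ (d.natAbs.primeFactors.card : ℝ) := Nat.cast_nonneg _
    nlinarith
  have hw0 : 0 < (w : ℝ) := by nlinarith
  have hL0 : 0 < Real.log n := by linarith
  have hsum : ∑ p ∈ S, 1 / (p : ℝ) ≤ 1 / 2 := by
    calc ∑ p ∈ S, 1 / (p : ℝ) ≤ ∑ p ∈ S, 1 / (Real.log n) ^ 2 := by
          apply Finset.sum_le_sum
          intro p hp
          obtain ⟨hpp, hpw, _⟩ := hS p hp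
          have : (w : ℝ) < p := by exact_mod_cast hpw
          apply one_div_le_one_div_of_le (by positivity)
          linarith
      _ = S.card * (1 / (Real.log n) ^ 2) := by rw [Finset.sum_const, nsmul_eq_mul]
      _ ≤ (4 * Real.log n) * (1 / (Real.log n) ^ 2) :=
          mul_le_mul_of_nonneg_right hcard (by positivity)
      _ = 4 / Real.log n := by field_simp
      _ ≤ 1 / 2 := by
          rw [div_le_iff₀ hL0]
          linarith
  have h := (tc_dn2_prod (s := S) (f := fun p => 1 / (p : ℝ)) (fun p _ => by positivity)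
    (fun p hp => by
      have h1 := (hS p hp).1.one_le
      have h2 : (1 : ℝ) ≤ p := by exact_mod_cast h1
      rw [div_le_one (by linarith)]
      exact h2)).2.2
  linarith

end

theorem p_dn2 : S_dn2 := by
  classical
  intro ι _ _ D F hD
  have hlog : Tendsto (fun n : ℕ => Real.log n) atTop atTop :=
    Real.tendsto_log_atTop.comp tendsto_natCast_atTop_atTop
  have hdet := eventually_all.2 (fun i : Option ι => eventually_all.2 (fun j : Option ι =>
    (show ∀ᶠ n : ℕ in atTop, i ≠ j → ∀ (w : ℕ) (S : Finset ℕ),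
      (Real.log n) ^ 2 ≤ w →
      (∀ p ∈ S, p.Prime ∧ w < p ∧ (p : ℤ) ∣ F.u i * F.v n j - F.u j * F.v n i) →
      1 / 2 ≤ ∏ p ∈ S, (1 - 1 / (p : ℝ)) by
      by_cases hij : i = j
      · exact Eventually.of_forall (fun n h => absurd hij h)
      · filter_upwards [tc_dn2_det F i j hij] with n hn _ using hn)))
  have hubig := eventually_all.2 (fun l : Option ι =>
    (show ∀ᶠ n : ℕ in atTop, (((F.u l).natAbs : ℕ) : ℝ) + 1 ≤ Real.log n from
      hlog.eventually_ge_atTop _))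
  filter_upwards [eventually_ge_atTop F.N0, hdet, hubig, hlog.eventually_ge_atTop 1]
    with n hn hdetn hubn hlog1
  intro n' w hw hwz
  have hlogw : Real.log n ≤ w := by nlinarith
  have hcls := fun l => dQ_cls F hn l
  have hdens := fun l => (hcls l).dens
  have hu0 : ∀ l, 0 < (F.u l).natAbs := fun l => Int.natAbs_pos.2 (F.hu l)
  have hbig : ∀ l (p : ℕ), p.Prime → w < p → ¬ p ∣ (F.u l).natAbs := by
    intro l p hp hpw hd
    have h1 := Nat.le_of_dvd (hu0 l) hd
    have h2 := hubn l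
    have h3 : (p : ℝ) ≤ (F.u l).natAbs := by exact_mod_cast h1
    have h4 : (w : ℝ) < p := by exact_mod_cast hpw
    linarith
  have hVdef : F.V n n' = W (fun p => (om (fun p y => (p : ℤ) ∣ (F.G n).eval y) p : ℝ) / p)
      (PK (2 * D) n') := by
    unfold Fam.V
    unfold W
    apply Finset.prod_congr rfl
    intro p _
    congr 3
  have hg0 : ∀ p : ℕ, p.Prime →
      0 ≤ 1 - (om (fun p y => (p : ℤ) ∣ (F.G n).eval y) p : ℝ) / p := by
    intro p hpp
    have hp0 : (0 : ℝ) < p := by exact_mod_cast hpp.pos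
    have h1 : (om (fun p y => (p : ℤ) ∣ (F.G n).eval y) p : ℝ) / p ≤ 1 := by
      rw [div_le_one hp0]
      exact_mod_cast (dG_lt F hn hpp).le
    linarith
  have hV0 : 0 ≤ F.V n n' := by
    rw [hVdef]
    apply W_nonneg
    intro p hp
    have := hg0 p (mem_PK.1 hp).1
    linarith
  have habs : ∀ l, |(F.u l : ℝ)| = (F.u l).natAbs := by
    intro l
    rw [Nat.cast_natAbs]
    push_cast
    rfl
  have hd2le : ∀ i j (p : ℕ), p.Prime →
      d2 F n w (z0 D n') i j p ≤ rhoW (F.u j).natAbs (dQ F n j) p := by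
    intro i j p hp
    exact tc_dn2_rho_le _ p (tc_dn2_sub F hn hp)
  -- the product over the prime factors of `u`
  have hrr : ∀ l, ∏ p ∈ PK (2 * D) n', (if p ∣ (F.u l).natAbs then 1 - 1 / (p : ℝ) else 1) =
      (Nat.totient (F.u l).natAbs : ℝ) / (F.u l).natAbs := by
    intro l
    rw [totient_div _ (hu0 l)]
    have h1 : ∏ p ∈ PK (2 * D) n', (if p ∣ (F.u l).natAbs then 1 - 1 / (p : ℝ) else 1) =
        ∏ p ∈ (PK (2 * D) n').filter (· ∣ (F.u l).natAbs), (1 - 1 / (p : ℝ)) := by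
      rw [Finset.prod_filter]
    rw [h1]
    congr 1
    ext p
    rw [Finset.mem_filter, Nat.mem_primeFactors, mem_PK]
    constructor
    · rintro ⟨⟨h2, _⟩, h3⟩
      exact ⟨h2, h3, (hu0 l).ne'⟩
    · rintro ⟨h2, h3, _⟩
      refine ⟨⟨h2, ?_⟩, h3⟩
      by_contra h4
      push Not at h4
      exact hbig l p h2 (lt_of_le_of_lt hwz h4) h3
  refine ⟨hbig, ?_, ?_, ?_, ?_, hV0⟩
  · intro i j p hp
    refine le_trans (tc_dn2_om_le (Q' := fun p y => (p : ℤ) ∣ (F.G n).eval y) p ?_)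
      (dG_le F hn hp)
    intro y hy
    exact hy.2.1
  · intro i j
    have h := hdens j
    refine ⟨fun p => ?_, fun p hp => (hd2le i j p hp).trans (h.lt p hp),
      fun p hp => (hd2le i j p hp).trans (h.le p hp)⟩
    unfold d2 rhoW
    positivity
  · intro i j hij
    have hκz : 0 < kapD (z0 D n') := kapD_pos _
    have hκw : 0 < kapD w := kapD_pos _
    have hu1 : (0 : ℝ) < (F.u j).natAbs := by exact_mod_cast hu0 j
    have hφ : (0 : ℝ) < Nat.totient (F.u j).natAbs := by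
      exact_mod_cast Nat.totient_pos.2 (hu0 j)
    -- the factors
    set dt : ℤ := F.u i * F.v n j - F.u j * F.v n i with hdt
    have hp01 : ∀ p : ℕ, p.Prime → (0 : ℝ) < 1 - 1 / (p : ℝ) := by
      intro p hp
      have hp2 : (2 : ℝ) ≤ p := by exact_mod_cast hp.two_le
      have : 1 / (p : ℝ) ≤ 1 / 2 := one_div_le_one_div_of_le (by norm_num) hp2
      linarith
    have hfac : ∀ p ∈ PK (2 * D) n',
        (1 - (om (fun p y => (p : ℤ) ∣ (F.G n).eval y) p : ℝ) / p) *
          ((if p ∣ (F.u j).natAbs then 1 - 1 / (p : ℝ) else 1) *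
            (if w < p ∧ (p : ℤ) ∣ dt then 1 - 1 / (p : ℝ) else 1)) *
          (if p ≤ w then 1 - 1 / (p : ℝ) else 1) ≤
        (1 - d2 F n w (z0 D n') i j p) * (1 - 1 / (p : ℝ)) ^ 2 := by
      intro p hp
      obtain ⟨hpp, hpz⟩ := mem_PK.1 hp
      by_cases hpw : p ≤ w
      · rw [if_neg (show ¬ (w < p ∧ (p : ℤ) ∣ dt) from fun h => by omega), if_pos hpw, mul_one,
          tc_dn2_loc1 F hn j hpp]
        have e : d2 F n w (z0 D n') i j p = rhoW (F.u j).natAbs (dQ F n j) p := by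
          unfold d2
          exact Pool.Agent.CM.L.dns_rho_congr _ p (tc_dn2_iff F hn hpp hpz hpw)
        rw [e]
        apply le_of_eq
        ring
      · push Not at hpw
        rw [if_neg (hbig j p hpp hpw), if_neg (show ¬ p ≤ w by omega), one_mul, mul_one]
        have h := tc_dn2_loc2 F (z := z0 D n') hn hpp hpw (hbig i p hpp hpw) (hbig j p hpp hpw)
        have e : (if w < p ∧ (p : ℤ) ∣ dt then 1 - 1 / (p : ℝ) else 1) =
            (if (p : ℤ) ∣ dt then 1 - 1 / (p : ℝ) else 1) := by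
          simp only [hpw, true_and]
        rw [e]
        exact h
    have hprod := Finset.prod_le_prod (s := PK (2 * D) n') (f := fun p =>
        (1 - (om (fun p y => (p : ℤ) ∣ (F.G n).eval y) p : ℝ) / p) *
          ((if p ∣ (F.u j).natAbs then 1 - 1 / (p : ℝ) else 1) *
            (if w < p ∧ (p : ℤ) ∣ dt then 1 - 1 / (p : ℝ) else 1)) *
          (if p ≤ w then 1 - 1 / (p : ℝ) else 1))
      (fun p hp => by
        obtain ⟨hpp, hpz⟩ := mem_PK.1 hp
        have h1 := hg0 p hpp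
        have h2 := (hp01 p hpp).le
        have h3 : ∀ (c : Prop) [Decidable c], 0 ≤ (if c then 1 - 1 / (p : ℝ) else 1) := by
          intro c _
          split_ifs
          · exact h2
          · norm_num
        exact mul_nonneg (mul_nonneg h1 (mul_nonneg (h3 _) (h3 _))) (h3 _)) hfac
    rw [Finset.prod_mul_distrib, Finset.prod_mul_distrib, Finset.prod_mul_distrib,
      Finset.prod_mul_distrib, Finset.prod_pow] at hprod
    have eV : ∏ p ∈ PK (2 * D) n', (1 - (om (fun p y => (p : ℤ) ∣ (F.G n).eval y) p : ℝ) / p) =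
        F.V n n' := by
      rw [hVdef]
      rfl
    have eW : ∏ p ∈ PK (2 * D) n', (1 - d2 F n w (z0 D n') i j p) =
        W (d2 F n w (z0 D n') i j) (PK (2 * D) n') := rfl
    have eκz : ∏ p ∈ PK (2 * D) n', (1 - 1 / (p : ℝ)) = kapD (z0 D n') := by
      unfold kapD z0
      rw [← PK_eq]
    have eκw : ∏ p ∈ PK (2 * D) n', (if p ≤ w then 1 - 1 / (p : ℝ) else 1) = kapD w := by
      unfold kapD
      rw [← Finset.prod_filter]
      congr 1
      ext p
      simp only [Finset.mem_filter, mem_PK, Finset.mem_Icc]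
      constructor
      · rintro ⟨⟨h1, _⟩, h2⟩
        exact ⟨⟨h1.one_le, h2⟩, h1⟩
      · rintro ⟨⟨_, h2⟩, h1⟩
        exact ⟨⟨h1, h2.trans hwz⟩, h2⟩
    rw [eV, hrr j, eκw, eW, eκz, ← Finset.prod_filter] at hprod
    have hS := hdetn i j hij w ((PK (2 * D) n').filter (fun p => w < p ∧ (p : ℤ) ∣ dt)) hw
      (fun p hp => by
        rw [Finset.mem_filter, mem_PK] at hp
        exact ⟨hp.1.1, hp.2.1, hp.2.2⟩)
    set PS := ∏ p ∈ (PK (2 * D) n').filter (fun p => w < p ∧ (p : ℤ) ∣ dt), (1 - 1 / (p : ℝ))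
      with hPS
    rw [habs j]
    set u1 : ℝ := ((F.u j).natAbs : ℝ) with hu1d
    set φ : ℝ := (Nat.totient (F.u j).natAbs : ℝ) with hφd
    have h1 : F.V n n' * (φ / u1 * (1 / 2)) * kapD w ≤
        W (d2 F n w (z0 D n') i j) (PK (2 * D) n') * kapD (z0 D n') ^ 2 := by
      refine le_trans ?_ hprod
      apply mul_le_mul_of_nonneg_right _ hκw.le
      apply mul_le_mul_of_nonneg_left _ hV0
      apply mul_le_mul_of_nonneg_left hS
      positivity
    have e1 : 1 / 2 * (F.V n n' / kapD (z0 D n') ^ 2 * kapD w) =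
        F.V n n' * (φ / u1 * (1 / 2)) * kapD w * (u1 / φ) / kapD (z0 D n') ^ 2 := by
      field_simp
    have e2 : u1 * (W (d2 F n w (z0 D n') i j) (PK (2 * D) n') / φ) =
        W (d2 F n w (z0 D n') i j) (PK (2 * D) n') * kapD (z0 D n') ^ 2 * (u1 / φ) /
          kapD (z0 D n') ^ 2 := by
      field_simp
    rw [e1, e2]
    apply div_le_div_of_nonneg_right _ (by positivity)
    apply mul_le_mul_of_nonneg_right h1 (by positivity)
  · intro l
    have hκ : 0 < kapD (z0 D n') := kapD_pos _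
    have hu1 : (0 : ℝ) < (F.u l).natAbs := by exact_mod_cast hu0 l
    have hφ : (0 : ℝ) < Nat.totient (F.u l).natAbs := by
      exact_mod_cast Nat.totient_pos.2 (hu0 l)
    have hprod : F.V n n' *
          ∏ p ∈ PK (2 * D) n', (if p ∣ (F.u l).natAbs then 1 - 1 / (p : ℝ) else 1) =
        W (d2 F n (z0 D n') (z0 D n') l l) (PK (2 * D) n') * kapD (z0 D n') := by
      rw [hVdef]
      unfold W kapD z0
      rw [← PK_eq, ← Finset.prod_mul_distrib, ← Finset.prod_mul_distrib]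
      apply Finset.prod_congr rfl
      intro p hp
      obtain ⟨hpp, hpz⟩ := mem_PK.1 hp
      have e : d2 F n (2 ^ 2 ^ (2 * D + n')) (2 ^ 2 ^ (2 * D + n')) l l p =
          rhoW (F.u l).natAbs (dQ F n l) p := by
        unfold d2
        exact Pool.Agent.CM.L.dns_rho_congr _ p (tc_dn2_iff F hn hpp hpz hpz)
      rw [e]
      exact tc_dn2_loc1 F hn l hpp
    rw [hrr l] at hprod
    rw [habs l]
    rw [eq_div_iff hκ.ne']
    field_simp at hprod ⊢
    linarith

end Pool.Agent.TC.M
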